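import Pool.Agent.Work.Monodromy.InterfaceM

/-!
# Phase M, block CHX: charts at points which are nondegenerate in parameters (helper81)
-/

set_option autoImplicit false

namespace Pool.Agent.Mono.MG

open MvPolynomial NP

namespace CHXMAux

section

variable {ι : Type} [Fintype ι] [DecidableEq ι]

theorem aeval_X_coe (T : MvPolynomial ι ℂ) :
    aeval (fun i => (MvPowerSeries.X i : MvPowerSeries ι ℂ)) T = (T : MvPowerSeries ι ℂ) := by
  induction T using MvPolynomial.induction_on with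
  | C a =>
    rw [aeval_C, MvPolynomial.coe_C]
    rfl
  | add p q hp hq => rw [map_add, hp, hq, MvPolynomial.coe_add]
  | mul_X p i hp => rw [map_mul, hp, aeval_X, MvPolynomial.coe_mul, MvPolynomial.coe_X]

theorem aeval_aeval_Y (Y : ι → MvPolynomial ι ℂ) (φ : ι → MvPowerSeries ι ℂ)
    (hY : ∀ i, aeval φ (Y i) = (MvPowerSeries.X i : MvPowerSeries ι ℂ))
    (T : MvPolynomial ι ℂ) : aeval φ (aeval Y T) = (T : MvPowerSeries ι ℂ) := by
  rw [← aeval_X_coe T]
  induction T using MvPolynomial.induction_on with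
  | C a => simp
  | add p q hp hq => rw [map_add, map_add, map_add, hp, hq]
  | mul_X p i hp => rw [map_mul, map_mul, map_mul, hp, aeval_X, aeval_X, hY]

theorem constantCoeff_aeval (p : ι → ℂ) (φ : ι → MvPowerSeries ι ℂ)
    (hφ : ∀ i, MvPowerSeries.constantCoeff (φ i) = p i) (h : MvPolynomial ι ℂ) :
    MvPowerSeries.constantCoeff (aeval φ h : MvPowerSeries ι ℂ) = eval p h := by
  induction h using MvPolynomial.induction_on with
  | C a =>
    rw [aeval_C, eval_C]
    exact MvPowerSeries.constantCoeff_C a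
  | add p q hp hq => rw [map_add, map_add, map_add, hp, hq]
  | mul_X p i hp => rw [map_mul, map_mul, map_mul, hp, aeval_X, eval_X, hφ]

theorem prod_X (v : ι → ℕ) : ∏ i, (MvPowerSeries.X i : MvPowerSeries ι ℂ) ^ v i =
    MvPowerSeries.monomial (Finsupp.equivFunOnFinite.symm v) 1 := by
  have h1 : ∏ i, (X i : MvPolynomial ι ℂ) ^ v i =
      monomial (Finsupp.equivFunOnFinite.symm v) 1 := by
    rw [monomial_eq, map_one, one_mul, Finsupp.prod_fintype]
    · rfl
    · intro i
      rw [pow_zero]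
  have h2 := congrArg (fun p : MvPolynomial ι ℂ => (p : MvPowerSeries ι ℂ)) h1
  simp only [coe_monomial] at h2
  rw [← h2]
  have h3 : (((∏ i, (X i : MvPolynomial ι ℂ) ^ v i : MvPolynomial ι ℂ)) : MvPowerSeries ι ℂ) =
      coeToMvPowerSeries.ringHom (∏ i, (X i : MvPolynomial ι ℂ) ^ v i) := rfl
  rw [h3, map_prod]
  refine Finset.prod_congr rfl fun i _ => ?_
  rw [map_pow]
  congr 1
  exact (coe_X i).symm

/-- low coefficients of a product -/
theorem coeff_mul_low {N : ℕ} (a b : MvPowerSeries ι ℂ)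
    (ha : ∀ m : ι →₀ ℕ, m.degree < N → MvPowerSeries.coeff m a = 0) (m : ι →₀ ℕ)
    (hm : m.degree < N) : MvPowerSeries.coeff m (a * b) = 0 := by
  rw [MvPowerSeries.coeff_mul]
  refine Finset.sum_eq_zero fun x hx => ?_
  have h1 : x.1 + x.2 = m := Finset.HasAntidiagonal.mem_antidiagonal.mp hx
  have h2 : x.1.degree ≤ m.degree := by
    rw [← h1, map_add]
    exact Nat.le_add_right _ _
  rw [ha x.1 (lt_of_le_of_lt h2 hm), zero_mul]

/-- truncation -/
theorem exists_trunc (N : ℕ) (a : MvPowerSeries ι ℂ) : ∃ T : MvPolynomial ι ℂ,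
    ∀ m : ι →₀ ℕ, m.degree < N → MvPowerSeries.coeff m (a - (T : MvPowerSeries ι ℂ)) = 0 := by
  refine ⟨MvPowerSeries.trunc' ℂ (Finsupp.equivFunOnFinite.symm fun _ => N) a, fun m hm => ?_⟩
  rw [map_sub, MvPolynomial.coeff_coe, MvPowerSeries.coeff_trunc', if_pos, sub_self]
  intro i
  have h1 : m i ≤ m.degree := by
    rw [Finsupp.degree_eq_sum]
    exact Finset.single_le_sum (f := fun i => m i) (fun _ _ => Nat.zero_le _)
      (Finset.mem_univ i)
  have h2 : (Finsupp.equivFunOnFinite.symm (fun _ : ι => N)) i = N := rfl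
  rw [h2]
  omega

theorem coeff_at {κ : Type} [Fintype κ] [DecidableEq κ] (w : κ → ι → ℕ)
    (hw : Function.Injective w) (B : κ → MvPowerSeries ι ℂ) (k : ι → ℕ) (hk : ∀ i, 1 ≤ k i)
    (v : κ) (hv : v ∈ fc w k) :
    MvPowerSeries.coeff (Finsupp.equivFunOnFinite.symm (w v))
      (∑ v', B v' * ∏ i, (MvPowerSeries.X i : MvPowerSeries ι ℂ) ^ w v' i) =
      MvPowerSeries.constantCoeff (B v) := by
  rw [map_sum, Finset.sum_eq_single v]
  · rw [prod_X, MvPowerSeries.coeff_mul_monomial, if_pos le_rfl, mul_one, tsub_self,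
      MvPowerSeries.coeff_zero_eq_constantCoeff_apply]
  · intro v' _ hne
    rw [prod_X, MvPowerSeries.coeff_mul_monomial, if_neg]
    intro hle
    apply hne
    apply hw
    have hle' : ∀ i, w v' i ≤ w v i := fun i => hle i
    have h1 : kw w k v ≤ kw w k v' := by
      unfold fc at hv
      exact (Finset.mem_filter.mp hv).2 v'
    have h2 : kw w k v' ≤ kw w k v := by
      unfold kw
      exact Finset.sum_le_sum fun i _ => Nat.mul_le_mul_left _ (hle' i)
    have h3 : ∑ i, k i * w v' i = ∑ i, k i * w v i := le_antisymm h2 h1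
    have h4 := (Finset.sum_eq_sum_iff_of_le fun i _ => Nat.mul_le_mul_left (k i) (hle' i)).1 h3
    funext i
    exact Nat.eq_of_mul_eq_mul_left (hk i) (h4 i (Finset.mem_univ i))
  · intro h
    exact absurd (Finset.mem_univ _) h

end

end CHXMAux

open CHXMAux

theorem stmt_CHX (hKRL : Stmt_KRL) (hFLT : Stmt_FLT) (hDCP : LO.Stmt_DCP) : Stmt_CHX := by
  intro ι _ _ f p hf
  obtain ⟨Y, φ, hφ, hY, hnd⟩ := hf
  obtain ⟨hFCo, hdet, hY0, hord⟩ := hFLT ι p Y φ hφ hY
  refine ⟨⟨φ, hφ, hFCo.2, hnd⟩, ?_⟩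
  obtain ⟨κ, hκ1, hκ2, w, A, hne, hw, hser, hNdC⟩ := hDCP ι (aeval φ f) hnd
  set I : Ideal (MvPolynomial ι ℂ) := Ideal.span (Set.range fun v : κ => ∏ i, Y i ^ w v i)
    with hI
  have hmem : ∀ N : ℕ, f ∈ I ⊔ C9.mI p ^ N := by
    intro N
    choose T hT using fun v : κ => exists_trunc N (A v)
    have h1 : f - ∑ v, aeval Y (T v) * ∏ i, Y i ^ w v i ∈ C9.mI p ^ N := by
      apply hord
      intro m hm
      have h2 : aeval φ (f - ∑ v, aeval Y (T v) * ∏ i, Y i ^ w v i) =
          ∑ v, (A v - (T v : MvPowerSeries ι ℂ)) *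
            ∏ i, (MvPowerSeries.X i : MvPowerSeries ι ℂ) ^ w v i := by
        rw [map_sub, hser, map_sum]
        unfold LO.ser
        rw [← Finset.sum_sub_distrib]
        refine Finset.sum_congr rfl fun v _ => ?_
        rw [map_mul, aeval_aeval_Y Y φ hY, map_prod, sub_mul]
        congr 2
        refine Finset.prod_congr rfl fun i _ => ?_
        rw [map_pow, hY]
      rw [h2, map_sum]
      exact Finset.sum_eq_zero fun v _ => coeff_mul_low _ _ (hT v) m hm
    have h3 : ∑ v, aeval Y (T v) * ∏ i, Y i ^ w v i ∈ I := by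
      refine Ideal.sum_mem _ fun v _ => Ideal.mul_mem_left _ _ ?_
      exact Ideal.subset_span ⟨v, rfl⟩
    have h4 : f = ∑ v, aeval Y (T v) * ∏ i, Y i ^ w v i +
        (f - ∑ v, aeval Y (T v) * ∏ i, Y i ^ w v i) := by ring
    rw [h4]
    exact Submodule.add_mem_sup h3 h1
  obtain ⟨s, hs, hsf⟩ := hKRL ι I p f hmem
  obtain ⟨c, hc⟩ := (Ideal.mem_span_range_iff_exists_fun).mp hsf
  have hgg : s * f = gg Y w c := hc.symm
  have hkey : ∀ k : ι → ℕ, (∀ i, 1 ≤ k i) → ∀ v ∈ fc w k,
      eval p (c v) = eval p s * LO.lead A v := by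
    intro k hk v hv
    have h1 : (aeval φ (s * f) : MvPowerSeries ι ℂ) =
        ∑ v', (aeval φ s * A v') * ∏ i, (MvPowerSeries.X i : MvPowerSeries ι ℂ) ^ w v' i := by
      rw [map_mul, hser]
      unfold LO.ser
      rw [Finset.mul_sum]
      exact Finset.sum_congr rfl fun v' _ => (mul_assoc _ _ _).symm
    have h2 : (aeval φ (s * f) : MvPowerSeries ι ℂ) =
        ∑ v', (aeval φ (c v')) * ∏ i, (MvPowerSeries.X i : MvPowerSeries ι ℂ) ^ w v' i := by
      rw [hgg]
      unfold gg
      rw [map_sum]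
      refine Finset.sum_congr rfl fun v' _ => ?_
      rw [map_mul, map_prod]
      congr 1
      refine Finset.prod_congr rfl fun i _ => ?_
      rw [map_pow, hY]
    have h3 := coeff_at w hw (fun v' => aeval φ s * A v') k hk v hv
    have h4 := coeff_at w hw (fun v' => aeval φ (c v')) k hk v hv
    rw [← h1] at h3
    rw [← h2, h3, map_mul, constantCoeff_aeval p φ hφ, constantCoeff_aeval p φ hφ] at h4
    exact h4.symm
  refine ⟨κ, hκ1, hκ2, Y, s, w, c, hne, hgg, ?_, ?_, ?_⟩
  · intro x hx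
    rw [Set.mem_singleton_iff] at hx
    rw [hx]
    exact hdet
  · intro x hx
    rw [Set.mem_singleton_iff] at hx
    rw [hx]
    exact hs
  · intro x hx
    rw [Set.mem_singleton_iff] at hx
    subst hx
    intro k hk y hy _ hsum
    have hk1 : ∀ i, 1 ≤ k i := fun i => Nat.one_le_iff_ne_zero.mpr ((hk i).mp (hY0 i))
    have hsum' : ∑ v ∈ fc w k, LO.lead A v * ∏ i, y i ^ w v i = 0 := by
      have h1 : eval x s * ∑ v ∈ fc w k, LO.lead A v * ∏ i, y i ^ w v i = 0 := by
        rw [← hsum, Finset.mul_sum]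
        refine Finset.sum_congr rfl fun v hv => ?_
        rw [hkey k hk1 v hv, mul_assoc]
      exact (mul_eq_zero.mp h1).resolve_left hs
    obtain ⟨i, hi⟩ := hNdC k hk1 y hy hsum'
    refine ⟨i, ?_⟩
    have h2 : ∑ v ∈ fc w k, eval x (lg Y w c i v) * ∏ i', y i' ^ w v i' =
        (eval x (jm Y).det * eval x s) *
          ∑ v ∈ fc w k, (w v i : ℂ) * (LO.lead A v * ∏ i', y i' ^ w v i') := by
      rw [Finset.mul_sum]
      refine Finset.sum_congr rfl fun v hv => ?_
      unfold lg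
      rw [map_add, map_mul, map_mul, map_mul, eval_C, hY0, zero_mul, add_zero,
        hkey k hk1 v hv]
      ring
    rw [h2]
    exact mul_ne_zero (mul_ne_zero hdet hs) hi

end Pool.Agent.Mono.MG
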