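import Pool.Agent.Work.Monodromy.InterfaceM
import Pool.Agent.Work.Monodromy12.CLS012

/-!
# Block CLS0M: jets on which the leading form does not vanish (helper31)
-/

set_option autoImplicit false
set_option linter.unusedSectionVars false

namespace Pool.Agent.Mono.MG

open MvPolynomial NP NP.CLS0Aux

namespace CLS0MAux

variable {ι κ : Type} [Fintype ι] [DecidableEq ι] [Fintype κ] [DecidableEq κ]

/-! ### Constructible sets -/

theorem cons_JS (f : MvPolynomial ι ℂ) {S : Set (ι → ℂ)} (hS : Constructible S) (d K : ℕ) :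
    Constructible (JS f S d K) :=
  Constructible.and (cons_jetSet f d K)
    (Constructible.comap (fun i : ι => (Sum.inl (i, (0 : Fin (K + 1))) : (ι × Fin (K + 1)) ⊕ Unit))
      hS)

theorem cons_JtS (Y : ι → MvPolynomial ι ℂ) (f : MvPolynomial ι ℂ) {S : Set (ι → ℂ)}
    (hS : Constructible S) (d K : ℕ) (k : ι → ℕ) : Constructible (JtS Y f S d K k) := by
  refine Constructible.and (cons_JS f hS d K) (Constructible.all fun i => Constructible.and ?_ ?_)
  · refine Constructible.all_lt (k i) fun l _ => ?_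
    refine Constructible.imp (Constructible.const _) ?_
    have h := Constructible.zero (cJ K (Y i) l)
    simpa only [eval_cJ] using h
  · refine Constructible.imp (Constructible.const _) ?_
    have h := Constructible.ne (cJ K (Y i) (k i))
    simpa only [eval_cJ] using h

theorem cons_ZA (Y : ι → MvPolynomial ι ℂ) (A : Finset ι) : Constructible (ZA Y A) :=
  Constructible.all fun i => Constructible.iff (Constructible.zero (Y i)) (Constructible.const _)

theorem eval_l {τ : Type} (g : MvPolynomial ι ℂ) (h : ι → τ) (z : τ → ℂ) :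
    eval z (rename h g) = eval (fun i => z (h i)) g := by
  rw [eval_rename]
  rfl

theorem cons_VS (Y : ι → MvPolynomial ι ℂ) (w : κ → ι → ℕ) (c : κ → MvPolynomial ι ℂ)
    {S : Set (ι → ℂ)} (hS : Constructible S) (A : Finset ι) (F : Finset κ) :
    Constructible (VS Y w c S A F) := by
  refine Constructible.and (Constructible.comap Sum.inl hS) (Constructible.and
    (Constructible.comap Sum.inl (cons_ZA Y A)) (Constructible.and
      (Constructible.all fun i => ?_) (Constructible.and (Constructible.all fun i => ?_) ?_)))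
  · have h := Constructible.ne (X (Sum.inr i) : MvPolynomial (ι ⊕ ι) ℂ)
    simpa only [eval_X] using h
  · refine Constructible.imp (Constructible.const _) ?_
    have h := Constructible.eq (X (Sum.inr i) : MvPolynomial (ι ⊕ ι) ℂ) (rename Sum.inl (Y i))
    simpa only [eval_X, eval_l] using h
  · have h := Constructible.zero (∑ v ∈ F, rename Sum.inl (c v) *
      ∏ i, (X (Sum.inr i) : MvPolynomial (ι ⊕ ι) ℂ) ^ w v i)
    simpa only [map_sum, map_mul, map_prod, map_pow, eval_X, eval_l] using h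

theorem cons_WS (Y : ι → MvPolynomial ι ℂ) (s : MvPolynomial ι ℂ) (w : κ → ι → ℕ)
    (c : κ → MvPolynomial ι ℂ) {S : Set (ι → ℂ)} (hS : Constructible S) (A : Finset ι)
    (F : Finset κ) (d : ℕ) : Constructible (WS Y s w c S A F d) := by
  refine Constructible.and (Constructible.comap (fun i => Sum.inl (Sum.inl i)) hS)
    (Constructible.and (Constructible.comap (fun i => Sum.inl (Sum.inl i)) (cons_ZA Y A))
      (Constructible.and (Constructible.all fun i => ?_) (Constructible.and
        (Constructible.all fun i => ?_) (Constructible.and ?_ ?_))))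
  · have h := Constructible.ne (X (Sum.inl (Sum.inr i)) : MvPolynomial ((ι ⊕ ι) ⊕ Unit) ℂ)
    simpa only [eval_X] using h
  · refine Constructible.imp (Constructible.const _) ?_
    have h := Constructible.eq (X (Sum.inl (Sum.inr i)) : MvPolynomial ((ι ⊕ ι) ⊕ Unit) ℂ)
      (rename (fun i => Sum.inl (Sum.inl i)) (Y i))
    simpa only [eval_X, eval_l] using h
  · have h := Constructible.ne (X (Sum.inr ()) : MvPolynomial ((ι ⊕ ι) ⊕ Unit) ℂ)
    simpa only [eval_X] using h
  · have h := Constructible.eq (rename (fun i => Sum.inl (Sum.inl i)) s *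
      (X (Sum.inr ()) : MvPolynomial ((ι ⊕ ι) ⊕ Unit) ℂ) ^ d)
      (∑ v ∈ F, rename (fun i => Sum.inl (Sum.inl i)) (c v) *
        ∏ i, (X (Sum.inl (Sum.inr i)) : MvPolynomial ((ι ⊕ ι) ⊕ Unit) ℂ) ^ w v i)
    simpa only [map_sum, map_mul, map_prod, map_pow, eval_X, eval_l] using h

/-! ### Coefficients -/

/-- the constant coefficient of `g` along a jet -/
theorem coeff_zero_jet (K : ℕ) (z : ι × Fin (K + 1) → ℂ) (g : MvPolynomial ι ℂ) :
    (aeval (jet z) g : Polynomial ℂ).coeff 0 = eval (fun i => z (i, 0)) g := by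
  induction g using MvPolynomial.induction_on with
  | C a =>
    rw [aeval_C, Polynomial.algebraMap_apply, Polynomial.coeff_C_zero, eval_C]
    rfl
  | add p q hp hq => rw [map_add, map_add, Polynomial.coeff_add, hp, hq]
  | mul_X p i hp =>
    rw [map_mul, map_mul, Polynomial.mul_coeff_zero, hp, aeval_X, eval_X]
    congr 1
    rw [Polynomial.coeff_zero_eq_eval_zero, jet, Polynomial.eval_finsetSum, Finset.sum_eq_single 0]
    · simp
    · intro l _ hl
      rw [Polynomial.eval_mul, Polynomial.eval_pow, Polynomial.eval_X,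
        zero_pow (fun h => hl (Fin.ext h)), mul_zero]
    · intro h
      exact absurd (Finset.mem_univ _) h

theorem coeff_mul_low (P Q : Polynomial ℂ) (l : ℕ) (h : ∀ m < l, Q.coeff m = 0) :
    (P * Q).coeff l = P.coeff 0 * Q.coeff l := by
  rw [Polynomial.coeff_mul, Finset.sum_eq_single (0, l)]
  · rintro ⟨a, b⟩ hab hne
    rw [Finset.HasAntidiagonal.mem_antidiagonal] at hab
    have hb : b < l := by
      rcases Nat.lt_or_ge b l with hb | hb
      · exact hb
      · exfalso
        apply hne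
        have h1 : b = l := by omega
        have h2 : a = 0 := by omega
        rw [h1, h2]
    rw [h b hb, mul_zero]
  · intro h1
    exfalso
    exact h1 (Finset.HasAntidiagonal.mem_antidiagonal.2 (Nat.zero_add l))

theorem low_of_mul (P Q : Polynomial ℂ) (hP : P.coeff 0 ≠ 0) (K : ℕ)
    (h : ∀ l < K, (P * Q).coeff l = 0) : ∀ l < K, Q.coeff l = 0 := by
  intro l
  induction l using Nat.strong_induction_on with
  | _ l ih =>
    intro hl
    have h1 := coeff_mul_low P Q l fun m hm => ih m hm (hm.trans hl)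
    rw [h l hl] at h1
    exact (mul_eq_zero.1 h1.symm).resolve_left hP

/-- membership in `jetSet` when `g = s f` has order at least `K` -/
theorem mem_jetSet (f s g : MvPolynomial ι ℂ) (hg : s * f = g) (d K : ℕ)
    (z : (ι × Fin (K + 1)) ⊕ Unit → ℂ) (hs : eval (fun i => z (Sum.inl (i, 0))) s ≠ 0)
    (h1 : ∀ l < K, (aeval (jet fun q => z (Sum.inl q)) g : Polynomial ℂ).coeff l = 0) :
    z ∈ jetSet f d K ↔ (aeval (jet fun q => z (Sum.inl q)) g : Polynomial ℂ).coeff K ≠ 0 ∧
      eval (fun i => z (Sum.inl (i, 0))) s * z (Sum.inr ()) ^ d =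
        (aeval (jet fun q => z (Sum.inl q)) g : Polynomial ℂ).coeff K := by
  rw [← hg, map_mul] at h1 ⊢
  have hs0 := coeff_zero_jet K (fun q => z (Sum.inl q)) s
  have hs1 : (aeval (jet fun q => z (Sum.inl q)) s : Polynomial ℂ).coeff 0 ≠ 0 := by
    rw [hs0]
    exact hs
  have h2 := low_of_mul _ _ hs1 K h1
  rw [coeff_mul_low _ _ K h2, hs0]
  simp only [jetSet, Set.mem_ofPred_eq]
  constructor
  · rintro ⟨_, h3, h4⟩
    exact ⟨mul_ne_zero hs h3, by rw [h4]⟩
  · rintro ⟨h3, h4⟩
    exact ⟨h2, right_ne_zero_of_mul h3, mul_left_cancel₀ hs h4⟩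

/-! ### The map -/

/-- the leading coefficients -/
noncomputable def ldY (Y : ι → MvPolynomial ι ℂ) (K : ℕ) (k : ι → ℕ)
    (z : (((ι × Fin (K + 1)) ⊕ Unit) ⊕ BI K k) → ℂ) (i : ι) : ℂ :=
  if h : k i ≤ K then
    (aeval (jet fun q => z (Sum.inl (Sum.inl q))) (Y i) : Polynomial ℂ).coeff (k i)
  else z (Sum.inr ⟨i, not_le.1 h⟩)

/-- the polynomial map -/
noncomputable def phiY (Y : ι → MvPolynomial ι ℂ) (K : ℕ) (k : ι → ℕ) :
    ((ι ⊕ ι) ⊕ Unit) ⊕ QI K k → MvPolynomial (((ι × Fin (K + 1)) ⊕ Unit) ⊕ BI K k) ℂ :=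
  Sum.elim (Sum.elim (Sum.elim (fun i => X (Sum.inl (Sum.inl (i, 0))))
    (fun i => if h : k i ≤ K then rename Sum.inl (cJ K (Y i) (k i))
      else X (Sum.inr ⟨i, not_le.1 h⟩))) fun _ => X (Sum.inl (Sum.inr ())))
    fun q => rename Sum.inl (cJ K (Y q.1.1) (q.1.2 : ℕ))

theorem eval_phiY (Y : ι → MvPolynomial ι ℂ) (K : ℕ) (k : ι → ℕ)
    (z : (((ι × Fin (K + 1)) ⊕ Unit) ⊕ BI K k) → ℂ) :
    (fun j => eval z (phiY Y K k j)) = Sum.elim (Sum.elim (Sum.elim
      (fun i => z (Sum.inl (Sum.inl (i, 0)))) (ldY Y K k z)) fun _ => z (Sum.inl (Sum.inr ())))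
      fun q => (aeval (jet fun s => z (Sum.inl (Sum.inl s))) (Y q.1.1) : Polynomial ℂ).coeff
        (q.1.2 : ℕ) := by
  funext j
  rcases j with ((i | i) | ⟨⟩) | q
  · simp only [phiY, Sum.elim_inl, eval_X]
  · simp only [phiY, ldY, Sum.elim_inl, Sum.elim_inr]
    split_ifs with h
    · rw [eval_rename, eval_cJ]
      rfl
    · rw [eval_X]
  · simp only [phiY, Sum.elim_inl, Sum.elim_inr, eval_X]
  · simp only [phiY, Sum.elim_inr]
    rw [eval_rename, eval_cJ]
    rfl

/-- the prescribed coefficients -/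
noncomputable def tauM (K : ℕ) (k : ι → ℕ) (y : ((ι ⊕ ι) ⊕ Unit) ⊕ QI K k → ℂ)
    (p : ι × Fin (K + 1)) : ℂ :=
  if h : k p.1 < (p.2 : ℕ) then y (Sum.inr ⟨p, h⟩)
  else if (p.2 : ℕ) = k p.1 then y (Sum.inl (Sum.inl (Sum.inr p.1))) else 0

end CLS0MAux

open CLS0MAux in
/-- jets on which the leading form does not vanish -/
theorem stmt_CLS0M (hJBJ : Stmt_JBJ) (hXPDM : Stmt_XPDM) : Stmt_CLS0M := by
  classical
  intro ι κ _ _ _ _ _ f S Y s w c R _ μ d K k hS hT hd hK
  -- the product of `JtS` with a torus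
  have hB : (Finset.univ.filter fun i => K < k i).card = Fintype.card (BI K k) := by
    rw [Fintype.card_subtype]
  rw [hB, ← val_Tor μ, ← μ.prod _ _ (cons_JtS Y f hS d K k) (cons_Tor _), ← card_QI,
    ← μ.val_prod_univ (cons_WS Y s w c hS _ _ d)]
  -- membership in `jetSet`
  have key : ∀ z : (ι × Fin (K + 1)) ⊕ Unit → ℂ, (fun i => z (Sum.inl (i, 0))) ∈ S →
      (∀ i, ∀ l < k i, l ≤ K →
        (aeval (jet fun q => z (Sum.inl q)) (Y i) : Polynomial ℂ).coeff l = 0) →
      ∀ y : ι → ℂ, (∀ i, k i ≤ K →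
        y i = (aeval (jet fun q => z (Sum.inl q)) (Y i) : Polynomial ℂ).coeff (k i)) →
      (z ∈ jetSet f d K ↔
        ∑ v ∈ fc w k, eval (fun i => z (Sum.inl (i, 0))) (c v) * ∏ i, y i ^ w v i ≠ 0 ∧
        eval (fun i => z (Sum.inl (i, 0))) s * z (Sum.inr ()) ^ d =
          ∑ v ∈ fc w k, eval (fun i => z (Sum.inl (i, 0))) (c v) * ∏ i, y i ^ w v i) := by
    intro z hzS hz y hy
    obtain ⟨h1, h2⟩ := hXPDM ι κ Y w c K k (fun q => z (Sum.inl q)) hz
    have h3 := (h2 y hy).1 hK.le
    rw [hK] at h1 h3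
    rw [mem_jetSet f s (gg Y w c) hT.eq d K z (hT.s0 _ hzS) fun l hl => h1 l hl hl.le, h3]
  have hld : ∀ z : (((ι × Fin (K + 1)) ⊕ Unit) ⊕ BI K k) → ℂ, ∀ i, k i ≤ K →
      ldY Y K k z i = (aeval (jet fun q => z (Sum.inl (Sum.inl q))) (Y i) : Polynomial ℂ).coeff
        (k i) := by
    intro z i hi
    unfold ldY
    rw [dif_pos hi]
  refine μ.map _ _ (phiY Y K k)
    (Constructible.prodSet (cons_JtS Y f hS d K k) (cons_Tor _))
    (Constructible.comap Sum.inl (cons_WS Y s w c hS _ _ d)) ⟨?_, ?_, ?_⟩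
  · rintro z ⟨⟨⟨hz1, hzS⟩, hz2⟩, hz3⟩
    change (fun j => eval z (phiY Y K k j)) ∈ _
    rw [eval_phiY]
    obtain ⟨h4, h5⟩ := (key (fun s => z (Sum.inl s)) hzS (fun i => (hz2 i).1) (ldY Y K k z)
      (hld z)).1 hz1
    have hy0 : ∀ i, ldY Y K k z i ≠ 0 := by
      intro i
      by_cases h : k i ≤ K
      · rw [hld z i h]
        exact (hz2 i).2 h
      · unfold ldY
        rw [dif_neg h]
        exact hz3 _
    have hx0 : ∀ g : MvPolynomial ι ℂ,
        (aeval (jet fun q => z (Sum.inl (Sum.inl q))) g : Polynomial ℂ).coeff 0 =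
          eval (fun i => z (Sum.inl (Sum.inl (i, 0)))) g := fun g =>
      coeff_zero_jet K (fun q => z (Sum.inl (Sum.inl q))) g
    have hk0 : ∀ i, k i = 0 → ldY Y K k z i =
        eval (fun i => z (Sum.inl (Sum.inl (i, 0)))) (Y i) := by
      intro i hi
      rw [hld z i (by omega), hi, hx0]
    refine ⟨hzS, ?_, hy0, ?_, ?_, h5⟩
    · intro i
      simp only [sp, Finset.mem_filter, Finset.mem_univ, true_and]
      change eval (fun i => z (Sum.inl (Sum.inl (i, 0)))) (Y i) = 0 ↔ _
      constructor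
      · intro h6 h7
        exact hy0 i ((hk0 i h7).trans h6)
      · intro h6
        rw [← hx0]
        exact (hz2 i).1 0 (Nat.pos_of_ne_zero h6) (Nat.zero_le _)
    · intro i hi
      have h6 : k i = 0 := by
        by_contra h7
        exact hi (by simp only [sp, Finset.mem_filter, Finset.mem_univ, true_and]; exact h7)
      exact hk0 i h6
    · intro h6
      apply h4
      rw [← h5]
      change _ * z (Sum.inl (Sum.inr ())) ^ d = 0
      change z (Sum.inl (Sum.inr ())) = 0 at h6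
      rw [h6, zero_pow (by omega), mul_zero]
  · rintro z ⟨⟨⟨_, hzS⟩, hz2⟩, _⟩ z' ⟨⟨⟨_, _⟩, hz2'⟩, _⟩ h
    change (fun j => eval z (phiY Y K k j)) = (fun j => eval z' (phiY Y K k j)) at h
    rw [eval_phiY, eval_phiY] at h
    have hx : ∀ i, z (Sum.inl (Sum.inl (i, 0))) = z' (Sum.inl (Sum.inl (i, 0))) := fun i =>
      congrFun h (Sum.inl (Sum.inl (Sum.inl i)))
    have hl : ∀ i, ldY Y K k z i = ldY Y K k z' i := fun i =>
      congrFun h (Sum.inl (Sum.inl (Sum.inr i)))
    have ho : z (Sum.inl (Sum.inr ())) = z' (Sum.inl (Sum.inr ())) :=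
      congrFun h (Sum.inl (Sum.inr ()))
    have hq : ∀ (i : ι) (l : Fin (K + 1)), k i < (l : ℕ) →
        (aeval (jet fun s => z (Sum.inl (Sum.inl s))) (Y i) : Polynomial ℂ).coeff l =
        (aeval (jet fun s => z' (Sum.inl (Sum.inl s))) (Y i) : Polynomial ℂ).coeff l :=
      fun i l hil => congrFun h (Sum.inr ⟨(i, l), hil⟩)
    have hc : ∀ (i : ι) (l : Fin (K + 1)),
        (aeval (jet fun s => z (Sum.inl (Sum.inl s))) (Y i) : Polynomial ℂ).coeff l =
        (aeval (jet fun s => z' (Sum.inl (Sum.inl s))) (Y i) : Polynomial ℂ).coeff l := by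
      intro i l
      have hlK := Nat.lt_succ_iff.1 l.2
      rcases lt_trichotomy (k i) (l : ℕ) with h1 | h1 | h1
      · exact hq i l h1
      · rw [← h1]
        have h2 := hl i
        rw [hld z i (h1 ▸ hlK), hld z' i (h1 ▸ hlK)] at h2
        exact h2
      · exact ((hz2 i).1 l h1 hlK).trans ((hz2' i).1 l h1 hlK).symm
    have hu := (hJBJ ι Y K (fun i => z (Sum.inl (Sum.inl (i, 0)))) (hT.det _ hzS)
      (fun p => (aeval (jet fun s => z (Sum.inl (Sum.inl s))) (Y p.1) : Polynomial ℂ).coeff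
        (p.2 : ℕ)) fun i => coeff_zero_jet K (fun q => z (Sum.inl (Sum.inl q))) (Y i)).unique
      (y₁ := fun q => z (Sum.inl (Sum.inl q))) (y₂ := fun q => z' (Sum.inl (Sum.inl q)))
      ⟨fun _ => rfl, fun _ _ => rfl⟩ ⟨fun i => (hx i).symm, fun i l => (hc i l).symm⟩
    funext j
    rcases j with (p | ⟨⟩) | i
    · exact congrFun hu p
    · exact ho
    · have h2 := hl i.1
      unfold ldY at h2
      rw [dif_neg (not_le.2 i.2), dif_neg (not_le.2 i.2)] at h2
      exact h2
  · rintro y ⟨hyS, hyZ, hy0, hyA, hyo, hye⟩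
    have hk0 : ∀ i, k i = 0 → y (Sum.inl (Sum.inl (Sum.inr i))) =
        eval (fun i => y (Sum.inl (Sum.inl (Sum.inl i)))) (Y i) := by
      intro i hi
      refine hyA i fun h => ?_
      simp only [sp, Finset.mem_filter, Finset.mem_univ, true_and] at h
      exact h hi
    have hkp : ∀ i, k i ≠ 0 → eval (fun i => y (Sum.inl (Sum.inl (Sum.inl i)))) (Y i) = 0 := by
      intro i hi
      refine (hyZ i).2 ?_
      simp only [sp, Finset.mem_filter, Finset.mem_univ, true_and]
      exact hi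
    have ht0 : ∀ i, tauM K k y (i, 0) = eval (fun i => y (Sum.inl (Sum.inl (Sum.inl i)))) (Y i) := by
      intro i
      unfold tauM
      rw [dif_neg (by simp)]
      by_cases h : k i = 0
      · rw [if_pos (by simp [h])]
        exact hk0 i h
      · rw [if_neg (by simpa using fun h' : 0 = k i => h h'.symm)]
        exact (hkp i h).symm
    obtain ⟨z₀, ⟨hz0, hz1⟩, -⟩ := hJBJ ι Y K (fun i => y (Sum.inl (Sum.inl (Sum.inl i))))
      (hT.det _ hyS) (tauM K k y) ht0
    set z : (((ι × Fin (K + 1)) ⊕ Unit) ⊕ BI K k) → ℂ :=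
      Sum.elim (Sum.elim z₀ fun _ => y (Sum.inl (Sum.inr ())))
        fun i => y (Sum.inl (Sum.inl (Sum.inr i.1))) with hz
    have hzz : (fun q => z (Sum.inl (Sum.inl q))) = z₀ := rfl
    have hcl : ∀ i, ∀ l < k i, l ≤ K → (aeval (jet z₀) (Y i) : Polynomial ℂ).coeff l = 0 := by
      intro i l hl hlK
      have h1 := hz1 i ⟨l, Nat.lt_succ_of_le hlK⟩
      rw [h1]
      unfold tauM
      rw [dif_neg (by simpa using hl.le), if_neg (by simpa using hl.ne)]
    have hcl2 : ∀ i, k i ≤ K → (aeval (jet z₀) (Y i) : Polynomial ℂ).coeff (k i) =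
        y (Sum.inl (Sum.inl (Sum.inr i))) := by
      intro i hiK
      have h1 := hz1 i ⟨k i, Nat.lt_succ_of_le hiK⟩
      rw [h1]
      unfold tauM
      rw [dif_neg (by simp), if_pos rfl]
    have hz0' : (fun i => z (Sum.inl (Sum.inl (i, 0)))) =
        fun i => y (Sum.inl (Sum.inl (Sum.inl i))) := funext hz0
    refine ⟨z, ⟨⟨⟨?_, ?_⟩, ?_⟩, ?_⟩, ?_⟩
    · refine (key (fun s => z (Sum.inl s)) (by rw [hz0']; exact hyS) hcl
        (fun i => y (Sum.inl (Sum.inl (Sum.inr i)))) fun i hi => (hcl2 i hi).symm).2 ?_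
      rw [hz0']
      refine ⟨?_, hye⟩
      intro h
      have h1 : eval (fun i => y (Sum.inl (Sum.inl (Sum.inl i)))) s *
        y (Sum.inl (Sum.inr ())) ^ d ≠ 0 := mul_ne_zero (hT.s0 _ hyS) (pow_ne_zero _ hyo)
      exact h1 (hye.trans h)
    · change (fun i => z (Sum.inl (Sum.inl (i, 0)))) ∈ S
      rw [hz0']
      exact hyS
    · intro i
      refine ⟨hcl i, fun hi => ?_⟩
      change (aeval (jet z₀) (Y i) : Polynomial ℂ).coeff (k i) ≠ 0
      rw [hcl2 i hi]
      exact hy0 i
    · intro i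
      exact hy0 i.1
    · change (fun j => eval z (phiY Y K k j)) = y
      rw [eval_phiY]
      funext j
      rcases j with ((i | i) | ⟨⟩) | q
      · exact hz0 i
      · change ldY Y K k z i = _
        by_cases h : k i ≤ K
        · rw [hld z i h]
          exact hcl2 i h
        · unfold ldY
          rw [dif_neg h]
          rfl
      · rfl
      · change (aeval (jet z₀) (Y q.1.1) : Polynomial ℂ).coeff (q.1.2 : ℕ) = y (Sum.inr q)
        rw [hz1]
        unfold tauM
        rw [dif_pos q.2]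

end Pool.Agent.Mono.MG
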