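import Pool.Agent.Work.Monodromy.InterfaceM
import Pool.Agent.Work.Monodromy12.CLS112

/-!
# Block CLS1M: jets on which the leading form vanishes (helper29, after CLS112 of helper69)
-/

set_option autoImplicit false

namespace Pool.Agent.Mono.MG

open MvPolynomial Filter Topology NP

namespace CLS1MAux

section poly

variable {ι : Type}

/-- the universal jet -/
noncomputable def uj (ι : Type) (K : ℕ) (i : ι) :
    Polynomial (MvPolynomial (ι × Fin (K + 1)) ℂ) :=
  ∑ l : Fin (K + 1), Polynomial.C (X (i, l)) * Polynomial.X ^ (l : ℕ)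

/-- the coefficients of a polynomial on a jet -/
noncomputable def cJ (K : ℕ) (g : MvPolynomial ι ℂ) (l : ℕ) :
    MvPolynomial (ι × Fin (K + 1)) ℂ :=
  (aeval (uj ι K) g : Polynomial (MvPolynomial (ι × Fin (K + 1)) ℂ)).coeff l

theorem eval_cJ (K : ℕ) (g : MvPolynomial ι ℂ) (l : ℕ) (v : ι × Fin (K + 1) → ℂ) :
    eval v (cJ K g l) = (aeval (jet v) g : Polynomial ℂ).coeff l := by
  have h1 : (Polynomial.mapAlgHom (aeval v : MvPolynomial (ι × Fin (K + 1)) ℂ →ₐ[ℂ] ℂ))
      (aeval (uj ι K) g) = aeval (jet v) g := by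
    have h2 := MvPolynomial.comp_aeval (R := ℂ) (f := uj ι K)
      (Polynomial.mapAlgHom (aeval v : MvPolynomial (ι × Fin (K + 1)) ℂ →ₐ[ℂ] ℂ))
    have h3 := AlgHom.congr_fun h2 g
    rw [AlgHom.comp_apply] at h3
    rw [h3]
    congr 2
    funext i
    simp only [uj, jet, map_sum, map_mul, map_pow, Polynomial.coe_mapAlgHom, Polynomial.map_C,
      Polynomial.map_X]
    refine Finset.sum_congr rfl fun l _ => ?_
    congr 2
    simp
  rw [← h1, Polynomial.coeff_mapAlgHom_apply, cJ]
  rfl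

theorem coeff_zero (K : ℕ) (g : MvPolynomial ι ℂ) (v : ι × Fin (K + 1) → ℂ) :
    (aeval (jet v) g : Polynomial ℂ).coeff 0 = eval (fun i => v (i, 0)) g := by
  rw [Polynomial.coeff_zero_eq_eval_zero]
  have h2 := MvPolynomial.comp_aeval (R := ℂ) (f := jet v)
    (Polynomial.aeval (0 : ℂ) : Polynomial ℂ →ₐ[ℂ] ℂ)
  have h3 := AlgHom.congr_fun h2 g
  rw [AlgHom.comp_apply] at h3
  have h4 : (Polynomial.aeval (0 : ℂ)) (aeval (jet v) g : Polynomial ℂ) =
      Polynomial.eval 0 (aeval (jet v) g : Polynomial ℂ) := by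
    rw [Polynomial.aeval_def, Polynomial.eval₂_eq_eval_map]
    simp
  rw [← h4, h3]
  have h5 : (fun i => (Polynomial.aeval (0 : ℂ)) (jet v i)) = fun i => v (i, 0) := by
    funext i
    rw [jet, map_sum, Fin.sum_univ_succ]
    simp
  rw [h5]
  rfl

theorem mul_coeff (P Q : Polynomial ℂ) (l : ℕ) (h : ∀ i < l, Q.coeff i = 0) :
    (P * Q).coeff l = P.coeff 0 * Q.coeff l := by
  rw [Polynomial.coeff_mul, Finset.sum_eq_single (0, l)]
  · rintro ⟨a, b⟩ hab hne
    rw [Finset.HasAntidiagonal.mem_antidiagonal] at hab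
    have hb : b < l := by
      rcases Nat.eq_zero_or_pos a with h0 | h0
      · exfalso
        apply hne
        subst h0
        simp only [zero_add] at hab
        rw [← hab]
      · simp only at hab
        omega
    simp only
    rw [h b hb, mul_zero]
  · intro hn
    exact absurd (by rw [Finset.HasAntidiagonal.mem_antidiagonal]; simp) hn

theorem coeff_eq_zero (P Q : Polynomial ℂ) (K : ℕ) (h0 : P.coeff 0 ≠ 0)
    (h : ∀ l < K, (P * Q).coeff l = 0) : ∀ l < K, Q.coeff l = 0 := by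
  intro l
  induction l using Nat.strong_induction_on with
  | _ l ih =>
    intro hl
    have h1 := mul_coeff P Q l fun i hi => ih i hi (hi.trans hl)
    rw [h l hl] at h1
    rcases mul_eq_zero.1 h1.symm with h2 | h2
    · exact absurd h2 h0
    · exact h2

end poly

section con

variable {ι κ : Type} [Fintype ι] [DecidableEq ι] [Fintype κ] [DecidableEq κ]

theorem con_coeff (K : ℕ) (g : MvPolynomial ι ℂ) (l : ℕ) :
    Constructible {z : (ι × Fin (K + 1)) ⊕ Unit → ℂ |
      (aeval (jet fun q => z (Sum.inl q)) g : Polynomial ℂ).coeff l = 0} := by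
  have h := Constructible.zero (rename Sum.inl (cJ K g l) :
    MvPolynomial ((ι × Fin (K + 1)) ⊕ Unit) ℂ)
  have h1 : ∀ z : (ι × Fin (K + 1)) ⊕ Unit → ℂ, eval z (rename Sum.inl (cJ K g l) :
      MvPolynomial ((ι × Fin (K + 1)) ⊕ Unit) ℂ) =
      (aeval (jet fun q => z (Sum.inl q)) g : Polynomial ℂ).coeff l := by
    intro z
    rw [eval_rename, eval_cJ]
    rfl
  simpa only [h1] using h

theorem con_JtS (Y : ι → MvPolynomial ι ℂ) (f : MvPolynomial ι ℂ) (S : Set (ι → ℂ)) (d K : ℕ)
    (k : ι → ℕ) (hS : Constructible S) : Constructible (JtS Y f S d K k) := by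
  have h1 : Constructible (JS f S d K) :=
    Constructible.and (CLS1Aux.con_jetSet f d K) (Constructible.comap _ hS)
  have h2 : JtS Y f S d K k = {z | z ∈ JS f S d K ∧ ∀ i : ι, ∀ l : Fin (K + 1),
      (((l : ℕ) < k i → (aeval (jet fun q => z (Sum.inl q)) (Y i) : Polynomial ℂ).coeff l = 0) ∧
      ((l : ℕ) = k i → ¬ (aeval (jet fun q => z (Sum.inl q)) (Y i) : Polynomial ℂ).coeff l = 0))} :=
      by
    ext z
    simp only [JtS, Set.mem_ofPred_eq]
    refine and_congr_right fun _ => forall_congr' fun i => ?_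
    constructor
    · rintro ⟨h3, h4⟩ l
      refine ⟨fun hl => h3 l hl (by omega), fun hl => ?_⟩
      rw [hl]
      exact h4 (by omega)
    · intro h
      refine ⟨fun l hl hlK => (h ⟨l, by omega⟩).1 hl, fun hk => (h ⟨k i, by omega⟩).2 rfl⟩
  rw [h2]
  refine Constructible.and h1 ?_
  refine Constructible.all fun i => Constructible.all fun l => Constructible.and ?_ ?_
  · exact Constructible.imp (Constructible.const _) (con_coeff K (Y i) l)
  · exact Constructible.imp (Constructible.const _) (Constructible.not (con_coeff K (Y i) l))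

/-- the sum `∑_{v ∈ F} g_v(x) y^{w_v}` -/
noncomputable def smM (w : κ → ι → ℕ) (F : Finset κ) (g : κ → MvPolynomial ι ℂ)
    (z : ι ⊕ ι → ℂ) : ℂ :=
  ∑ v ∈ F, eval (fun i => z (Sum.inl i)) (g v) * ∏ i, z (Sum.inr i) ^ w v i

theorem con_smM (w : κ → ι → ℕ) (F : Finset κ) (g : κ → MvPolynomial ι ℂ) :
    Constructible {z : ι ⊕ ι → ℂ | smM w F g z = 0} := by
  have h := Constructible.zero (∑ v ∈ F, rename Sum.inl (g v) * ∏ i, X (Sum.inr i) ^ w v i :
    MvPolynomial (ι ⊕ ι) ℂ)
  simp only [map_sum, map_mul, map_prod, map_pow, eval_X, eval_rename] at h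
  exact h

theorem con_inl (g : MvPolynomial ι ℂ) :
    Constructible {z : ι ⊕ ι → ℂ | eval (fun i => z (Sum.inl i)) g = 0} := by
  have h := Constructible.zero (rename Sum.inl g : MvPolynomial (ι ⊕ ι) ℂ)
  simp only [eval_rename] at h
  exact h

theorem con_VS (Y : ι → MvPolynomial ι ℂ) (w : κ → ι → ℕ) (c : κ → MvPolynomial ι ℂ)
    (S : Set (ι → ℂ)) (A : Finset ι) (F : Finset κ) (hS : Constructible S) :
    Constructible (VS Y w c S A F) := by
  refine Constructible.and (Constructible.comap _ hS) (Constructible.and ?_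
    (Constructible.and ?_ (Constructible.and ?_ (con_smM w F c))))
  · refine Constructible.all fun i => ?_
    have h1 := con_inl (Y i)
    by_cases hi : i ∈ A
    · have h2 : {z : ι ⊕ ι → ℂ | eval (fun i => z (Sum.inl i)) (Y i) = 0 ↔ i ∈ A} =
          {z : ι ⊕ ι → ℂ | eval (fun i => z (Sum.inl i)) (Y i) = 0} := by
        ext z
        simp only [Set.mem_ofPred_eq, hi, iff_true]
      rw [h2]
      exact h1
    · have h2 : {z : ι ⊕ ι → ℂ | eval (fun i => z (Sum.inl i)) (Y i) = 0 ↔ i ∈ A} =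
          {z : ι ⊕ ι → ℂ | ¬ eval (fun i => z (Sum.inl i)) (Y i) = 0} := by
        ext z
        simp only [Set.mem_ofPred_eq, hi, iff_false]
      rw [h2]
      exact Constructible.not h1
  · refine Constructible.all fun i => ?_
    have h := Constructible.ne (X (Sum.inr i) : MvPolynomial (ι ⊕ ι) ℂ)
    simpa only [eval_X] using h
  · refine Constructible.all fun i => Constructible.imp (Constructible.const _) ?_
    have h := Constructible.zero (X (Sum.inr i) - rename Sum.inl (Y i) :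
      MvPolynomial (ι ⊕ ι) ℂ)
    simp only [map_sub, eval_X, eval_rename, sub_eq_zero] at h
    exact h

end con

section build

variable {ι κ : Type} [Fintype ι] [DecidableEq ι] [Fintype κ] [DecidableEq κ]

/-- the type of the source coordinates -/
abbrev Src (ι : Type) (K : ℕ) (k : ι → ℕ) : Type := ((ι × Fin (K + 1)) ⊕ Unit) ⊕ {i : ι // K < k i}

/-- the type of the target coordinates -/
abbrev Tgt (ι : Type) [DecidableEq ι] (K : ℕ) (k : ι → ℕ) (i₀ : ι) (n : ℕ) : Type :=
  ((ι ⊕ ι) ⊕ Unit) ⊕ CLS1Aux.Qt K k i₀ n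

/-- the coefficients of the `Y_i` as polynomials in the coordinates -/
noncomputable def pY (Y : ι → MvPolynomial ι ℂ) (K : ℕ) (k : ι → ℕ) (i : ι) (l : ℕ) :
    MvPolynomial (Src ι K k) ℂ := rename (fun q => Sum.inl (Sum.inl q)) (cJ K (Y i) l)

theorem eval_pY (Y : ι → MvPolynomial ι ℂ) (K : ℕ) (k : ι → ℕ) (i : ι) (l : ℕ)
    (x : Src ι K k → ℂ) : eval x (pY Y K k i l) =
      (aeval (jet fun q => x (Sum.inl (Sum.inl q))) (Y i) : Polynomial ℂ).coeff l := by
  rw [pY, eval_rename, eval_cJ]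
  rfl

/-- the leading coordinate -/
noncomputable def ld (Y : ι → MvPolynomial ι ℂ) (K : ℕ) (k : ι → ℕ) (i : ι) :
    MvPolynomial (Src ι K k) ℂ :=
  if h : K < k i then X (Sum.inr ⟨i, h⟩) else pY Y K k i (k i)

/-- the polynomials of the map -/
noncomputable def phM (Y : ι → MvPolynomial ι ℂ) (K : ℕ) (k : ι → ℕ) (i₀ : ι) (n : ℕ) :
    Tgt ι K k i₀ n → MvPolynomial (Src ι K k) ℂ :=
  Sum.elim (Sum.elim (Sum.elim (fun i => X (Sum.inl (Sum.inl (i, 0)))) (ld Y K k))
    fun _ => X (Sum.inl (Sum.inr ()))) fun q => pY Y K k q.1.1 q.1.2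

/-- the array of the coefficients of the `Y_i` -/
noncomputable def bz (K : ℕ) (k : ι → ℕ) (i₀ : ι) (n : ℕ) (y : Tgt ι K k i₀ n → ℂ)
    (s : Fin n → ℂ) (q : ι × Fin (K + 1)) : ℂ :=
  if (q.2 : ℕ) < k q.1 then 0
  else if (q.2 : ℕ) = k q.1 then y (Sum.inl (Sum.inl (Sum.inr q.1)))
  else if h : CLS1Aux.mm k i₀ n q.1 < (q.2 : ℕ) then y (Sum.inr ⟨q, h⟩)
  else if h : (q.2 : ℕ) - k q.1 - 1 < n then s ⟨(q.2 : ℕ) - k q.1 - 1, h⟩ else 0

/-- agreement of the arrays -/
theorem bz_agree (K : ℕ) (k : ι → ℕ) (i₀ : ι) (n : ℕ) (y : Tgt ι K k i₀ n → ℂ)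
    (j : Fin n) (s s' : Fin n → ℂ) (hs : ∀ i, i < j → s i = s' i) (i : ι) (l : Fin (K + 1))
    (h : i ≠ i₀ ∨ (l : ℕ) < k i₀ + ((j : ℕ) + 1)) :
    bz K k i₀ n y s (i, l) = bz K k i₀ n y s' (i, l) := by
  simp only [bz]
  split_ifs with h1 h2 h3 h4
  · rfl
  · rfl
  · rfl
  · rw [CLS1Aux.mm] at h3
    split_ifs at h3 with h5
    · subst h5
      rcases h with h | h
      · exact absurd rfl h
      · exact hs _ (by rw [Fin.lt_def]; simp only; omega)
    · omega
  · rfl

/-- the last coordinate -/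
theorem bz_last (K : ℕ) (k : ι → ℕ) (i₀ : ι) (n : ℕ) (y : Tgt ι K k i₀ n → ℂ)
    (j : Fin n) (s : Fin n → ℂ) (l : Fin (K + 1)) (hl : (l : ℕ) = k i₀ + ((j : ℕ) + 1)) :
    bz K k i₀ n y s (i₀, l) = s j := by
  have hj := j.2
  simp only [bz, CLS1Aux.mm]
  rw [if_neg (by omega), if_neg (by omega), dif_neg (by simp only [if_true]; omega),
    dif_pos (by omega)]
  congr 1
  apply Fin.ext
  simp only
  omega

end build

end CLS1MAux

open CLS1MAux

/-- CLS1M -/
theorem stmt_CLS1M (hJBJ : Stmt_JBJ) (hXPDM : Stmt_XPDM) (hTRIS : NP.Stmt_TRIS) :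
    Stmt_CLS1M := by
  classical
  intro ι κ _ _ _ _ _ f S Y s₀ w c R _ μ d K k hS hT hd hmK
  set F := fc w k with hF
  set B := {i : ι // K < k i} with hB
  set SS : Set (Src ι K k → ℂ) :=
    {x | (fun p => x (Sum.inl p)) ∈ JtS Y f S d K k ∧ (fun b => x (Sum.inr b)) ∈
      {t : B → ℂ | ∀ b, t b ≠ 0}} with hSS
  have hSSc : Constructible SS :=
    Constructible.prodSet (con_JtS Y f S d K k hS) (CLS1Aux.con_torus B)
  have hSSv : μ.val SS = μ.val (JtS Y f S d K k) *
      (μ.L - 1) ^ (Finset.univ.filter fun i => K < k i).card := by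
    rw [hSS, μ.prod _ _ (con_JtS Y f S d K k hS) (CLS1Aux.con_torus B), CLS1Aux.val_torus]
    congr 2
    exact Fintype.card_subtype _
  rw [← hSSv]
  -- basic facts on the points of `SS`
  have hmsp : ∀ i, i ∈ sp k ↔ k i ≠ 0 := fun i => by
    rw [sp, Finset.mem_filter]
    simp
  have hlead : ∀ x ∈ SS, ∀ (i : ι), eval x (ld Y K k i) ≠ 0 := by
    intro x hx i
    rw [ld]
    split_ifs with h
    · rw [eval_X]
      exact hx.2 ⟨i, h⟩
    · rw [eval_pY]
      exact (hx.1.2 i).2 (by omega)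
  have hleadz : ∀ x : Src ι K k → ℂ, ∀ (i : ι), k i ≤ K → eval x (ld Y K k i) =
      (aeval (jet fun q => x (Sum.inl (Sum.inl q))) (Y i) : Polynomial ℂ).coeff (k i) := by
    intro x i hl
    rw [ld, dif_neg (by omega), eval_pY]
  set pt : (Src ι K k → ℂ) → ι ⊕ ι → ℂ := fun x =>
    Sum.elim (fun i => x (Sum.inl (Sum.inl (i, 0)))) fun i => eval x (ld Y K k i) with hpt
  have hVS : ∀ x ∈ SS, pt x ∈ VS Y w c S (sp k) F := by
    intro x hx
    have hx0 : ∀ i, k i ≠ 0 → eval (fun i => x (Sum.inl (Sum.inl (i, 0)))) (Y i) = 0 := by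
      intro i hi
      rw [← coeff_zero K (Y i) fun q => x (Sum.inl (Sum.inl q))]
      exact (hx.1.2 i).1 0 (by omega) (by omega)
    have hx1 : ∀ i, k i = 0 → eval (fun i => x (Sum.inl (Sum.inl (i, 0)))) (Y i) ≠ 0 := by
      intro i hi
      rw [← coeff_zero K (Y i) fun q => x (Sum.inl (Sum.inl q))]
      have := (hx.1.2 i).2 (by omega)
      rw [hi] at this
      exact this
    refine ⟨hx.1.1.2, fun i => ?_, hlead x hx, fun i hi => ?_, ?_⟩
    · rw [hmsp]
      constructor
      · intro h h0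
        exact hx1 i h0 h
      · exact hx0 i
    · rw [hmsp, not_not] at hi
      change eval x (ld Y K k i) = _
      rw [hleadz x i (by omega), hi]
      exact coeff_zero K (Y i) fun q => x (Sum.inl (Sum.inl q))
    · obtain ⟨_, h2⟩ := hXPDM ι κ Y w c K k (fun p => x (Sum.inl (Sum.inl p)))
        fun i l hl hlK => (hx.1.2 i).1 l hl hlK
      obtain ⟨h3, _⟩ := h2 (fun i => eval x (ld Y K k i)) (fun i hi => hleadz x i hi)
      have h4 := h3 (le_of_lt hmK)
      have h5 : (aeval (jet fun p => x (Sum.inl (Sum.inl p))) (gg Y w c) : Polynomial ℂ).coeff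
          (mnk w k) = 0 := by
        rw [← hT.eq, map_mul, mul_coeff]
        · rw [hx.1.1.1.1 (mnk w k) hmK, mul_zero]
        · intro i hi
          exact hx.1.1.1.1 i (hi.trans hmK)
      rw [h5] at h4
      exact h4.symm
  -- the strata
  set LG : ι → (ι ⊕ ι → ℂ) → ℂ := fun i => smM w F (lg Y w c i) with hLG
  have hLGc : ∀ i, Constructible {z : ι ⊕ ι → ℂ | LG i z = 0} := fun i => con_smM w F _
  set e := Fintype.equivFin ι with he
  set V : ι → Set (ι ⊕ ι → ℂ) := fun i => {x | x ∈ VS Y w c S (sp k) F ∧ LG i x ≠ 0 ∧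
    ∀ i', e i' < e i → LG i' x = 0} with hV
  have hVc : ∀ i, Constructible (V i) := fun i =>
    Constructible.and (con_VS Y w c S _ F hS) (Constructible.and (Constructible.not (hLGc i))
      (Constructible.all fun i' => Constructible.imp (Constructible.const _) (hLGc i')))
  have hVd : ∀ i ∈ (Finset.univ : Finset ι), ∀ j ∈ (Finset.univ : Finset ι), i ≠ j →
      Disjoint (V i) (V j) := by
    intro i _ j _ hij
    rw [Set.disjoint_left]
    rintro x ⟨_, h1, h2⟩ ⟨_, h3, h4⟩
    rcases lt_trichotomy (e i) (e j) with h | h | h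
    · exact h1 (h4 i h)
    · exact hij (e.injective h)
    · exact h3 (h2 j h)
  have hVu : VS Y w c S (sp k) F = ⋃ i ∈ (Finset.univ : Finset ι), V i := by
    ext x
    simp only [Finset.mem_univ, Set.iUnion_true, Set.mem_iUnion]
    constructor
    · intro hx
      obtain ⟨hxS, hxZ, hx0, hxy, hxs⟩ := hx
      have h1 := hT.nd _ hxS k (fun i => (hxZ i).trans (hmsp i)) (fun i => x (Sum.inr i)) hx0
        (fun i hi => hxy i (by rw [hmsp]; exact not_not.2 hi)) hxs
      have h2 : ((Finset.univ.filter fun i => LG i x ≠ 0).image e).Nonempty := by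
        obtain ⟨i, hi⟩ := h1
        exact ⟨e i, Finset.mem_image_of_mem _ (Finset.mem_filter.2 ⟨Finset.mem_univ _, hi⟩)⟩
      have h3 := Finset.min'_mem _ h2
      obtain ⟨i, hi, hie⟩ := Finset.mem_image.1 h3
      refine ⟨i, ⟨hxS, hxZ, hx0, hxy, hxs⟩, (Finset.mem_filter.1 hi).2, fun i' hi' => ?_⟩
      by_contra hc
      have h5 : i' ∈ Finset.univ.filter fun i => LG i x ≠ 0 :=
        Finset.mem_filter.2 ⟨Finset.mem_univ i', hc⟩
      have h4 := Finset.min'_le _ (e i') (Finset.mem_image_of_mem e h5)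
      rw [← hie] at h4
      exact absurd hi' (not_lt.2 h4)
    · rintro ⟨i, hi⟩
      exact hi.1
  set SV : ι → Set (Src ι K k → ℂ) := fun i => {x | x ∈ SS ∧ pt x ∈ V i} with hSV
  have hSVc : ∀ i, Constructible (SV i) := fun i => by
    refine Constructible.and hSSc ?_
    have h1 := stmt_YC (Src ι K k) (ι ⊕ ι)
      (Sum.elim (fun i => X (Sum.inl (Sum.inl (i, 0)))) (ld Y K k)) (V i) (hVc i)
    have h2 : ∀ x : Src ι K k → ℂ, (fun j => eval x ((Sum.elim (fun i =>
        X (Sum.inl (Sum.inl (i, 0)))) (ld Y K k) : ι ⊕ ι → MvPolynomial (Src ι K k) ℂ) j)) =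
        pt x := by
      intro x
      funext j
      rcases j with j | j
      · simp [hpt]
      · rfl
    simpa only [h2] using h1
  have hSu : SS = ⋃ i ∈ (Finset.univ : Finset ι), SV i := by
    ext x
    simp only [Finset.mem_univ, Set.iUnion_true, Set.mem_iUnion]
    constructor
    · intro hx
      have h1 := hVS x hx
      rw [hVu] at h1
      simp only [Finset.mem_univ, Set.iUnion_true, Set.mem_iUnion] at h1
      obtain ⟨i, hi⟩ := h1
      exact ⟨i, hx, hi⟩
    · rintro ⟨i, hi⟩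
      exact hi.1
  have hSd : ∀ i ∈ (Finset.univ : Finset ι), ∀ j ∈ (Finset.univ : Finset ι), i ≠ j →
      Disjoint (SV i) (SV j) := by
    intro i hi j hj hij
    rw [Set.disjoint_left]
    rintro x ⟨_, h1⟩ ⟨_, h2⟩
    exact (Set.disjoint_left.1 (hVd i hi j hj hij)) h1 h2
  rw [hSu, μ.val_biUnion _ _ (fun i _ => hSVc i) hSd, hVu, μ.val_biUnion _ _ (fun i _ => hVc i) hVd,
    Finset.sum_mul, Finset.sum_mul, Finset.sum_mul]
  refine Finset.sum_congr rfl fun i₀ _ => ?_
  -- one stratum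
  by_cases hex : (V i₀).Nonempty
  swap
  · rw [Set.not_nonempty_iff_eq_empty] at hex
    have h1 : SV i₀ = ∅ := by
      rw [Set.eq_empty_iff_forall_notMem]
      rintro x ⟨_, h1⟩
      rw [hex] at h1
      exact h1
    rw [hex, h1, μ.val_empty, μ.val_empty]
    ring
  have hk0 : k i₀ ≤ mnk w k := by
    rcases Nat.eq_zero_or_pos (k i₀) with h0 | h0
    · omega
    obtain ⟨x, hx, hx1, _⟩ := hex
    have h2 : ∃ v ∈ F, w v i₀ ≠ 0 := by
      by_contra hc
      push Not at hc
      apply hx1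
      simp only [hLG, smM]
      apply Finset.sum_eq_zero
      intro v hv
      have h3 : eval (fun i => x (Sum.inl i)) (Y i₀) = 0 :=
        (hx.2.1 i₀).2 ((hmsp i₀).2 (by omega))
      rw [lg, hc v hv]
      simp only [map_add, map_mul, h3, Nat.cast_zero, map_zero, mul_zero, zero_mul, add_zero]
    obtain ⟨v, hv, hvi⟩ := h2
    rw [hF, fc, Finset.mem_filter] at hv
    have h1 : kw w k v ≤ mnk w k := le_ciInf hv.2
    calc k i₀ ≤ k i₀ * w v i₀ := Nat.le_mul_of_pos_right _ (Nat.pos_of_ne_zero hvi)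
      _ ≤ kw w k v := Finset.single_le_sum (f := fun i => k i * w v i) (fun _ _ => Nat.zero_le _)
          (Finset.mem_univ i₀)
      _ ≤ mnk w k := h1
  set n := K - mnk w k with hn
  have hn1 : 1 ≤ n := by omega
  have hcard : (∑ i, (K - k i)) = Fintype.card (CLS1Aux.Qt K k i₀ n) + n := by
    rw [CLS1Aux.card_slots, ← Finset.add_sum_erase _ _ (Finset.mem_univ i₀),
      ← Finset.add_sum_erase _ (fun i => K - CLS1Aux.mm k i₀ n i) (Finset.mem_univ i₀)]
    have h1 : ∑ i ∈ Finset.univ.erase i₀, (K - CLS1Aux.mm k i₀ n i) =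
        ∑ i ∈ Finset.univ.erase i₀, (K - k i) := by
      refine Finset.sum_congr rfl fun i hi => ?_
      rw [CLS1Aux.mm, if_neg (Finset.ne_of_mem_erase hi)]
    rw [h1, CLS1Aux.mm, if_pos rfl]
    omega
  -- the target
  set TT : Set (Tgt ι K k i₀ n → ℂ) := {y | (fun p => y (Sum.inl p)) ∈
    {q : (ι ⊕ ι) ⊕ Unit → ℂ | (fun i => q (Sum.inl i)) ∈ V i₀ ∧ (fun u => q (Sum.inr u)) ∈
      {u : Unit → ℂ | u () ≠ 0}}} with hTT
  have hT1c := Constructible.prodSet (hVc i₀) CLS1Aux.con_ne0
  have hTTc : Constructible TT := Constructible.comap Sum.inl hT1c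
  have hTTv : μ.val TT = μ.val (V i₀) * (μ.L - 1) *
      μ.L ^ Fintype.card (CLS1Aux.Qt K k i₀ n) := by
    rw [hTT, μ.val_prod_univ hT1c, μ.prod _ _ (hVc i₀) CLS1Aux.con_ne0, CLS1Aux.val_ne0]
  -- the map
  set Φ : (Src ι K k → ℂ) → Tgt ι K k i₀ n → ℂ := fun x j => eval x (phM Y K k i₀ n j) with hΦ
  have hmaps : ∀ x ∈ SV i₀, Φ x ∈ TT := by
    intro x hx
    have h0 : (fun i => Φ x (Sum.inl (Sum.inl i))) = pt x := by
      funext i
      rcases i with i | i
      · simp [hΦ, phM, hpt]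
      · rfl
    refine ⟨?_, ?_⟩
    · change (fun i => Φ x (Sum.inl (Sum.inl i))) ∈ V i₀
      rw [h0]
      exact hx.2
    · change eval x (X (Sum.inl (Sum.inr ())) : MvPolynomial (Src ι K k) ℂ) ≠ 0
      rw [eval_X]
      intro h0
      have h1 := hx.1.1.1.1.2.1
      have h2 := hx.1.1.1.1.2.2
      apply h1
      rw [← h2]
      have h3 : x (Sum.inl (Sum.inr ())) ^ d = 0 := by
        rw [h0, zero_pow (by omega)]
      exact h3
  -- the bijection
  have hkey : ∀ y ∈ TT, ∃! x : Src ι K k → ℂ, x ∈ SV i₀ ∧ Φ x = y := by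
    intro y hy
    obtain ⟨hyV, hy0⟩ := hy
    have hy0' : y (Sum.inl (Sum.inr ())) ≠ 0 := hy0
    set x₀ : ι → ℂ := fun i => y (Sum.inl (Sum.inl (Sum.inl i))) with hx₀
    set t : ι → ℂ := fun i => y (Sum.inl (Sum.inl (Sum.inr i))) with ht
    have hyV' : (fun i => y (Sum.inl (Sum.inl i))) ∈ V i₀ := hyV
    obtain ⟨⟨hxS, hxZ, ht0, htY, hsum⟩, hLG0, hLGlt⟩ := hyV'
    have hxS' : x₀ ∈ S := hxS
    have hdet := hT.det x₀ hxS'
    have hs0 := hT.s0 x₀ hxS'
    have hYz : ∀ i, k i ≠ 0 → eval x₀ (Y i) = 0 := fun i hi => (hxZ i).2 ((hmsp i).2 hi)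
    have hYn : ∀ i, k i = 0 → t i = eval x₀ (Y i) := fun i hi =>
      htY i (by rw [hmsp]; exact not_not.2 hi)
    -- the jets
    have hbz0 : ∀ (s : Fin n → ℂ) (i : ι), bz K k i₀ n y s (i, 0) = eval x₀ (Y i) := by
      intro s i
      simp only [bz]
      by_cases h0 : k i = 0
      · rw [if_neg (by simp [h0]), if_pos (by simp [h0])]
        exact hYn i h0
      · rw [if_pos (by simp; omega), hYz i h0]
    have hJ := fun s : Fin n → ℂ => hJBJ ι Y K x₀ hdet (bz K k i₀ n y s) (hbz0 s)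
    choose zz hzz huz using hJ
    have hzz0 : ∀ s i, zz s (i, 0) = x₀ i := fun s i => (hzz s).1 i
    have hzzc : ∀ s (i : ι) (l : Fin (K + 1)),
        (aeval (jet (zz s)) (Y i) : Polynomial ℂ).coeff l = bz K k i₀ n y s (i, l) :=
      fun s => (hzz s).2
    have hzzc' : ∀ s (i : ι) (l : ℕ) (hl : l ≤ K),
        (aeval (jet (zz s)) (Y i) : Polynomial ℂ).coeff l =
          bz K k i₀ n y s (i, ⟨l, by omega⟩) := fun s i l hl => hzzc s i ⟨l, by omega⟩
    have hfun0 : ∀ s, (fun i => zz s (i, 0)) = x₀ := fun s => funext (hzz0 s)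
    have hz0 : ∀ s, ∀ (i : ι), ∀ l < k i, l ≤ K →
        (aeval (jet (zz s)) (Y i) : Polynomial ℂ).coeff l = 0 := by
      intro s i l hl hlK
      rw [hzzc' s i l hlK]
      simp only [bz]
      rw [if_pos hl]
    have hz1 : ∀ s, ∀ (i : ι), k i ≤ K →
        t i = (aeval (jet (zz s)) (Y i) : Polynomial ℂ).coeff (k i) := by
      intro s i hl
      rw [hzzc' s i _ hl]
      simp only [bz]
      rw [if_neg (by omega)]
      simp [ht]
    set G : (Fin n → ℂ) → Fin n → ℂ := fun s j =>
      (aeval (jet (zz s)) (gg Y w c) : Polynomial ℂ).coeff (mnk w k + ((j : ℕ) + 1)) with hG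
    have hdt : eval x₀ (jm Y).det * t i₀ ≠ 0 := mul_ne_zero hdet (ht0 i₀)
    have hc : LG i₀ (fun i => y (Sum.inl (Sum.inl i))) / (eval x₀ (jm Y).det * t i₀) ≠ 0 :=
      div_ne_zero hLG0 hdt
    have hGtri : ∀ (j : Fin n) (s s' : Fin n → ℂ), (∀ i, i < j → s i = s' i) →
        G s j - G s' j = LG i₀ (fun i => y (Sum.inl (Sum.inl i))) /
          (eval x₀ (jm Y).det * t i₀) * (s j - s' j) := by
      intro j s s' hss
      have hj := j.2
      obtain ⟨_, h3⟩ := hXPDM ι κ Y w c K k (zz s') (hz0 s')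
      obtain ⟨_, h4⟩ := h3 t (hz1 s')
      have h5 := h4 ((j : ℕ) + 1) i₀ (zz s) (by omega) (by omega) (by omega)
        (by rw [hfun0]; exact hdet) (fun i => by rw [hzz0, hzz0])
        (fun i l hlK hil => by
          rw [hzzc' s i l hlK, hzzc' s' i l hlK]
          exact bz_agree K k i₀ n y j s s' hss i ⟨l, by omega⟩ hil)
      rw [hfun0, hzzc' s i₀ (k i₀ + ((j : ℕ) + 1)) (by omega),
        hzzc' s' i₀ (k i₀ + ((j : ℕ) + 1)) (by omega),
        bz_last K k i₀ n y j s ⟨_, _⟩ rfl, bz_last K k i₀ n y j s' ⟨_, _⟩ rfl] at h5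
      have h6 : eval x₀ (jm Y).det * t i₀ * (G s j - G s' j) =
        (s j - s' j) * LG i₀ (fun i => y (Sum.inl (Sum.inl i))) := h5
      rw [div_mul_eq_mul_div, eq_div_iff hdt]
      linear_combination h6
    set tg : Fin n → ℂ := fun j : Fin n =>
      if (j : ℕ) + 1 = n then eval x₀ s₀ * y (Sum.inl (Sum.inr ())) ^ d else 0 with htg
    -- the condition on the jet
    have hsc : ∀ z : ι × Fin (K + 1) → ℂ, (aeval (jet z) s₀ : Polynomial ℂ).coeff 0 =
        eval (fun i => z (i, 0)) s₀ := fun z => coeff_zero K s₀ z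
    have hfwd : ∀ (s : Fin n → ℂ) (x : Src ι K k → ℂ), x ∈ SV i₀ →
        (fun q => x (Sum.inl (Sum.inl q))) = zz s → x (Sum.inl (Sum.inr ())) =
          y (Sum.inl (Sum.inr ())) → G s = tg := by
      intro s x hx hxz hxω
      have hjs := hx.1.1.1.1
      obtain ⟨hj0, hj1, hj2⟩ := hjs
      change ∀ l < K, (aeval (jet fun q => x (Sum.inl (Sum.inl q))) f : Polynomial ℂ).coeff l = 0
        at hj0
      change x (Sum.inl (Sum.inr ())) ^ d =
        (aeval (jet fun q => x (Sum.inl (Sum.inl q))) f : Polynomial ℂ).coeff K at hj2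
      rw [hxz] at hj0 hj2
      funext j
      have hj := j.2
      simp only [hG, htg]
      rw [← hT.eq, map_mul]
      split_ifs with hjn
      · have h6 : mnk w k + ((j : ℕ) + 1) = K := by omega
        rw [h6, mul_coeff _ _ K hj0, hsc, hfun0, ← hj2, hxω]
      · rw [mul_coeff _ _ _ fun i hi => hj0 i (by omega), hj0 _ (by omega), mul_zero]
    have hbwd : ∀ (s : Fin n → ℂ) (x : Src ι K k → ℂ), G s = tg →
        (fun q => x (Sum.inl (Sum.inl q))) = zz s → x (Sum.inl (Sum.inr ())) =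
          y (Sum.inl (Sum.inr ())) → (∀ b : B, x (Sum.inr b) = t b.1) → x ∈ SV i₀ ∧ Φ x = y := by
      intro s x hGs hxz hxω hxb
      obtain ⟨h1, h2⟩ := hXPDM ι κ Y w c K k (zz s) (hz0 s)
      obtain ⟨h2', _⟩ := h2 t (hz1 s)
      have h3 := h2' (le_of_lt hmK)
      rw [hfun0] at h3
      have h3' : (aeval (jet (zz s)) (gg Y w c) : Polynomial ℂ).coeff (mnk w k) = 0 :=
        h3.trans hsum
      have hgl : ∀ l < K, (aeval (jet (zz s)) s₀ * aeval (jet (zz s)) f : Polynomial ℂ).coeff l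
          = 0 := by
        intro l hl
        rw [← map_mul, hT.eq]
        rcases lt_trichotomy l (mnk w k) with h | h | h
        · exact h1 l h hl.le
        · rw [h]
          exact h3'
        · have h5 := congrFun hGs (⟨l - mnk w k - 1, by omega⟩ : Fin n)
          simp only [htg] at h5
          rw [if_neg (by omega)] at h5
          rw [← h5, hG]
          simp only
          congr 1
          omega
      have hs0' : (aeval (jet (zz s)) s₀ : Polynomial ℂ).coeff 0 ≠ 0 := by
        rw [hsc, hfun0]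
        exact hs0
      have hfl := coeff_eq_zero _ _ K hs0' hgl
      have hfK : (aeval (jet (zz s)) f : Polynomial ℂ).coeff K =
          y (Sum.inl (Sum.inr ())) ^ d := by
        have h5 := congrFun hGs (⟨n - 1, by omega⟩ : Fin n)
        simp only [htg] at h5
        rw [if_pos (by omega)] at h5
        have h6 : G s (⟨n - 1, by omega⟩ : Fin n) =
            (aeval (jet (zz s)) s₀ * aeval (jet (zz s)) f : Polynomial ℂ).coeff K := by
          rw [hG, ← map_mul, hT.eq]
          simp only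
          congr 1
          omega
        rw [h6, mul_coeff _ _ K hfl, hsc, hfun0] at h5
        exact mul_left_cancel₀ hs0 h5
      have hld : ∀ i, eval x (ld Y K k i) = t i := by
        intro i
        by_cases h : K < k i
        · rw [ld, dif_pos h, eval_X]
          exact hxb ⟨i, h⟩
        · rw [hleadz x i (by omega), hxz, ← hz1 s i (by omega)]
      have hx0 : ∀ i, x (Sum.inl (Sum.inl (i, 0))) = x₀ i := by
        intro i
        have := congrFun hxz (i, 0)
        rw [this, hzz0]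
      have hptx : pt x = fun i => y (Sum.inl (Sum.inl i)) := by
        funext i
        rcases i with i | i
        · exact hx0 i
        · exact hld i
      have hΦx : Φ x = y := by
        funext j
        rcases j with ((i | i) | u) | q
        · change eval x (X (Sum.inl (Sum.inl (i, 0))) : MvPolynomial (Src ι K k) ℂ) = _
          rw [eval_X]
          exact hx0 i
        · exact hld i
        · change eval x (X (Sum.inl (Sum.inr ())) : MvPolynomial (Src ι K k) ℂ) = _
          rw [eval_X]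
          exact hxω
        · change eval x (pY Y K k q.1.1 q.1.2) = _
          have h1 := q.2
          have h2 : k q.1.1 < (q.1.2 : ℕ) := by
            refine lt_of_le_of_lt ?_ h1
            rw [CLS1Aux.mm]
            split_ifs <;> omega
          rw [eval_pY, hxz, hzzc s q.1.1 q.1.2]
          simp only [bz]
          rw [if_neg (by omega), if_neg (by omega), dif_pos h1]
      refine ⟨⟨⟨⟨⟨⟨?_, ?_, ?_⟩, ?_⟩, fun i => ⟨fun l hl hlK => ?_, fun hl => ?_⟩⟩, ?_⟩, ?_⟩, hΦx⟩
      · change ∀ l < K, (aeval (jet fun q => x (Sum.inl (Sum.inl q))) f : Polynomial ℂ).coeff l = 0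
        rw [hxz]
        exact hfl
      · change (aeval (jet fun q => x (Sum.inl (Sum.inl q))) f : Polynomial ℂ).coeff K ≠ 0
        rw [hxz, hfK]
        exact pow_ne_zero _ hy0'
      · change x (Sum.inl (Sum.inr ())) ^ d =
          (aeval (jet fun q => x (Sum.inl (Sum.inl q))) f : Polynomial ℂ).coeff K
        rw [hxz, hfK, hxω]
      · change (fun i => x (Sum.inl (Sum.inl (i, 0)))) ∈ S
        have : (fun i => x (Sum.inl (Sum.inl (i, 0)))) = x₀ := funext hx0
        rw [this]
        exact hxS'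
      · change (aeval (jet fun q => x (Sum.inl (Sum.inl q))) (Y i) : Polynomial ℂ).coeff l = 0
        rw [hxz]
        exact hz0 s i l hl hlK
      · change (aeval (jet fun q => x (Sum.inl (Sum.inl q))) (Y i) : Polynomial ℂ).coeff (k i) ≠ 0
        rw [hxz, ← hz1 s i hl]
        exact ht0 i
      · intro b
        change x (Sum.inr b) ≠ 0
        rw [hxb b]
        exact ht0 b.1
      · rw [hptx]
        exact hyV
    obtain ⟨s, hs, hus⟩ := hTRIS n G _ hc hGtri tg
    refine ⟨Sum.elim (Sum.elim (zz s) fun _ => y (Sum.inl (Sum.inr ()))) fun b => t b.1,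
      hbwd s _ hs rfl rfl fun b => rfl, ?_⟩
    rintro x ⟨hx, hΦx⟩
    have hxω : x (Sum.inl (Sum.inr ())) = y (Sum.inl (Sum.inr ())) := by
      rw [← hΦx]
      change _ = eval x (X (Sum.inl (Sum.inr ())) : MvPolynomial (Src ι K k) ℂ)
      rw [eval_X]
    have hx0 : ∀ i, x (Sum.inl (Sum.inl (i, 0))) = x₀ i := by
      intro i
      rw [hx₀, ← hΦx]
      change _ = eval x (X (Sum.inl (Sum.inl (i, 0))) : MvPolynomial (Src ι K k) ℂ)
      rw [eval_X]
    have hld : ∀ i, eval x (ld Y K k i) = t i := by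
      intro i
      rw [ht, ← hΦx]
      rfl
    set s' : Fin n → ℂ := fun j =>
      (aeval (jet fun q => x (Sum.inl (Sum.inl q))) (Y i₀) : Polynomial ℂ).coeff
        (k i₀ + 1 + (j : ℕ)) with hs'
    have hxz : (fun q => x (Sum.inl (Sum.inl q))) = zz s' := by
      refine huz s' _ ⟨hx0, fun i l => ?_⟩
      simp only [bz]
      split_ifs with h1 h2 h3 h4
      · exact (hx.1.1.2 i).1 l h1 (by omega)
      · rw [h2, ← hleadz x i (by omega)]
        exact hld i
      · rw [← hΦx]
        exact (eval_pY Y K k i l x).symm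
      · rw [CLS1Aux.mm] at h3
        split_ifs at h3 with h5
        · subst h5
          simp only [hs']
          congr 1
          omega
        · omega
      · rw [CLS1Aux.mm] at h3
        split_ifs at h3 with h5
        · subst h5
          omega
        · omega
    have h7 : s' = s := hus s' (hfwd s' x hx hxz hxω)
    rw [h7] at hxz
    funext p
    rcases p with (q | u) | b
    · exact congrFun hxz q
    · exact hxω
    · have h1 := hld b.1
      rw [ld, dif_pos b.2, eval_X] at h1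
      exact h1
  have hbij : Set.BijOn Φ (SV i₀) TT := by
    refine ⟨hmaps, ?_, ?_⟩
    · intro x hx x' hx' hxx'
      obtain ⟨x₁, _, hu⟩ := hkey _ (hmaps x hx)
      rw [hu x ⟨hx, rfl⟩, hu x' ⟨hx', hxx'.symm⟩]
    · intro y hy
      obtain ⟨x, ⟨hx, hxy⟩, _⟩ := hkey y hy
      exact ⟨x, hx, hxy⟩
  rw [μ.map _ _ _ (hSVc i₀) hTTc hbij, hTTv, hcard, pow_add]
  ring

end Pool.Agent.Mono.MG
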