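import Pool.Agent.Work.Monodromy.InterfaceM

/-!
# Phase M, block CLS2M (helper84): jets of too large order
-/

set_option autoImplicit false
set_option linter.unusedSectionVars false

namespace Pool.Agent.Mono.MG

open MvPolynomial NP

namespace CLS2MAux

theorem coeff_zero_aeval {ι : Type} [Fintype ι] [DecidableEq ι] {K : ℕ}
    (z : ι × Fin (K + 1) → ℂ) (g : MvPolynomial ι ℂ) :
    (aeval (jet z) g : Polynomial ℂ).coeff 0 = eval (fun i => z (i, 0)) g := by
  rw [Polynomial.coeff_zero_eq_eval_zero]
  induction g using MvPolynomial.induction_on with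
  | C a => rw [aeval_C, eval_C]; simp
  | add p q hp hq => rw [map_add, map_add, Polynomial.eval_add, hp, hq]
  | mul_X p i hp =>
    rw [map_mul, map_mul, Polynomial.eval_mul, hp, aeval_X, eval_X]
    congr 1
    simp only [jet, Polynomial.eval_finsetSum, Polynomial.eval_mul, Polynomial.eval_C,
      Polynomial.eval_pow, Polynomial.eval_X]
    rw [Finset.sum_eq_single (0 : Fin (K + 1))]
    · simp
    · intro l _ hl
      have : (l : ℕ) ≠ 0 := fun h => hl (Fin.ext h)
      rw [zero_pow this, mul_zero]
    · intro h
      exact absurd (Finset.mem_univ _) h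

end CLS2MAux

open CLS2MAux in
/-- jets of too large order -/
theorem stmt_CLS2M (hXPDM : Stmt_XPDM) : Stmt_CLS2M := by
  intro ι κ _ _ _ _ _ f S Y s w c d K k hT hK
  rw [Set.eq_empty_iff_forall_notMem]
  rintro z ⟨⟨⟨h1, h2, _⟩, hS⟩, h3⟩
  have hg := (hXPDM ι κ Y w c K k (fun q => z (Sum.inl q)) fun i l hl hlK =>
    (h3 i).1 l hl hlK).1 K hK le_rfl
  rw [← hT.eq, map_mul, Polynomial.coeff_mul, Finset.sum_eq_single (0, K)] at hg
  · rw [coeff_zero_aeval] at hg
    rcases mul_eq_zero.1 hg with h | h
    · exact hT.s0 _ hS h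
    · exact h2 h
  · rintro ⟨a, b⟩ hab hne
    rw [Finset.HasAntidiagonal.mem_antidiagonal] at hab
    change a + b = K at hab
    change _ * Polynomial.coeff _ b = 0
    rw [h1 b (by
      rcases Nat.lt_or_ge b K with h | h
      · exact h
      · exfalso
        apply hne
        have ha : a = 0 := by omega
        have hb : b = K := by omega
        rw [ha, hb]), mul_zero]
  · intro h
    exact absurd (by simp) h

end Pool.Agent.Mono.MG
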