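import Pool.Agent.Work.Monodromy.InterfaceM

/-!
# Block CMPM: comparison of the zeta functions of a set and of one of its points
-/

set_option autoImplicit false
set_option linter.unusedSectionVars false

namespace Pool.Agent.Mono.MG

open MvPolynomial Filter Topology NP

namespace CMPMAux

theorem con_empty {ι : Type} : Constructible (∅ : Set (ι → ℂ)) := by
  have h := Constructible.zero (ι := ι) (1 : MvPolynomial ι ℂ)
  have h2 : {x : ι → ℂ | eval x (1 : MvPolynomial ι ℂ) = 0} = ∅ := by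
    ext x
    simp
  rwa [h2] at h

theorem val_empty (E : HodgeMeasure) {ι : Type} [Finite ι] :
    E.val (∅ : Set (ι → ℂ)) = 0 := by
  have h := E.union (∅ : Set (ι → ℂ)) ∅ con_empty con_empty (Set.disjoint_empty _)
  rw [Set.union_empty] at h
  have h2 : E.val (∅ : Set (ι → ℂ)) + 0 = E.val (∅ : Set (ι → ℂ)) + E.val (∅ : Set (ι → ℂ)) := by
    rw [add_zero]
    exact h
  exact (add_left_cancel h2).symm

theorem con_inter_finset {ι α : Type} (t : Finset α) (s : α → Set (ι → ℂ))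
    (h : ∀ a ∈ t, Constructible (s a)) : Constructible {x | ∀ a ∈ t, x ∈ s a} := by
  classical
  induction t using Finset.induction_on with
  | empty =>
    have h2 : {x : ι → ℂ | ∀ a ∈ (∅ : Finset α), x ∈ s a} = (∅ : Set (ι → ℂ))ᶜ := by
      ext x
      simp
    rw [h2]
    exact con_empty.compl
  | insert a t ha ih =>
    have h2 : {x : ι → ℂ | ∀ b ∈ insert a t, x ∈ s b} = s a ∩ {x | ∀ b ∈ t, x ∈ s b} := by
      ext x
      simp
    rw [h2]
    exact (h a (Finset.mem_insert_self a t)).inter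
      (ih fun b hb => h b (Finset.mem_insert_of_mem hb))

theorem con_singleton {ι : Type} [Fintype ι] (x₀ : ι → ℂ) :
    Constructible ({x₀} : Set (ι → ℂ)) := by
  have h := con_inter_finset (Finset.univ : Finset ι)
    (fun i => {x : ι → ℂ | eval x (X i - C (x₀ i) : MvPolynomial ι ℂ) = 0})
    (fun i _ => Constructible.zero _)
  have h2 : {x : ι → ℂ | ∀ i ∈ (Finset.univ : Finset ι),
      x ∈ {x : ι → ℂ | eval x (X i - C (x₀ i) : MvPolynomial ι ℂ) = 0}} = {x₀} := by
    ext x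
    simp only [Finset.mem_univ, true_imp_iff, Set.mem_ofPred_eq, Set.mem_singleton_iff, map_sub,
      eval_X, eval_C, sub_eq_zero]
    exact ⟨fun h => funext h, fun h i => by rw [h]⟩
  rwa [h2] at h

section

variable {ι κ : Type} [Fintype ι] [DecidableEq ι] [Fintype κ] [DecidableEq κ]

theorem tch_mono {f : MvPolynomial ι ℂ} {S T : Set (ι → ℂ)} {Y : ι → MvPolynomial ι ℂ}
    {s : MvPolynomial ι ℂ} {w : κ → ι → ℕ} {c : κ → MvPolynomial ι ℂ} (h : TCh f S Y s w c)
    (hT : T ⊆ S) : TCh f T Y s w c :=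
  ⟨h.eq, fun x hx => h.det x (hT hx), fun x hx => h.s0 x (hT hx), fun x hx => h.nd x (hT hx)⟩

theorem coeff_zero_jet (f : MvPolynomial ι ℂ) {K : ℕ} (q : ι × Fin (K + 1) → ℂ) :
    (aeval (jet q) f : Polynomial ℂ).coeff 0 = eval (fun i => q (i, 0)) f := by
  rw [Polynomial.coeff_zero_eq_eval_zero, ← Polynomial.coe_evalRingHom, MvPolynomial.aeval_def,
    MvPolynomial.hom_eval₂]
  have h1 : (Polynomial.evalRingHom (0 : ℂ)).comp (algebraMap ℂ (Polynomial ℂ)) = RingHom.id ℂ := by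
    ext x
    simp
  rw [h1]
  have h2 : (fun i => Polynomial.evalRingHom (0 : ℂ) (jet q i)) = fun i => q (i, 0) := by
    funext i
    rw [Polynomial.coe_evalRingHom, jet, Polynomial.eval_finsetSum, Fin.sum_univ_succ]
    simp
  rw [h2]
  rfl

theorem JS_zero (f : MvPolynomial ι ℂ) (T : Set (ι → ℂ)) (d : ℕ)
    (hf : ∀ x ∈ T, eval x f = 0) : JS f T d 0 = ∅ := by
  ext z
  simp only [Set.mem_empty_iff_false, iff_false]
  rintro ⟨hz, hz2⟩
  have h1 := hz.2.1
  rw [coeff_zero_jet] at h1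
  exact h1 (hf _ hz2)

theorem VS_empty (Y : ι → MvPolynomial ι ℂ) (w : κ → ι → ℕ) (c : κ → MvPolynomial ι ℂ)
    (T : Set (ι → ℂ)) (A B : Finset ι) (F : Finset κ) (hT : T ⊆ ZA Y A) (h : B ≠ A) :
    VS Y w c T B F = ∅ := by
  ext z
  simp only [Set.mem_empty_iff_false, iff_false]
  rintro ⟨h1, h2, -⟩
  refine h (Finset.ext fun i => ?_)
  rw [← h2 i, ← hT h1 i]

theorem WS_empty (Y : ι → MvPolynomial ι ℂ) (s : MvPolynomial ι ℂ) (w : κ → ι → ℕ)
    (c : κ → MvPolynomial ι ℂ) (T : Set (ι → ℂ)) (A B : Finset ι) (F : Finset κ) (d : ℕ)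
    (hT : T ⊆ ZA Y A) (h : B ≠ A) : WS Y s w c T B F d = ∅ := by
  ext z
  simp only [Set.mem_empty_iff_false, iff_false]
  rintro ⟨h1, h2, -⟩
  refine h (Finset.ext fun i => ?_)
  rw [← h2 i, ← hT h1 i]

theorem fc_nonempty [Nonempty κ] (w : κ → ι → ℕ) (k : ι → ℕ) : (fc w k).Nonempty := by
  classical
  obtain ⟨a, -, ha⟩ := Finset.exists_min_image (Finset.univ : Finset κ) (fun a => kw w k a)
    Finset.univ_nonempty
  refine ⟨a, ?_⟩
  unfold fc
  rw [Finset.mem_filter]
  exact ⟨Finset.mem_univ _, fun b => ha b (Finset.mem_univ _)⟩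

/-- the factor of the face `F` -/
noncomputable def gF (E : HodgeMeasure) (Y : ι → MvPolynomial ι ℂ) (s : MvPolynomial ι ℂ)
    (w : κ → ι → ℕ) (c : κ → MvPolynomial ι ℂ) (T : Set (ι → ℂ)) (A : Finset ι) (d r : ℕ)
    (F : Finset κ) (u : ℝ) : ℝ :=
  Polynomial.aeval u (E.val (WS Y s w c T A F d)) +
    Polynomial.aeval u (E.val (VS Y w c T A F)) * ((u - 1) / (u ^ (r + 1) - 1))

open Classical in
theorem exS_eq [Nonempty κ] (E : HodgeMeasure) (Y : ι → MvPolynomial ι ℂ)
    (s : MvPolynomial ι ℂ) (w : κ → ι → ℕ) (c : κ → MvPolynomial ι ℂ) (T : Set (ι → ℂ))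
    (A : Finset ι) (d r : ℕ) (u : ℝ) (hT : T ⊆ ZA Y A) (k : ι → ℕ) :
    exS E Y s w c T d r u k =
      ∑ F ∈ Finset.univ.filter fun F : Finset κ => F.Nonempty,
        Set.indicator {k : ι → ℕ | sp k = A ∧ fc w k = F}
          (fun k => u⁻¹ ^ (∑ i, k i + r * mnk w k) * gF E Y s w c T A d r F u) k := by
  by_cases hk : sp k = A
  · rw [Finset.sum_eq_single (fc w k)]
    · rw [Set.indicator_of_mem (show k ∈ {k' : ι → ℕ | sp k' = A ∧ fc w k' = fc w k} from
        ⟨hk, rfl⟩)]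
      unfold exS gF
      rw [hk]
    · intro F _ hF
      exact Set.indicator_of_notMem (fun h => hF h.2.symm) _
    · intro h
      exact absurd (Finset.mem_filter.2 ⟨Finset.mem_univ _, fc_nonempty w k⟩) h
  · rw [Finset.sum_eq_zero]
    · unfold exS
      rw [VS_empty Y w c T A (sp k) (fc w k) hT hk, WS_empty Y s w c T A (sp k) (fc w k) d hT hk,
        val_empty, val_empty]
      simp
    · intro F _
      exact Set.indicator_of_notMem (fun h => hk h.1) _

open Classical in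
theorem zeta_eq [Nonempty κ] (hE : Stmt_EXCHM) (hG : Stmt_GRKA) (E : HodgeMeasure)
    (f : MvPolynomial ι ℂ) (T : Set (ι → ℂ)) (Y : ι → MvPolynomial ι ℂ)
    (s : MvPolynomial ι ℂ) (w : κ → ι → ℕ) (c : κ → MvPolynomial ι ℂ) (A : Finset ι)
    (d r : ℕ) (u : ℝ) (hd : 1 ≤ d) (hu : 1 < u) (hc : Constructible T)
    (hch : TCh f T Y s w c) (hT : T ⊆ ZA Y A) (hf : ∀ x ∈ T, eval x f = 0) :
    (∑' m : ℕ, if m = 0 then 0 else Polynomial.aeval u (E.val (JS f T d m)) *
      u⁻¹ ^ (m * Fintype.card ι) * u⁻¹ ^ (m * r)) =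
      ∑ F ∈ Finset.univ.filter fun F : Finset κ => F.Nonempty,
        SgA w r A F u * gF E Y s w c T A d r F u := by
  have h1 : (fun m : ℕ => if m = 0 then 0 else Polynomial.aeval u (E.val (JS f T d m)) *
      u⁻¹ ^ (m * Fintype.card ι) * u⁻¹ ^ (m * r)) = fun m : ℕ =>
      Polynomial.aeval u (E.val (JS f T d m)) * u⁻¹ ^ (m * Fintype.card ι) * u⁻¹ ^ (m * r) := by
    funext m
    split_ifs with hm
    · subst hm
      rw [JS_zero f T d hf, val_empty]
      simp
    · rfl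
  rw [h1]
  have h2 := (hE ι κ E f T Y s w c d u r hc hch hd hu).2
  rw [← h2.tsum_eq]
  have h3 : exS E Y s w c T d r u = fun k =>
      ∑ F ∈ Finset.univ.filter fun F : Finset κ => F.Nonempty,
        Set.indicator {k : ι → ℕ | sp k = A ∧ fc w k = F}
          (fun k => u⁻¹ ^ (∑ i, k i + r * mnk w k) * gF E Y s w c T A d r F u) k :=
    funext fun k => exS_eq E Y s w c T A d r u hT k
  rw [h3, Summable.tsum_finsetSum]
  · refine Finset.sum_congr rfl fun F _ => ?_
    rw [← tsum_subtype]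
    unfold SgA
    rw [← tsum_mul_right]
    rfl
  · intro F hF
    rw [← summable_subtype_iff_indicator]
    have h4 := ((hG ι κ w r A F (Finset.mem_filter.1 hF).2).1 u hu).mul_right
      (gF E Y s w c T A d r F u)
    exact h4

end

theorem quot_bound (r : ℕ) (u : ℝ) (hu : 1 < u) :
    |(u - 1) / (u ^ (r + 1) - 1)| ≤ 1 := by
  have h1 : u ≤ u ^ (r + 1) := le_self_pow₀ hu.le (Nat.succ_ne_zero r)
  have h2 : 0 < u ^ (r + 1) - 1 := by linarith
  rw [abs_of_nonneg (div_nonneg (by linarith) h2.le), div_le_one h2]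
  linarith

theorem aeval_tendsto (p : Polynomial ℤ) :
    Tendsto (fun u : ℝ => (Polynomial.aeval u p : ℝ)) (𝓝[>] 1) (𝓝 ((p.eval 1 : ℤ) : ℝ)) := by
  have h1 : (Polynomial.aeval (1 : ℝ) p : ℝ) = ((p.eval 1 : ℤ) : ℝ) := by
    have := Polynomial.aeval_algebraMap_apply_eq_algebraMap_eval (A := ℝ) (1 : ℤ) p
    simpa using this
  rw [← h1]
  exact (p.continuous_aeval (A := ℝ)).continuousAt.tendsto.mono_left nhdsWithin_le_nhds

end CMPMAux

open CMPMAux in
theorem stmt_CMPM (hE : Stmt_EXCHM) (hG : Stmt_GRKA) : Stmt_CMPM := by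
  intro E ι κ _ _ _ _ _ f S Y s w c A x₀ e he hS hch hSA hfS hx₀ hV hW r
  classical
  have hx : ({x₀} : Set (ι → ℂ)) ⊆ S := Set.singleton_subset_iff.2 hx₀
  have hch₀ := tch_mono hch hx
  have hSA₀ : ({x₀} : Set (ι → ℂ)) ⊆ ZA Y A := hx.trans hSA
  have hf₀ : ∀ x ∈ ({x₀} : Set (ι → ℂ)), eval x f = 0 := fun x h => hfS x (hx h)
  have hc₀ : Constructible ({x₀} : Set (ι → ℂ)) := con_singleton x₀
  set XS : ℤ := (E.val S).eval 1 with hXS
  -- the difference
  have hdiff : ∀ u : ℝ, 1 < u → zL (Fintype.card ι) (fun d m => E.val (JS f S d m)) e r u -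
      (XS : ℝ) * zL (Fintype.card ι) (fun d m => E.val (JS f {x₀} d m)) e r u =
      ∑ d ∈ e.divisors, ((ArithmeticFunction.moebius (e / d) : ℤ) : ℝ) *
        ∑ F ∈ Finset.univ.filter fun F : Finset κ => F.Nonempty,
          SgA w r A F u * (gF E.toHodgeMeasure Y s w c S A d r F u -
            (XS : ℝ) * gF E.toHodgeMeasure Y s w c {x₀} A d r F u) := by
    intro u hu
    unfold zL
    rw [Finset.mul_sum, ← Finset.sum_sub_distrib]
    refine Finset.sum_congr rfl fun d hd => ?_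
    have hd1 : 1 ≤ d := Nat.pos_of_mem_divisors hd
    rw [zeta_eq hE hG E.toHodgeMeasure f S Y s w c A d r u hd1 hu hS hch hSA hfS,
      zeta_eq hE hG E.toHodgeMeasure f {x₀} Y s w c A d r u hd1 hu hc₀ hch₀ hSA₀ hf₀]
    rw [mul_left_comm, ← mul_sub, Finset.mul_sum (a := (XS : ℝ)), ← Finset.sum_sub_distrib]
    congr 1
    refine Finset.sum_congr rfl fun F _ => ?_
    ring
  have hmain : Tendsto (fun u : ℝ =>
      ∑ d ∈ e.divisors, ((ArithmeticFunction.moebius (e / d) : ℤ) : ℝ) *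
        ∑ F ∈ Finset.univ.filter fun F : Finset κ => F.Nonempty,
          SgA w r A F u * (gF E.toHodgeMeasure Y s w c S A d r F u -
            (XS : ℝ) * gF E.toHodgeMeasure Y s w c {x₀} A d r F u)) (𝓝[>] 1) (𝓝 0) := by
    rw [show (0 : ℝ) = ∑ d ∈ e.divisors, ((ArithmeticFunction.moebius (e / d) : ℤ) : ℝ) *
        ∑ F ∈ Finset.univ.filter fun F : Finset κ => F.Nonempty, (0 : ℝ) by simp]
    refine tendsto_finsetSum _ fun d hd => Tendsto.const_mul _ (tendsto_finsetSum _ fun F hF => ?_)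
    have hFn := (Finset.mem_filter.1 hF).2
    obtain ⟨-, B, hB⟩ := hG ι κ w r A F hFn
    obtain ⟨χ, ⟨q, hq, hq1⟩, ⟨q', hq', hq1'⟩⟩ := hV F hFn
    obtain ⟨η, ⟨p, hp, hp1⟩, ⟨p', hp', hp1'⟩⟩ := hW d hd F hFn
    set m := A.card + 1 - rk (wA w A) F with hm
    have hrw : ∀ u : ℝ, SgA w r A F u * (gF E.toHodgeMeasure Y s w c S A d r F u -
        (XS : ℝ) * gF E.toHodgeMeasure Y s w c {x₀} A d r F u) =
        ((u - 1) ^ m * SgA w r A F u) *
          ((Polynomial.aeval u p - (XS : ℝ) * Polynomial.aeval u p') +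
            (Polynomial.aeval u q - (XS : ℝ) * Polynomial.aeval u q') *
              ((u - 1) / (u ^ (r + 1) - 1))) := by
      intro u
      unfold gF
      rw [hq, hq', hp, hp']
      simp only [map_mul, map_pow, map_sub, Polynomial.aeval_X, map_one]
      ring
    rw [tendsto_congr hrw]
    have hz1 : Tendsto (fun u : ℝ => (Polynomial.aeval u p - (XS : ℝ) * Polynomial.aeval u p' : ℝ))
        (𝓝[>] 1) (𝓝 0) := by
      have h := (aeval_tendsto p).sub ((aeval_tendsto p').const_mul (XS : ℝ))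
      rw [hp1, hp1'] at h
      have h0 : ((η * XS : ℤ) : ℝ) - (XS : ℝ) * (η : ℝ) = 0 := by push_cast; ring
      rwa [h0] at h
    have hz2 : Tendsto (fun u : ℝ => (Polynomial.aeval u q - (XS : ℝ) * Polynomial.aeval u q' : ℝ))
        (𝓝[>] 1) (𝓝 0) := by
      have h := (aeval_tendsto q).sub ((aeval_tendsto q').const_mul (XS : ℝ))
      rw [hq1, hq1'] at h
      have h0 : ((χ * XS : ℤ) : ℝ) - (XS : ℝ) * (χ : ℝ) = 0 := by push_cast; ring
      rwa [h0] at h
    have hgt : ∀ᶠ u : ℝ in 𝓝[>] 1, 1 < u := eventually_mem_nhdsWithin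
    have hz3 : Tendsto (fun u : ℝ =>
        ((Polynomial.aeval u q - (XS : ℝ) * Polynomial.aeval u q') *
          ((u - 1) / (u ^ (r + 1) - 1)) : ℝ)) (𝓝[>] 1) (𝓝 0) := by
      refine squeeze_zero_norm' (hgt.mono fun u hu => ?_) (tendsto_norm_zero.comp hz2)
      simp only [Function.comp_apply, norm_mul]
      have h := quot_bound r u hu
      rw [← Real.norm_eq_abs] at h
      exact mul_le_of_le_one_right (norm_nonneg _) h
    have hz := hz1.add hz3
    rw [add_zero] at hz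
    refine squeeze_zero_norm' (a := fun u : ℝ => B * ‖(Polynomial.aeval u p -
        (XS : ℝ) * Polynomial.aeval u p') + (Polynomial.aeval u q -
          (XS : ℝ) * Polynomial.aeval u q') * ((u - 1) / (u ^ (r + 1) - 1))‖) ?_ ?_
    · filter_upwards [hB] with u hu
      rw [norm_mul]
      exact mul_le_mul_of_nonneg_right (by rw [Real.norm_eq_abs]; exact hu) (norm_nonneg _)
    · have h := (tendsto_norm_zero.comp hz).const_mul B
      rw [mul_zero] at h
      exact h
  refine (tendsto_congr' ?_).2 hmain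
  filter_upwards [self_mem_nhdsWithin] with u hu
  exact hdiff u hu

end Pool.Agent.Mono.MG

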