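import Pool.Agent.Work.Monodromy.YM
import Pool.Agent.Work.Monodromy.InterfaceM

/-!
# Block CTB: the Euler characteristic of the fibres

Chevalley's theorem for closed points (`proj`), the number of points of a fibre, induction on the
number of variables with Fubini's theorem.
-/

set_option autoImplicit false

namespace Pool.Agent.Mono.MG

namespace CTBAux

open MvPolynomial

variable {ι κ σ τ : Type}

/-- the closed point of the spectrum which belongs to `x` -/
noncomputable def pt (x : ι → ℂ) : PrimeSpectrum (MvPolynomial ι ℂ) :=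
  ⟨RingHom.ker (eval x), RingHom.ker_isPrime (eval x)⟩

lemma mem_pt (x : ι → ℂ) (p : MvPolynomial ι ℂ) : p ∈ (pt x).asIdeal ↔ eval x p = 0 :=
  RingHom.mem_ker

lemma up {s : Set (ι → ℂ)} (hs : Constructible s) :
    ∃ T : Set (PrimeSpectrum (MvPolynomial ι ℂ)),
      Topology.IsConstructible T ∧ ∀ x, pt x ∈ T ↔ x ∈ s := by
  induction hs with
  | zero p =>
    refine ⟨((PrimeSpectrum.basicOpen p : TopologicalSpace.Opens _) : Set _)ᶜ,
      PrimeSpectrum.isConstructible_basicOpen.compl, ?_⟩
    intro x
    rw [Set.mem_compl_iff, SetLike.mem_coe, PrimeSpectrum.mem_basicOpen, not_not, mem_pt]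
    rfl
  | compl _ ih =>
    obtain ⟨T, hT, h⟩ := ih
    exact ⟨Tᶜ, hT.compl, fun x => by rw [Set.mem_compl_iff, Set.mem_compl_iff, h]⟩
  | inter _ _ ih₁ ih₂ =>
    obtain ⟨T, hT, h⟩ := ih₁
    obtain ⟨T', hT', h'⟩ := ih₂
    exact ⟨T ∩ T', hT.inter hT', fun x => by rw [Set.mem_inter_iff, Set.mem_inter_iff, h, h']⟩

lemma pt_mem_basic (C : PrimeSpectrum.BasicConstructibleSetData (MvPolynomial ι ℂ)) (x : ι → ℂ) :
    pt x ∈ C.toSet ↔ (∀ i, eval x (C.g i) = 0) ∧ eval x C.f ≠ 0 := by
  rw [PrimeSpectrum.BasicConstructibleSetData.toSet, Set.mem_sdiff, PrimeSpectrum.mem_zeroLocus,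
    PrimeSpectrum.mem_zeroLocus, Set.range_subset_iff, Set.singleton_subset_iff]
  simp only [SetLike.mem_coe, mem_pt]

lemma down {T : Set (PrimeSpectrum (MvPolynomial ι ℂ))} (hT : Topology.IsConstructible T) :
    Constructible {x : ι → ℂ | pt x ∈ T} := by
  obtain ⟨S, rfl⟩ := PrimeSpectrum.exists_constructibleSetData_iff.2 hT
  have h2 : {x : ι → ℂ | pt x ∈ S.toSet} =
      {x | ∃ C ∈ S, (∀ i, eval x (C.g i) = 0) ∧ eval x C.f ≠ 0} := by
    ext x
    simp only [Set.mem_ofPred_eq, PrimeSpectrum.ConstructibleSetData.toSet, Set.mem_iUnion,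
      exists_prop, pt_mem_basic]
  rw [h2]
  exact Constructible.ex_finset S fun C _ =>
    Constructible.and (Constructible.all fun i => Constructible.zero _) (Constructible.ne _)

/-- Chevalley's theorem -/
theorem proj [Finite σ] [Finite τ] {s : Set (σ ⊕ τ → ℂ)} (hs : Constructible s) :
    Constructible {x : σ → ℂ | ∃ y : τ → ℂ, Sum.elim x y ∈ s} := by
  obtain ⟨T, hT, hTs⟩ := up hs
  let f : MvPolynomial σ ℂ →ₐ[ℂ] MvPolynomial (σ ⊕ τ) ℂ := rename Sum.inl
  have hf : (f : MvPolynomial σ ℂ →+* MvPolynomial (σ ⊕ τ) ℂ).FinitePresentation := by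
    refine RingHom.FinitePresentation.of_comp_finiteType (algebraMap ℂ (MvPolynomial σ ℂ)) ?_ ?_
    · have h1 : (f : MvPolynomial σ ℂ →+* MvPolynomial (σ ⊕ τ) ℂ).comp
          (algebraMap ℂ (MvPolynomial σ ℂ)) = algebraMap ℂ (MvPolynomial (σ ⊕ τ) ℂ) :=
        f.comp_algebraMap
      rw [h1, RingHom.finitePresentation_algebraMap]
      infer_instance
    · rw [RingHom.finiteType_algebraMap]
      infer_instance
  have hU := PrimeSpectrum.isConstructible_comap_image hf hT
  have h3 : {x : σ → ℂ | ∃ y : τ → ℂ, Sum.elim x y ∈ s} =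
      {x | pt x ∈ PrimeSpectrum.comap (f : MvPolynomial σ ℂ →+* MvPolynomial (σ ⊕ τ) ℂ) '' T} := by
    ext x
    simp only [Set.mem_ofPred_eq, Set.mem_image]
    constructor
    · rintro ⟨y, hy⟩
      refine ⟨pt (Sum.elim x y), (hTs _).2 hy, ?_⟩
      ext p
      rw [PrimeSpectrum.comap_asIdeal, Ideal.mem_comap, mem_pt, mem_pt]
      change eval (Sum.elim x y) (rename Sum.inl p) = 0 ↔ _
      rw [eval_rename, Sum.elim_comp_inl]
    · rintro ⟨P, hP, hPx⟩
      obtain ⟨S, rfl⟩ := PrimeSpectrum.exists_constructibleSetData_iff.2 hT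
      obtain ⟨C₀, hC, hPC⟩ : ∃ C₀ ∈ S, P ∈ C₀.toSet := by
        simpa only [PrimeSpectrum.ConstructibleSetData.toSet, Set.mem_iUnion, exists_prop] using hP
      rw [PrimeSpectrum.BasicConstructibleSetData.toSet, Set.mem_sdiff, PrimeSpectrum.mem_zeroLocus,
        PrimeSpectrum.mem_zeroLocus, Set.range_subset_iff, Set.singleton_subset_iff] at hPC
      obtain ⟨hg, hf'⟩ := hPC
      have hprime : P.asIdeal.IsPrime := P.isPrime
      have hv := MvPolynomial.IsPrime.vanishingIdeal_zeroLocus (K := ℂ) P.asIdeal
      have hnot : ¬ C₀.f ∈ vanishingIdeal ℂ (zeroLocus ℂ P.asIdeal) := by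
        rw [hv]; exact hf'
      rw [mem_vanishingIdeal_iff] at hnot
      push Not at hnot
      obtain ⟨z, hz, hzf⟩ := hnot
      have hz' : ∀ p ∈ P.asIdeal, eval z p = 0 := by
        intro p hp
        have := hz p hp
        rwa [aeval_eq_eval] at this
      have hzx : ∀ i, z (Sum.inl i) = x i := by
        intro i
        have h4 : (X i - C (x i) : MvPolynomial σ ℂ) ∈ (pt x).asIdeal := by
          rw [mem_pt]; simp
        rw [← hPx, PrimeSpectrum.comap_asIdeal, Ideal.mem_comap] at h4
        have h5 := hz' _ h4
        change eval z (rename Sum.inl (X i - C (x i))) = 0 at h5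
        rw [eval_rename] at h5
        simpa [sub_eq_zero] using h5
      refine ⟨fun j => z (Sum.inr j), ?_⟩
      have hz2 : Sum.elim x (fun j => z (Sum.inr j)) = z := by
        ext i
        rcases i with i | i
        · exact (hzx i).symm
        · rfl
      rw [hz2, ← hTs z]
      rw [PrimeSpectrum.ConstructibleSetData.toSet, Set.mem_iUnion₂]
      refine ⟨C₀, hC, (pt_mem_basic C₀ z).2 ⟨fun i => hz' _ (hg i), ?_⟩⟩
      rwa [aeval_eq_eval] at hzf
  rw [h3]
  exact down hU

/-- functions with finitely many values and constructible level sets -/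
def CFun {ι α : Type} (f : (ι → ℂ) → α) : Prop :=
  (Set.range f).Finite ∧ ∀ a, Constructible {x | f x = a}

namespace CFun

variable {α β : Type}

lemma pred {f : (ι → ℂ) → α} (hf : CFun f) (P : α → Prop) : Constructible {x | P (f x)} := by
  have h : {x | P (f x)} = {x | ∃ a ∈ hf.1.toFinset, P a ∧ f x = a} := by
    ext x
    simp only [Set.mem_ofPred_eq, Set.Finite.mem_toFinset, Set.mem_range]
    constructor
    · intro h
      exact ⟨f x, ⟨x, rfl⟩, h, rfl⟩
    · rintro ⟨a, _, h, h'⟩
      rwa [h']
  rw [h]
  exact Constructible.ex_finset _ fun a _ => Constructible.and (Constructible.const _) (hf.2 a)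

lemma comp {f : (ι → ℂ) → α} (hf : CFun f) (F : α → β) : CFun (fun x => F (f x)) := by
  refine ⟨?_, fun b => hf.pred fun a => F a = b⟩
  have h : Set.range (fun x => F (f x)) = F '' Set.range f := by
    rw [← Set.range_comp]
    rfl
  rw [h]
  exact hf.1.image F

lemma pair {f : (ι → ℂ) → α} {g : (ι → ℂ) → β} (hf : CFun f) (hg : CFun g) :
    CFun (fun x => (f x, g x)) := by
  refine ⟨(hf.1.prod hg.1).subset ?_, ?_⟩
  · rintro _ ⟨x, rfl⟩
    exact ⟨⟨x, rfl⟩, ⟨x, rfl⟩⟩
  · rintro ⟨a, b⟩
    simp only [Prod.mk.injEq]
    exact Constructible.and (hf.2 a) (hg.2 b)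

lemma const (a : α) : CFun (fun _ : ι → ℂ => a) := by
  refine ⟨(Set.finite_singleton a).subset ?_, fun b => Constructible.const _⟩
  rintro _ ⟨x, rfl⟩
  rfl

lemma ofSet {s : Set (ι → ℂ)} (hs : Constructible s) : CFun (fun x => x ∈ s) := by
  refine ⟨Set.toFinite _, fun P => ?_⟩
  by_cases hP : P
  · have h : {x | (x ∈ s) = P} = s := by
      ext x
      simp [hP]
    rw [h]
    exact hs
  · have h : {x | (x ∈ s) = P} = sᶜ := by
      ext x
      simp [hP]
    rw [h]
    exact hs.compl

lemma sum {κ : Type} (F : Finset κ) {f : κ → (ι → ℂ) → ℤ} (hf : ∀ a, CFun (f a)) :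
    CFun (fun x => ∑ a ∈ F, f a x) := by
  classical
  induction F using Finset.induction_on with
  | empty =>
    simp only [Finset.sum_empty]
    exact const 0
  | insert a F ha ih =>
    have h := ((hf a).pair ih).comp fun p : ℤ × ℤ => p.1 + p.2
    simpa only [Finset.sum_insert ha] using h

lemma partition {f : (ι → ℂ) → α} (hf : CFun f) :
    ∃ (n : ℕ) (T : Fin n → Set (ι → ℂ)) (c : Fin n → α), (∀ j, Constructible (T j)) ∧
      (∀ p, ∃! j, p ∈ T j) ∧ ∀ j, ∀ p ∈ T j, f p = c j := by
  have : Finite (Set.range f) := hf.1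
  let e := Finite.equivFin (Set.range f)
  refine ⟨Nat.card (Set.range f), fun j => {x | f x = (e.symm j : α)}, fun j => (e.symm j : α),
    fun j => hf.2 _, ?_, fun j p hp => hp⟩
  intro p
  refine ⟨e ⟨f p, p, rfl⟩, ?_, ?_⟩
  · simp only [Set.mem_ofPred_eq, Equiv.symm_apply_apply]
  · intro j hj
    rw [Set.mem_ofPred_eq] at hj
    have h : (⟨f p, p, rfl⟩ : Set.range f) = e.symm j := Subtype.ext hj
    rw [h, Equiv.apply_symm_apply]

end CFun

/-! ## one variable -/

/-- the fibre -/
def fib (s : Set (ι ⊕ κ → ℂ)) (x : ι → ℂ) : Set (κ → ℂ) := {y | Sum.elim x y ∈ s}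

lemma constructible_fib {s : Set (ι ⊕ κ → ℂ)} (hs : Constructible s) (x : ι → ℂ) :
    Constructible (fib s x) := by
  have h := Constructible.preimage (ι := κ)
    (Sum.elim (fun i => C (x i)) (fun j => X j) : ι ⊕ κ → MvPolynomial κ ℂ) hs
  have h2 : fib s x = {y : κ → ℂ | (fun k => eval y
      ((Sum.elim (fun i => C (x i)) (fun j => X j) : ι ⊕ κ → MvPolynomial κ ℂ) k)) ∈ s} := by
    ext y
    have h3 : (fun k => eval y
      ((Sum.elim (fun i => C (x i)) (fun j => X j) : ι ⊕ κ → MvPolynomial κ ℂ) k)) =
        Sum.elim x y := by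
      ext k
      rcases k with k | k
      · simp only [Sum.elim_inl, eval_C]
      · simp only [Sum.elim_inr, eval_X]
    rw [Set.mem_ofPred_eq, h3]
    rfl
  rw [h2]
  exact h

lemma fib_compl (s : Set (ι ⊕ κ → ℂ)) (x : ι → ℂ) : fib sᶜ x = (fib s x)ᶜ := rfl

lemma bound {s : Set (ι ⊕ Unit → ℂ)} (hs : Constructible s) :
    ∃ D : ℕ, ∀ x, (fib s x).encard ≤ D ∨ (fib s x)ᶜ.encard ≤ D := by
  induction hs with
  | zero p =>
    refine ⟨p.totalDegree, fun x => ?_⟩
    let q : Polynomial ℂ := aeval (Sum.elim (fun i => Polynomial.C (x i)) (fun _ => Polynomial.X)) p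
    have hq : ∀ y : Unit → ℂ, q.eval (y ()) = eval (Sum.elim x y) p := by
      intro y
      have h1 : q.eval (y ()) = (Polynomial.aeval (y ())) q := by
        rw [Polynomial.coe_aeval_eq_eval]
      rw [h1]
      change (Polynomial.aeval (y ()))
        (aeval (Sum.elim (fun i => Polynomial.C (x i)) (fun _ => Polynomial.X)) p) = _
      rw [← AlgHom.comp_apply, ← aeval_eq_eval]
      congr 1
      apply algHom_ext
      intro k
      rw [AlgHom.comp_apply, aeval_X]
      rcases k with k | k
      · simp
      · simp
    have hdeg : q.natDegree ≤ p.totalDegree := by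
      have h := aeval_natDegree_le p (le_refl _)
        (Sum.elim (fun i => Polynomial.C (x i)) (fun _ => Polynomial.X) : ι ⊕ Unit → Polynomial ℂ)
        (n := 1) ?_
      · simpa using h
      · intro k
        rcases k with k | k
        · simp
        · simp
    by_cases h0 : q = 0
    · right
      have : (fib {x | eval x p = 0} x)ᶜ = ∅ := by
        rw [Set.compl_empty_iff, Set.eq_univ_iff_forall]
        intro y
        change eval (Sum.elim x y) p = 0
        rw [← hq, h0, Polynomial.eval_zero]
      rw [this, Set.encard_empty]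
      exact bot_le
    · left
      have hinj : Function.Injective (fun y : Unit → ℂ => y ()) := by
        intro y y' h
        ext u
        exact h
      have h1 : ((fun y : Unit → ℂ => y ()) '' (fib {x | eval x p = 0} x)) ⊆
          (q.roots.toFinset : Set ℂ) := by
        rintro _ ⟨y, hy, rfl⟩
        rw [Finset.mem_coe, Multiset.mem_toFinset, Polynomial.mem_roots h0, Polynomial.IsRoot.def,
          hq]
        exact hy
      rw [← hinj.encard_image]
      refine (Set.encard_le_encard h1).trans ?_
      rw [Set.encard_coe_eq_coe_finsetCard]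
      norm_cast
      exact (Multiset.toFinset_card_le _).trans ((Polynomial.card_roots' q).trans hdeg)
  | compl _ ih =>
    obtain ⟨D, hD⟩ := ih
    refine ⟨D, fun x => ?_⟩
    rw [fib_compl, compl_compl]
    exact (hD x).symm
  | @inter s t _ _ ih₁ ih₂ =>
    obtain ⟨D₁, h₁⟩ := ih₁
    obtain ⟨D₂, h₂⟩ := ih₂
    refine ⟨D₁ + D₂, fun x => ?_⟩
    have he : fib (s ∩ t) x = fib s x ∩ fib t x := rfl
    rw [he]
    rcases h₁ x with h | h
    · left
      refine (Set.encard_le_encard Set.inter_subset_left).trans (h.trans ?_)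
      norm_cast
      omega
    rcases h₂ x with h' | h'
    · left
      refine (Set.encard_le_encard Set.inter_subset_right).trans (h'.trans ?_)
      norm_cast
      omega
    right
    rw [Set.compl_inter]
    refine (Set.encard_union_le _ _).trans ?_
    push_cast
    exact add_le_add h h'

lemma le_encard [Finite ι] {s : Set (ι ⊕ Unit → ℂ)} (hs : Constructible s) (j : ℕ) :
    Constructible {x : ι → ℂ | (j : ℕ∞) ≤ (fib s x).encard} := by
  have h1 : Constructible {z : ι ⊕ Fin j → ℂ |
      (∀ i i' : Fin j, i ≠ i' → z (Sum.inr i) ≠ z (Sum.inr i')) ∧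
        ∀ i : Fin j, (fun k => z ((Sum.map id (fun _ => i) : ι ⊕ Unit → ι ⊕ Fin j) k)) ∈ s} := by
    refine Constructible.and (Constructible.all fun i => Constructible.all fun i' =>
      Constructible.imp (Constructible.const _) (Constructible.not ?_))
      (Constructible.all fun i => Constructible.comap _ hs)
    have h2 := Constructible.eq (X (Sum.inr i) : MvPolynomial (ι ⊕ Fin j) ℂ) (X (Sum.inr i'))
    simpa only [eval_X] using h2
  have h3 := proj h1
  have h4 : {x : ι → ℂ | (j : ℕ∞) ≤ (fib s x).encard} = {x : ι → ℂ | ∃ y : Fin j → ℂ,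
      Sum.elim x y ∈ {z : ι ⊕ Fin j → ℂ |
      (∀ i i' : Fin j, i ≠ i' → z (Sum.inr i) ≠ z (Sum.inr i')) ∧
        ∀ i : Fin j, (fun k => z ((Sum.map id (fun _ => i) : ι ⊕ Unit → ι ⊕ Fin j) k)) ∈ s}} := by
    ext x
    have hk : ∀ (y : Fin j → ℂ) (i : Fin j),
        (fun k => (Sum.elim x y : ι ⊕ Fin j → ℂ)
          ((Sum.map id (fun _ => i) : ι ⊕ Unit → ι ⊕ Fin j) k)) =
        Sum.elim x (fun _ => y i) := by
      intro y i
      ext k
      rcases k with k | k <;> rfl
    simp only [Set.mem_ofPred_eq, Sum.elim_inr, hk]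
    constructor
    · intro h
      obtain ⟨t, ht, htj⟩ := Set.exists_subset_encard_eq h
      have htf : t.Finite := Set.finite_of_encard_eq_coe htj
      have hcard : htf.toFinset.card = j := by
        have := htf.encard_eq_coe_toFinset_card
        rw [htj] at this
        exact_mod_cast this.symm
      let e := htf.toFinset.equivFinOfCardEq hcard
      refine ⟨fun i => (e.symm i : Unit → ℂ) (), ?_, ?_⟩
      · intro i i' hii h0
        apply hii
        apply e.symm.injective
        apply Subtype.ext
        ext u
        exact h0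
      · intro i
        have h1 : (e.symm i : Unit → ℂ) ∈ t := by
          have := (e.symm i).2
          rwa [Set.Finite.mem_toFinset] at this
        exact ht h1
    · rintro ⟨y, hy, hy'⟩
      have hinj : Function.Injective (fun (i : Fin j) (_ : Unit) => y i) := by
        intro i i' hii
        by_contra hne
        exact hy i i' hne (congrFun hii ())
      have h5 : Set.range (fun (i : Fin j) (_ : Unit) => y i) ⊆ fib s x := by
        rintro _ ⟨i, rfl⟩
        exact hy' i
      refine le_trans ?_ (Set.encard_le_encard h5)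
      rw [← Set.image_univ, hinj.encard_image, Set.encard_univ]
      simp
  rw [h4]
  exact h3

lemma encard_eq [Finite ι] {s : Set (ι ⊕ Unit → ℂ)} (hs : Constructible s) (j : ℕ) :
    Constructible {x : ι → ℂ | (fib s x).encard = j} := by
  have h : {x : ι → ℂ | (fib s x).encard = j} = {x | (j : ℕ∞) ≤ (fib s x).encard ∧
      ¬ (((j + 1 : ℕ) : ℕ∞) ≤ (fib s x).encard)} := by
    ext x
    simp only [Set.mem_ofPred_eq]
    rw [Nat.cast_add, Nat.cast_one, ENat.add_one_le_iff (ENat.natCast_ne_top j), not_lt]
    constructor
    · intro h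
      rw [h]
      exact ⟨le_refl _, le_refl _⟩
    · rintro ⟨h, h'⟩
      exact le_antisymm h' h
  rw [h]
  exact Constructible.and (le_encard hs j) (Constructible.not (le_encard hs (j + 1)))

lemma val_finset {R : Type} [CommRing R] (μ : MotivicMeasure R) [Finite κ] (B : Finset (κ → ℂ)) :
    μ.val (B : Set (κ → ℂ)) = (B.card : R) := by
  have h := μ.val_biUnion B (fun b => {x : κ → ℂ | x = b}) (fun b _ => Constructible.point b) ?_
  · have h2 : (⋃ b ∈ B, {x : κ → ℂ | x = b}) = (B : Set (κ → ℂ)) := by
      ext x
      simp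
    rw [h2] at h
    rw [h, Finset.sum_congr rfl (fun b _ => μ.val_point b), Finset.sum_const, nsmul_eq_mul,
      mul_one]
  · intro a _ b _ hab
    rw [Set.disjoint_left]
    intro x h1 h2
    exact hab (h1.symm.trans h2)

lemma val_encard {R : Type} [CommRing R] (μ : MotivicMeasure R) [Finite κ] {A : Set (κ → ℂ)}
    {j : ℕ} (h : A.encard = j) : μ.val A = (j : R) := by
  have hf : A.Finite := Set.finite_of_encard_eq_coe h
  have hcard : hf.toFinset.card = j := by
    have := hf.encard_eq_coe_toFinset_card
    rw [h] at this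
    exact_mod_cast this.symm
  have h2 := val_finset μ hf.toFinset
  rw [hf.coe_toFinset, hcard] at h2
  exact h2

/-- the Euler characteristic of the fibres, one variable -/
theorem one (E : HodgeMeasure) [Finite ι] {s : Set (ι ⊕ Unit → ℂ)} (hs : Constructible s) :
    CFun (fun x => (E.val (fib s x)).eval 1) := by
  obtain ⟨D, hD⟩ := bound hs
  have key : ∀ x, ∃ j ∈ Finset.range (D + 1),
      ((fib s x).encard = j ∧ (E.val (fib s x)).eval 1 = (j : ℤ)) ∨
      ((fib sᶜ x).encard = j ∧ (E.val (fib s x)).eval 1 = 1 - (j : ℤ)) := by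
    intro x
    rcases hD x with h | h
    · obtain ⟨_, j, hj, hjD⟩ := Set.encard_le_coe_iff.1 h
      refine ⟨j, Finset.mem_range.2 (by omega), Or.inl ⟨hj, ?_⟩⟩
      rw [val_encard E.toMotivicMeasure hj]
      simp
    · obtain ⟨_, j, hj, hjD⟩ := Set.encard_le_coe_iff.1 h
      refine ⟨j, Finset.mem_range.2 (by omega), Or.inr ⟨hj, ?_⟩⟩
      have h2 := E.toMotivicMeasure.val_compl (constructible_fib hs x)
      rw [val_encard E.toMotivicMeasure hj, E.line] at h2
      have h3 : E.val (fib s x) = Polynomial.X - (j : Polynomial ℤ) := by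
        rw [h2]
        ring
      rw [h3]
      simp
  refine ⟨(Set.finite_Icc (-(D : ℤ)) (D + 1)).subset ?_, ?_⟩
  · rintro _ ⟨x, rfl⟩
    obtain ⟨j, hj, h | h⟩ := key x
    · simp only [h.2]
      rw [Finset.mem_range] at hj
      constructor <;> omega
    · simp only [h.2]
      rw [Finset.mem_range] at hj
      constructor <;> omega
  · intro c
    have h : {x | (E.val (fib s x)).eval 1 = c} = {x | ∃ j ∈ Finset.range (D + 1),
        ((fib s x).encard = j ∧ (j : ℤ) = c) ∨ ((fib sᶜ x).encard = j ∧ 1 - (j : ℤ) = c)} := by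
      ext x
      simp only [Set.mem_ofPred_eq]
      constructor
      · intro hc
        obtain ⟨j, hj, h | h⟩ := key x
        · exact ⟨j, hj, Or.inl ⟨h.1, by rw [← h.2, hc]⟩⟩
        · exact ⟨j, hj, Or.inr ⟨h.1, by rw [← h.2, hc]⟩⟩
      · rintro ⟨j, _, ⟨h, h'⟩ | ⟨h, h'⟩⟩
        · rw [val_encard E.toMotivicMeasure h, ← h']
          simp
        · have h2 := E.toMotivicMeasure.val_compl (constructible_fib hs x)
          rw [fib_compl] at h
          rw [val_encard E.toMotivicMeasure h, E.line] at h2
          have h3 : E.val (fib s x) = Polynomial.X - (j : Polynomial ℤ) := by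
            rw [h2]
            ring
          rw [h3, ← h']
          simp
    rw [h]
    exact Constructible.ex_finset _ fun j _ =>
      Constructible.or (Constructible.and (encard_eq hs j) (Constructible.const _))
        (Constructible.and (encard_eq hs.compl j) (Constructible.const _))

/-! ## induction -/

/-- the Euler characteristic of the fibres -/
theorem main (E : EulerMeasure) (η : Type) [Finite η] : ∀ (σ : Type) [Finite σ]
    (V : Set (σ ⊕ η → ℂ)), Constructible V → CFun (fun x => (E.val (fib V x)).eval 1) := by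
  refine Finite.induction_empty_option (P := fun η => ∀ (_ : Finite η) (σ : Type) [Finite σ]
    (V : Set (σ ⊕ η → ℂ)), Constructible V → CFun (fun x => (E.val (fib V x)).eval 1))
    ?_ ?_ ?_ η inferInstance
  · intro α β e h _ σ _ V hV
    have : Finite α := Finite.of_equiv β e.symm
    have h1 := h this σ
      {z | (fun k => z ((Sum.map id e.symm : σ ⊕ β → σ ⊕ α) k)) ∈ V} (Constructible.comap _ hV)
    have h2 : ∀ x : σ → ℂ, E.val (fib V x) = E.val
        (fib {z | (fun k => z ((Sum.map id e.symm : σ ⊕ β → σ ⊕ α) k)) ∈ V} x) := by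
      intro x
      rw [← E.toMotivicMeasure.reindex e.symm (constructible_fib hV x)]
      congr 1
      ext y
      change Sum.elim x (fun j => y (e.symm j)) ∈ V ↔
        (fun k => (Sum.elim x y : σ ⊕ α → ℂ) ((Sum.map id e.symm : σ ⊕ β → σ ⊕ α) k)) ∈ V
      have h3 : (fun k => (Sum.elim x y : σ ⊕ α → ℂ) ((Sum.map id e.symm : σ ⊕ β → σ ⊕ α) k)) =
          Sum.elim x (fun j => y (e.symm j)) := by
        ext k
        rcases k with k | k <;> rfl
      rw [h3]
    simp only [h2]
    exact h1
  · intro _ σ _ V hV
    have h1 : Constructible {x : σ → ℂ | Sum.elim x PEmpty.elim ∈ V} := by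
      have h := Constructible.preimage
        (Sum.elim (fun i => X i) (fun j => PEmpty.elim j) : σ ⊕ PEmpty → MvPolynomial σ ℂ) hV
      have h2 : {x : σ → ℂ | Sum.elim x PEmpty.elim ∈ V} = {x : σ → ℂ | (fun k => eval x
          ((Sum.elim (fun i => X i) (fun j => PEmpty.elim j) : σ ⊕ PEmpty → MvPolynomial σ ℂ) k))
            ∈ V} := by
        ext x
        have h3 : (fun k => eval x
          ((Sum.elim (fun i => X i) (fun j => PEmpty.elim j) : σ ⊕ PEmpty → MvPolynomial σ ℂ) k)) =
            Sum.elim x PEmpty.elim := by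
          ext k
          rcases k with k | k
          · simp only [Sum.elim_inl, eval_X]
          · exact PEmpty.elim k
        rw [Set.mem_ofPred_eq, Set.mem_ofPred_eq, h3]
      rw [h2]
      exact h
    classical
    have h4 := (CFun.ofSet h1).comp fun P : Prop => if P then (1 : ℤ) else 0
    have h5 : (fun x : σ → ℂ => (E.val (fib V x)).eval 1) = fun x =>
        if (x ∈ {x : σ → ℂ | Sum.elim x PEmpty.elim ∈ V}) then (1 : ℤ) else 0 := by
      ext x
      by_cases hx : Sum.elim x PEmpty.elim ∈ V
      · have h6 : fib V x = Set.univ := by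
          rw [Set.eq_univ_iff_forall]
          intro y
          have : y = PEmpty.elim := by
            ext j
            exact PEmpty.elim j
          rw [this]
          exact hx
        have hx' : x ∈ {x : σ → ℂ | Sum.elim x PEmpty.elim ∈ V} := hx
        simp only [h6, E.toMotivicMeasure.val_univ, if_pos hx']
        simp
      · have h6 : fib V x = ∅ := by
          rw [Set.eq_empty_iff_forall_notMem]
          intro y hy
          have : y = PEmpty.elim := by
            ext j
            exact PEmpty.elim j
          rw [this] at hy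
          exact hx hy
        have hx' : ¬ x ∈ {x : σ → ℂ | Sum.elim x PEmpty.elim ∈ V} := hx
        simp only [h6, E.toMotivicMeasure.val_empty, if_neg hx']
        simp
    rw [h5]
    exact h4
  · intro α _ ih _ σ _ V hV
    let r : σ ⊕ Option α → (σ ⊕ α) ⊕ Unit :=
      Sum.elim (fun i => Sum.inl (Sum.inl i))
        (fun o => Option.elim o (Sum.inr ()) fun a => Sum.inl (Sum.inr a))
    let V₁ : Set ((σ ⊕ α) ⊕ Unit → ℂ) := {z | (fun k => z (r k)) ∈ V}
    have hV₁ : Constructible V₁ := Constructible.comap r hV
    let g : (σ ⊕ α → ℂ) → ℤ := fun z => (E.val (fib V₁ z)).eval 1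
    have hg : CFun g := one E.toHodgeMeasure hV₁
    have hh : ∀ c : ℤ, CFun (fun x => (E.val (fib {z | g z = c} x)).eval 1) := fun c =>
      ih inferInstance σ _ (hg.2 c)
    have hS := CFun.sum hg.1.toFinset fun c =>
      (hh c).comp fun t => c * t
    have hval : (fun x => (E.val (fib V x)).eval 1) = fun x =>
        ∑ c ∈ hg.1.toFinset, c * (E.val (fib {z | g z = c} x)).eval 1 := by
      ext x
      let sc : ℤ → Set (Option α → ℂ) := fun c =>
        {y | y ∈ fib V x ∧ (fun j => eval y (X (some j) : MvPolynomial (Option α) ℂ)) ∈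
          fib {z | g z = c} x}
      have hsc : ∀ c, Constructible (sc c) := fun c =>
        Constructible.and (constructible_fib hV x)
          (Constructible.preimage _ (constructible_fib (hg.2 c) x))
      have hun : fib V x = ⋃ c ∈ hg.1.toFinset, sc c := by
        ext y
        simp only [Set.mem_iUnion, exists_prop, Set.Finite.mem_toFinset, Set.mem_range]
        constructor
        · intro hy
          exact ⟨_, ⟨Sum.elim x (fun j => eval y (X (some j) : MvPolynomial (Option α) ℂ)), rfl⟩,
            hy, rfl⟩
        · rintro ⟨c, _, hy, _⟩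
          exact hy
      have hadd := E.toMotivicMeasure.val_biUnion hg.1.toFinset sc (fun c _ => hsc c) ?_
      · rw [hun, hadd, Polynomial.eval_finsetSum]
        refine Finset.sum_congr rfl fun c _ => ?_
        apply E.fubini (sc c) (fib {z | g z = c} x) (fun j => X (some j)) c (hsc c)
          (constructible_fib (hg.2 c) x) (fun y hy => hy.2)
        intro y' hy'
        have hfin : E.val {y : Option α → ℂ | y ∈ sc c ∧
            (fun j => eval y (X (some j) : MvPolynomial (Option α) ℂ)) = y'} =
            E.val (fib V₁ (Sum.elim x y')) := by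
          symm
          have hrk : ∀ t : Unit → ℂ, (fun k => (Sum.elim (Sum.elim x y') t :
              (σ ⊕ α) ⊕ Unit → ℂ) (r k)) = Sum.elim x (fun o => Option.elim o (t ()) y') := by
            intro t
            ext k
            rcases k with k | k
            · rfl
            · cases k <;> rfl
          apply E.toMotivicMeasure.val_of_inv (constructible_fib hV₁ _) ?_
            (fun o => Option.elim o (X ()) fun a => C (y' a)) (fun y _ => y none)
          · intro t ht
            have ht' : (fun k => (Sum.elim (Sum.elim x y') t :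
              (σ ⊕ α) ⊕ Unit → ℂ) (r k)) ∈ V := ht
            rw [hrk] at ht'
            have he : (fun o : Option α => eval t
                (Option.elim o (X ()) fun a => C (y' a) : MvPolynomial Unit ℂ)) =
                fun o => Option.elim o (t ()) y' := by
              ext o
              cases o <;> simp
            rw [he]
            refine ⟨⟨ht', ?_⟩, ?_⟩
            · simp only [eval_X, Option.elim_some]
              exact hy'
            · simp only [eval_X, Option.elim_some]
          · rintro y ⟨⟨hy1, _⟩, hy2⟩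
            change (fun k => (Sum.elim (Sum.elim x y') (fun _ => y none) :
              (σ ⊕ α) ⊕ Unit → ℂ) (r k)) ∈ V
            rw [hrk]
            have : (fun o : Option α => Option.elim o (y none) y') = y := by
              ext o
              cases o with
              | none => rfl
              | some a =>
                have := congrFun hy2 a
                simp only [eval_X] at this
                exact this.symm
            rw [this]
            exact hy1
          · intro t _
            ext u
            simp only [Option.elim_none, eval_X]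
          · rintro y ⟨_, hy2⟩
            ext o
            cases o with
            | none => simp
            | some a =>
              have := congrFun hy2 a
              simp only [eval_X] at this
              simp only [Option.elim_some, eval_C]
              exact this.symm
          · refine Constructible.and (hsc c) ?_
            have := Constructible.all (ι := Option α) (p := fun (j : α) y =>
              eval y (X (some j) : MvPolynomial (Option α) ℂ) = eval y (C (y' j)))
              fun j => Constructible.eq _ _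
            have h9 : {y : Option α → ℂ | (fun j => eval y (X (some j) : MvPolynomial (Option α) ℂ))
                = y'} = {y | ∀ j, eval y (X (some j) : MvPolynomial (Option α) ℂ) =
                  eval y (C (y' j))} := by
              ext y
              simp only [Set.mem_ofPred_eq, eval_C]
              exact funext_iff
            rw [h9]
            exact this
        rw [hfin]
        exact hy'
      · intro a _ b _ hab
        rw [Set.disjoint_left]
        rintro y ⟨_, h1⟩ ⟨_, h2⟩
        exact hab (h1.symm.trans h2)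
    rw [hval]
    exact hS

end CTBAux

theorem stmt_CTB : Stmt_CTB := fun E σ η _ _ V hV => (CTBAux.main E η σ V hV).partition

theorem stmt_CTB1 : Stmt_CTB1 := fun E σ _ V hV => stmt_CTB E σ Unit V hV

end Pool.Agent.Mono.MG
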