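import Pool.Agent.Work.Monodromy.InterfaceM
import Pool.Agent.Work.Monodromy14.DEC14

/-!
# Block DECM: the zeta function minus the parts over the `T j` (helper29, after DEC14 of helper10)
-/

set_option autoImplicit false

namespace Pool.Agent.Mono.MG

open MvPolynomial TS RO SP PC C9 NP

namespace DECMAux

open SP.MAIN8Aux SP.POL8Aux C9.POL9Aux

variable {ι : Type} [Fintype ι] [DecidableEq ι]

theorem con_biU {β : Type} (T : β → Set (ι → ℂ)) (hT : ∀ j, Constructible (T j))
    (B : Finset β) : Constructible (⋃ j ∈ B, T j) := by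
  classical
  induction B using Finset.induction_on with
  | empty =>
    simp only [Finset.notMem_empty, Set.iUnion_of_empty, Set.iUnion_empty]
    exact Constructible.empty
  | insert p B hp ih =>
    rw [Finset.set_biUnion_insert]
    exact (hT p).union ih

/-- removing finitely many constructible sets -/
theorem split_sets (P : HodgeMeasure) {E β : Type} [Finite E] (f : MvPolynomial ι ℂ)
    {Q : Set (E ⊕ Unit → ℂ)} (hQ : QU Q) (m : ℕ) (T : β → Set (ι → ℂ))
    (hT : ∀ j, Constructible (T j)) (hC : ∀ j, T j ⊆ Crit0 f)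
    (hd : ∀ i j, i ≠ j → Disjoint (T i) (T j)) (B : Finset β) :
    vol P.rat xq (ZL f (Crit0 f) Q m) = vol P.rat xq (ZL f (Crit0 f \ ⋃ j ∈ B, T j) Q m) +
      ∑ j ∈ B, vol P.rat xq (ZL f (T j) Q m) := by
  classical
  induction B using Finset.induction_on with
  | empty =>
    simp only [Finset.notMem_empty, Set.iUnion_of_empty, Set.iUnion_empty, Set.sdiff_empty,
      Finset.sum_empty, add_zero]
  | insert p B hp ih =>
    rw [ih, Finset.sum_insert hp, ← add_assoc]
    congr 1
    have hc : Constructible (Crit0 f \ ⋃ j ∈ insert p B, T j) := by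
      rw [Set.sdiff_eq]
      exact (con_crit f).inter (con_biU T hT (insert p B)).compl
    rw [← vol_ZL P f hc (hT p) ?_ hQ.1 m]
    · congr 2
      ext x
      simp only [Set.mem_sdiff, Set.mem_union, Finset.set_biUnion_insert, not_or]
      constructor
      · rintro ⟨h1, h2⟩
        by_cases hx : x ∈ T p
        · exact Or.inr hx
        · exact Or.inl ⟨h1, hx, h2⟩
      · rintro (⟨h1, -, h2⟩ | hx)
        · exact ⟨h1, h2⟩
        · refine ⟨hC p hx, fun h => ?_⟩
          obtain ⟨j, hj, hxj⟩ := Set.mem_iUnion₂.1 h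
          have hne : p ≠ j := by
            rintro rfl
            exact hp hj
          exact Set.disjoint_left.1 (hd p j hne) hx hxj
    · rw [Set.disjoint_left]
      rintro x ⟨-, hx⟩ hx'
      apply hx
      rw [Finset.set_biUnion_insert]
      exact Or.inl hx'

end DECMAux

open DECMAux SP.POL8Aux

/-- block DECM -/
theorem stmt_DECM (hVOLM : Stmt_VOLM) : Stmt_DECM := by
  classical
  intro P ι β _ _ _ f T hT hC hdis hGd d hd
  obtain ⟨Qmono, Qadd, Qsc, Qfin, -⟩ := stmt_Q1
  set u : K := P.rat.L ^ Fintype.card ι with hu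
  obtain ⟨α, hα⟩ := stmt_SMZ8 P ι f Bool (QE d) (QU_QE d)
  have E1 : ESeq ({1} ∪ EV f) fun m => u * (α * xq ^ m +
      vol P.rat xq (ZL f (Crit0 f \ ⋃ j, T j) (QE d) m)) :=
    Qsc _ _ _ (Qadd _ _ _ (SQV8Aux.eseq_one (Or.inl rfl) _) (hGd P Bool (QE d) (QU_QE d)))
  have key : ∀ m : ℕ, 1 ≤ m → PowerSeries.coeff m (zetaSer1 P.rat xq f d) -
      ∑ j, toRat (P.val (JS f (T j) d m)) * xq ^ (m * Fintype.card ι) =
      u * (α * xq ^ m + vol P.rat xq (ZL f (Crit0 f \ ⋃ j, T j) (QE d) m)) := by
    intro m hm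
    have h0 : (⋃ j ∈ (Finset.univ : Finset β), T j) = ⋃ j, T j := by simp
    rw [DEC14Aux.coeff_eq P f d hα m hm, split_sets P f (QU_QE d) m T hT hC hdis Finset.univ, h0]
    have h1 : ∀ j ∈ (Finset.univ : Finset β),
        toRat (P.val (JS f (T j) d m)) * xq ^ (m * Fintype.card ι) =
        u * vol P.rat xq (ZL f (T j) (QE d) m) := fun j _ => hVOLM P ι f (T j) d m (hT j)
    rw [Finset.sum_congr rfl h1, ← Finset.mul_sum]
    ring
  have F3 : ESeq ({1} ∪ EV f) fun m => if m = 0 then
      PowerSeries.coeff m (zetaSer1 P.rat xq f d) -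
      u * (α * xq ^ m + vol P.rat xq (ZL f (Crit0 f \ ⋃ j, T j) (QE d) m)) else 0 :=
    Qfin _ _ 1 fun m hm => by rw [if_neg (by omega)]
  have h := Qadd _ _ _ E1 F3
  refine (congrArg (ESeq ({1} ∪ EV f)) (funext fun m => ?_)).mp h
  by_cases hm : m = 0
  · simp only [if_pos hm, Finset.sum_const_zero, sub_zero]
    show _ = PowerSeries.coeff m (zetaSer1 P.rat xq f d)
    ring
  · simp only [if_neg hm]
    show _ = PowerSeries.coeff m (zetaSer1 P.rat xq f d) -
      ∑ j, toRat (P.val (JS f (T j) d m)) * xq ^ (m * Fintype.card ι)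
    rw [add_zero, key m (by omega)]

end Pool.Agent.Mono.MG
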