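import Pool.Agent.Work.Monodromy.InterfaceM
import Pool.Agent.Work.Monodromy12.EXCH12

/-!
# Phase M, block EXCHM: the zeta function of `S` at `T = u^{-r}` (helper76)
-/

set_option autoImplicit false

namespace Pool.Agent.Mono.MG

open MvPolynomial Filter Topology NP

namespace EXCHMAux

variable {ι κ : Type} [Fintype ι] [Fintype κ]

/-- `ctS` at `K = mnk + j` -/
theorem ct_add (E : HodgeMeasure) (Y : ι → MvPolynomial ι ℂ) (s : MvPolynomial ι ℂ)
    (w : κ → ι → ℕ) (c : κ → MvPolynomial ι ℂ) (S : Set (ι → ℂ)) (d : ℕ) (u : ℝ) (k : ι → ℕ)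
    (j : ℕ) :
    ctS E Y s w c S d (mnk w k + j) u k = u⁻¹ ^ (∑ i, k i) *
      (if j = 0 then Polynomial.aeval u (E.val (WS Y s w c S (sp k) (fc w k) d))
      else Polynomial.aeval u (E.val (VS Y w c S (sp k) (fc w k))) * (u - 1) * u⁻¹ ^ j) := by
  rw [ctS]
  congr 1
  by_cases hj : j = 0
  · subst hj; simp
  · rw [if_neg (by omega), if_pos (by omega), if_neg hj, Nat.add_sub_cancel_left]

theorem ct_of_lt (E : HodgeMeasure) (Y : ι → MvPolynomial ι ℂ) (s : MvPolynomial ι ℂ)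
    (w : κ → ι → ℕ) (c : κ → MvPolynomial ι ℂ) (S : Set (ι → ℂ)) (d K : ℕ) (u : ℝ) (k : ι → ℕ)
    (h : K < mnk w k) : ctS E Y s w c S d K u k = 0 := by
  rw [ctS, if_neg (by omega), if_neg (by omega), mul_zero]

/-- the double series is summable -/
theorem summable_ct (E : HodgeMeasure) (Y : ι → MvPolynomial ι ℂ) (s : MvPolynomial ι ℂ)
    (w : κ → ι → ℕ) (c : κ → MvPolynomial ι ℂ) (S : Set (ι → ℂ)) (d : ℕ) (u : ℝ) (r : ℕ)
    (hu : 1 < u) :
    Summable fun p : (ι → ℕ) × ℕ => ctS E Y s w c S d p.2 u p.1 * u⁻¹ ^ (p.2 * r) := by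
  classical
  have hr0 : (0 : ℝ) ≤ u⁻¹ := inv_nonneg.2 (by linarith)
  have hr1 : u⁻¹ < 1 := inv_lt_one_of_one_lt₀ hu
  have hinj : Function.Injective fun p : (ι → ℕ) × ℕ => (p.1, mnk w p.1 + p.2) := by
    rintro ⟨k, j⟩ ⟨k', j'⟩ hp
    simp only [Prod.mk.injEq] at hp
    obtain ⟨rfl, h2⟩ := hp
    simp only [Prod.mk.injEq, true_and]
    omega
  rw [← hinj.summable_iff]
  · obtain ⟨C, hC⟩ : ∃ C : ℝ, ∀ q : Finset ι × Finset κ,
        |Polynomial.aeval u (E.val (WS Y s w c S q.1 q.2 d))| +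
          |Polynomial.aeval u (E.val (VS Y w c S q.1 q.2))| ≤ C := by
      obtain ⟨C, hC⟩ := (Set.finite_range fun q : Finset ι × Finset κ =>
        |Polynomial.aeval u (E.val (WS Y s w c S q.1 q.2 d))| +
          |Polynomial.aeval u (E.val (VS Y w c S q.1 q.2))|).bddAbove
      exact ⟨C, fun q => hC ⟨q, rfl⟩⟩
    have hC0 : 0 ≤ C := (add_nonneg (abs_nonneg _) (abs_nonneg _)).trans (hC (∅, ∅))
    refine Summable.of_norm_bounded
      (g := fun p : (ι → ℕ) × ℕ => (C * u) * (u⁻¹ ^ (∑ i, p.1 i) * u⁻¹ ^ p.2)) ?_ ?_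
    · exact ((EXCHAux.summable_pow (ι := ι) u⁻¹ hr0 hr1).mul_of_nonneg
        (summable_geometric_of_lt_one hr0 hr1) (fun k => pow_nonneg hr0 _)
        fun j => pow_nonneg hr0 _).mul_left _
    · rintro ⟨k, j⟩
      simp only [Function.comp_apply]
      rw [ct_add, norm_mul, norm_mul, Real.norm_eq_abs, Real.norm_eq_abs, Real.norm_eq_abs,
        abs_of_nonneg (pow_nonneg hr0 (∑ i, k i)),
        abs_of_nonneg (pow_nonneg hr0 ((mnk w k + j) * r))]
      have h1 : u⁻¹ ^ ((mnk w k + j) * r) ≤ 1 := pow_le_one₀ hr0 hr1.le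
      have h2 : |if j = 0 then Polynomial.aeval u (E.val (WS Y s w c S (sp k) (fc w k) d))
          else Polynomial.aeval u (E.val (VS Y w c S (sp k) (fc w k))) * (u - 1) * u⁻¹ ^ j| ≤
          C * u * u⁻¹ ^ j := by
        have h3 := hC (sp k, fc w k)
        by_cases hj : j = 0
        · rw [if_pos hj, hj, pow_zero, mul_one]
          have h4 : |Polynomial.aeval u (E.val (WS Y s w c S (sp k) (fc w k) d))| ≤ C :=
            le_trans (le_add_of_nonneg_right (abs_nonneg _)) h3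
          nlinarith
        · rw [if_neg hj, abs_mul, abs_mul, abs_of_nonneg (pow_nonneg hr0 j),
            abs_of_nonneg (by linarith : (0 : ℝ) ≤ u - 1)]
          refine mul_le_mul_of_nonneg_right ?_ (pow_nonneg hr0 j)
          have h4 : |Polynomial.aeval u (E.val (VS Y w c S (sp k) (fc w k)))| ≤ C :=
            le_trans (le_add_of_nonneg_left (abs_nonneg _)) h3
          refine mul_le_mul h4 (by linarith) (by linarith) hC0
      calc u⁻¹ ^ (∑ i, k i) *
            |if j = 0 then Polynomial.aeval u (E.val (WS Y s w c S (sp k) (fc w k) d))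
            else Polynomial.aeval u (E.val (VS Y w c S (sp k) (fc w k))) * (u - 1) * u⁻¹ ^ j| *
            u⁻¹ ^ ((mnk w k + j) * r)
          ≤ u⁻¹ ^ (∑ i, k i) * (C * u * u⁻¹ ^ j) * 1 := by
            refine mul_le_mul (mul_le_mul_of_nonneg_left h2 (pow_nonneg hr0 _)) h1
              (pow_nonneg hr0 _) ?_
            have := pow_nonneg hr0 (∑ i, k i)
            have h5 := pow_nonneg hr0 j
            positivity
        _ = C * u * (u⁻¹ ^ (∑ i, k i) * u⁻¹ ^ j) := by ring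
  · rintro ⟨k, K⟩ hK
    have h1 : K < mnk w k := by
      by_contra hcon
      push Not at hcon
      exact hK ⟨(k, K - mnk w k), by simp [Nat.add_sub_cancel' hcon]⟩
    simp only
    rw [ct_of_lt E Y s w c S d K u k h1, zero_mul]

/-- the sum over `K` for fixed `k` -/
theorem hasSum_K (E : HodgeMeasure) (Y : ι → MvPolynomial ι ℂ) (s : MvPolynomial ι ℂ)
    (w : κ → ι → ℕ) (c : κ → MvPolynomial ι ℂ) (S : Set (ι → ℂ)) (d : ℕ) (u : ℝ) (r : ℕ)
    (hu : 1 < u) (k : ι → ℕ) :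
    HasSum (fun K : ℕ => ctS E Y s w c S d K u k * u⁻¹ ^ (K * r))
      (exS E Y s w c S d r u k) := by
  have hr0 : (0 : ℝ) ≤ u⁻¹ := inv_nonneg.2 (by linarith)
  have hr1 : u⁻¹ < 1 := inv_lt_one_of_one_lt₀ hu
  have hu0 : u ≠ 0 := by linarith
  have hinj : Function.Injective fun j : ℕ => mnk w k + j := fun j j' h => by
    simpa using h
  rw [← hinj.hasSum_iff, exS]
  · set W := Polynomial.aeval u (E.val (WS Y s w c S (sp k) (fc w k) d)) with hW
    set V := Polynomial.aeval u (E.val (VS Y w c S (sp k) (fc w k))) with hV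
    have hq1 : u⁻¹ ^ (r + 1) < 1 := pow_lt_one₀ hr0 hr1 (by omega)
    have h1 := (hasSum_geometric_of_lt_one (pow_nonneg hr0 (r + 1)) hq1).mul_left (V * (u - 1))
    have h2 : HasSum (fun j : ℕ => if j = 0 then W - V * (u - 1) else 0) (W - V * (u - 1)) :=
      hasSum_ite_eq 0 _
    have h3 := (h1.add h2).mul_left (u⁻¹ ^ (∑ i, k i + r * mnk w k))
    have h4 : u ^ (r + 1) - 1 ≠ 0 := by
      have := one_lt_pow₀ hu (by omega : r + 1 ≠ 0)
      linarith
    have hval : V * (u - 1) * (1 - u⁻¹ ^ (r + 1))⁻¹ + (W - V * (u - 1)) =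
        W + V * ((u - 1) / (u ^ (r + 1) - 1)) := by
      have h5 : (1 - u⁻¹ ^ (r + 1))⁻¹ = u ^ (r + 1) / (u ^ (r + 1) - 1) := by
        rw [inv_pow]
        field_simp
      rw [h5]
      field_simp
      ring
    rw [hval] at h3
    have h6 : ((fun K : ℕ => ctS E Y s w c S d K u k * u⁻¹ ^ (K * r)) ∘
        fun j : ℕ => mnk w k + j) =
        fun j : ℕ => u⁻¹ ^ (∑ i, k i + r * mnk w k) *
          (V * (u - 1) * (u⁻¹ ^ (r + 1)) ^ j + if j = 0 then W - V * (u - 1) else 0) := by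
      funext j
      simp only [Function.comp_apply]
      rw [ct_add, ← hW, ← hV]
      have h7 : u⁻¹ ^ ((mnk w k + j) * r) = u⁻¹ ^ (r * mnk w k) * u⁻¹ ^ (j * r) := by
        rw [← pow_add]; congr 1; ring
      have h8 : (u⁻¹ ^ (r + 1)) ^ j = u⁻¹ ^ j * u⁻¹ ^ (j * r) := by
        rw [← pow_mul, ← pow_add]; congr 1; ring
      rw [h7, h8, pow_add u⁻¹ (∑ i, k i)]
      by_cases hj : j = 0
      · subst hj
        rw [if_pos rfl, if_pos rfl, pow_zero, zero_mul, pow_zero]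
        ring
      · rw [if_neg hj, if_neg hj]; ring
    rw [h6]
    exact h3
  · intro K hK
    have h1 : K < mnk w k := by
      by_contra hcon
      push Not at hcon
      exact hK ⟨K - mnk w k, by simp [Nat.add_sub_cancel' hcon]⟩
    rw [ct_of_lt E Y s w c S d K u k h1, zero_mul]

end EXCHMAux

open EXCHMAux

theorem stmt_EXCHM (hS : Stmt_SUMKM) : Stmt_EXCHM := by
  intro ι κ _ _ _ _ _ E f S Y s w c d u r hSc hT hd hu
  have hu0 : (0 : ℝ) < u := by linarith
  have key : ∀ r : ℕ, HasSum (fun K : ℕ => Polynomial.aeval u (E.val (JS f S d K)) *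
        u⁻¹ ^ (K * Fintype.card ι) * u⁻¹ ^ (K * r))
      (∑' p : (ι → ℕ) × ℕ, ctS E Y s w c S d p.2 u p.1 * u⁻¹ ^ (p.2 * r)) := by
    intro r
    have h1 := (summable_ct E Y s w c S d u r hu).hasSum
    have h2 : HasSum (fun p : ℕ × (ι → ℕ) => ctS E Y s w c S d p.1 u p.2 * u⁻¹ ^ (p.1 * r))
        (∑' p : (ι → ℕ) × ℕ, ctS E Y s w c S d p.2 u p.1 * u⁻¹ ^ (p.2 * r)) :=
      (Equiv.prodComm ℕ (ι → ℕ)).hasSum_iff.2 h1
    exact h2.prod_fiberwise fun K => (hS ι κ E f S Y s w c d K u hSc hT hd hu).mul_right _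
  refine ⟨?_, ?_⟩
  · have h1 := (key 0).summable.abs
    refine h1.congr fun K => ?_
    rw [mul_zero, pow_zero, mul_one, abs_mul, abs_of_pos (pow_pos (inv_pos.2 hu0) _)]
  · rw [(key r).tsum_eq]
    exact (summable_ct E Y s w c S d u r hu).hasSum.prod_fiberwise fun k =>
      hasSum_K E Y s w c S d u r hu k

end Pool.Agent.Mono.MG
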