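import Pool.Agent.Work.Monodromy.InterfaceM
import Pool.Agent.Work.Monodromy.YM
import Pool.Agent.Work.MonodromyL.RST

/-!
# Phase M, block FAMV: the classes of `VS` over the parts of a partition (helper22)
-/

set_option autoImplicit false

namespace Pool.Agent.Mono.MG

open MvPolynomial NP

namespace FAMVMAux

/-- `ZA` is constructible -/
theorem cons_ZA {ι : Type} [Fintype ι] (Y : ι → MvPolynomial ι ℂ) (A : Finset ι) :
    Constructible (ZA Y A) := by
  unfold ZA
  refine Constructible.all fun i => ?_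
  exact Constructible.iff (Constructible.zero (Y i)) (Constructible.const (i ∈ A))

/-- `VE` is constructible -/
theorem cons_VE {σ α β : Type} [Fintype α] [Fintype β] (g : β → MvPolynomial σ ℂ)
    (w : β → α → ℕ) {S : Set (σ → ℂ)} (hS : Constructible S) : Constructible (VE g w S) := by
  refine Constructible.and (Constructible.comap Sum.inl hS) (Constructible.and
    (Constructible.all fun i => ?_) ?_)
  · have h := Constructible.ne (X (Sum.inr i) : MvPolynomial (σ ⊕ α) ℂ)
    simpa only [eval_X] using h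
  · have h := Constructible.zero (∑ v, rename Sum.inl (g v) *
      ∏ i, (X (Sum.inr i) : MvPolynomial (σ ⊕ α) ℂ) ^ w v i)
    have h2 : {z : σ ⊕ α → ℂ | ∑ v, eval (fun e => z (Sum.inl e)) (g v) *
        ∏ i, z (Sum.inr i) ^ w v i = 0} =
        {z | eval z (∑ v, rename Sum.inl (g v) *
          ∏ i, (X (Sum.inr i) : MvPolynomial (σ ⊕ α) ℂ) ^ w v i) = 0} := by
      ext z
      simp only [Set.mem_ofPred_eq, map_sum, map_mul, map_prod, map_pow, eval_X, eval_rename]
      rfl
    rw [h2]
    exact h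

/-- the classes of the families `VE` over the parts of a partition -/
theorem core (hTORF : Stmt_TORF) (hCTB : Stmt_CTB) (E : EulerMeasure) (σ α β : Type) [Finite σ]
    [Fintype α] [DecidableEq α] [Fintype β] [DecidableEq β] [Nonempty β]
    (g : β → MvPolynomial σ ℂ) (w : β → α → ℕ) (Z : Set (σ → ℂ)) (hZ : Constructible Z) :
    ∃ (n : ℕ) (T : Fin n → Set (σ → ℂ)) (χ : Fin n → ℤ), (∀ j, Constructible (T j)) ∧
      (∀ p, ∃! j, p ∈ T j) ∧ ∀ j, ∀ S : Set (σ → ℂ), Constructible S → S ⊆ T j →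
        Qd (E.val (VE g w (S ∩ Z))) (Fintype.card α + 1 - rk w Finset.univ)
          (χ j * (E.val S).eval 1) := by
  obtain ⟨d, c, hd, hrk, hval⟩ := hTORF α β w
  obtain ⟨n, T, χ, hT, hp, hχ⟩ := hCTB E σ (Fin d) (VE g c Z) (cons_VE g c hZ)
  refine ⟨n, T, χ, hT, hp, fun j S hS hSj => ?_⟩
  have h1 := hval σ g (S ∩ Z) (hS.inter hZ) (Polynomial ℤ) E.toMotivicMeasure
  have hL : E.toMotivicMeasure.L = Polynomial.X := E.line
  have h2 : Fintype.card α + 1 - rk w Finset.univ = Fintype.card α - d := by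
    rw [← hrk]
    omega
  refine ⟨E.val (VE g c (S ∩ Z)), ?_, ?_⟩
  · rw [h2]
    rw [hL] at h1
    exact h1
  · refine E.fubini (VE g c (S ∩ Z)) S (fun i => X (Sum.inl i)) (χ j)
      (cons_VE g c (hS.inter hZ)) hS ?_ ?_
    · intro x hx
      simp only [eval_X]
      exact hx.1.1
    · intro y hy
      rw [← hχ j y (hSj hy)]
      congr 1
      symm
      have hcV : Constructible {t : Fin d → ℂ | (Sum.elim y t : σ ⊕ Fin d → ℂ) ∈ VE g c Z} := by
        have h := Constructible.preimage (fun e : σ ⊕ Fin d =>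
          (Sum.elim (fun i => C (y i)) (fun a => X a) e : MvPolynomial (Fin d) ℂ))
          (cons_VE g c hZ)
        have h3 : {t : Fin d → ℂ | (Sum.elim y t : σ ⊕ Fin d → ℂ) ∈ VE g c Z} =
            {t | (fun e : σ ⊕ Fin d => eval t (Sum.elim (fun i => C (y i)) (fun a => X a) e :
              MvPolynomial (Fin d) ℂ)) ∈ VE g c Z} := by
          ext t
          have h4 : (Sum.elim y t : σ ⊕ Fin d → ℂ) = fun e : σ ⊕ Fin d =>
              eval t (Sum.elim (fun i => C (y i)) (fun a => X a) e :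
                MvPolynomial (Fin d) ℂ) := by
            funext e
            rcases e with i | a <;> simp
          simp only [Set.mem_ofPred_eq]
          rw [h4]
        rw [h3]
        exact h
      have hcF : Constructible {x : σ ⊕ Fin d → ℂ | x ∈ VE g c (S ∩ Z) ∧
          (fun i => eval x (X (Sum.inl i) : MvPolynomial (σ ⊕ Fin d) ℂ)) = y} := by
        refine Constructible.and (cons_VE g c (hS.inter hZ)) ?_
        exact Constructible.preimage (fun i => (X (Sum.inl i) : MvPolynomial (σ ⊕ Fin d) ℂ))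
          (Constructible.point y)
      refine E.toMotivicMeasure.val_of_inv hcV hcF
        (fun e : σ ⊕ Fin d => (Sum.elim (fun i => C (y i)) (fun a => X a) e :
          MvPolynomial (Fin d) ℂ)) (fun x a => x (Sum.inr a)) ?_ ?_ ?_ ?_
      · intro t ht
        have h4 : (fun e : σ ⊕ Fin d =>
              eval t (Sum.elim (fun i => C (y i)) (fun a => X a) e :
                MvPolynomial (Fin d) ℂ)) = (Sum.elim y t : σ ⊕ Fin d → ℂ) := by
            funext e
            rcases e with i | a <;> simp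
        rw [h4]
        refine ⟨⟨⟨hy, ht.1⟩, ht.2⟩, ?_⟩
        funext i
        simp
      · intro x hx
        have h4 : (Sum.elim y (fun a => x (Sum.inr a)) : σ ⊕ Fin d → ℂ) = x := by
          funext e
          rcases e with i | a
          · have h5 := congrFun hx.2 i
            simp only [eval_X] at h5
            simp [h5]
          · simp
        change (Sum.elim y (fun a => x (Sum.inr a)) : σ ⊕ Fin d → ℂ) ∈ VE g c Z
        rw [h4]
        exact ⟨hx.1.1.2, hx.1.2⟩
      · intro t _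
        funext a
        simp
      · intro x hx
        funext e
        rcases e with i | a
        · have h5 := congrFun hx.2 i
          simp only [eval_X] at h5
          simp [h5]
        · simp

/-- the coefficients of the family in the coordinates `y_i`, `i ∈ A` -/
noncomputable def gA {ι κ : Type} [Fintype ι] [DecidableEq ι] (Y : ι → MvPolynomial ι ℂ)
    (w : κ → ι → ℕ) (c : κ → MvPolynomial ι ℂ) (A : Finset ι) (v : κ) : MvPolynomial ι ℂ :=
  c v * ∏ i ∈ Aᶜ, Y i ^ w v i

/-- the sum in the coordinates `y_i`, `i ∈ A` -/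
theorem sum_eq {ι κ : Type} [Fintype ι] [DecidableEq ι] [DecidableEq κ]
    (Y : ι → MvPolynomial ι ℂ) (w : κ → ι → ℕ) (c : κ → MvPolynomial ι ℂ) (A : Finset ι)
    (F : Finset κ) (x y : ι → ℂ) (hy : ∀ i, i ∉ A → y i = eval x (Y i)) :
    ∑ v ∈ F, eval x (c v) * ∏ i, y i ^ w v i =
      ∑ v : F, eval x (gA Y w c A (v : κ)) * ∏ i : A, y (i : ι) ^ wA w A (v : κ) i := by
  rw [← Finset.sum_coe_sort F]
  refine Finset.sum_congr rfl fun v _ => ?_
  have h1 : ∏ i, y i ^ w (v : κ) i = (∏ i ∈ A, y i ^ w (v : κ) i) *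
      ∏ i ∈ Aᶜ, y i ^ w (v : κ) i := (Finset.prod_mul_prod_compl A _).symm
  have h2 : ∏ i ∈ Aᶜ, y i ^ w (v : κ) i = ∏ i ∈ Aᶜ, eval x (Y i) ^ w (v : κ) i :=
    Finset.prod_congr rfl fun i hi => by rw [hy i (Finset.mem_compl.1 hi)]
  have h3 : ∏ i ∈ A, y i ^ w (v : κ) i = ∏ i : A, y (i : ι) ^ wA w A (v : κ) i :=
    (Finset.prod_coe_sort A (fun i => y i ^ w (v : κ) i)).symm
  rw [h1, h2, h3, gA, map_mul, map_prod]
  simp only [map_pow]
  ring

/-- extension of the coordinates -/
noncomputable def exY {ι : Type} [DecidableEq ι] (Y : ι → MvPolynomial ι ℂ) (A : Finset ι)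
    (x : ι → ℂ) (y : A → ℂ) (i : ι) : ℂ := if h : i ∈ A then y ⟨i, h⟩ else eval x (Y i)

theorem exY_mem {ι : Type} [DecidableEq ι] (Y : ι → MvPolynomial ι ℂ) (A : Finset ι)
    (x : ι → ℂ) (y : A → ℂ) (i : A) : exY Y A x y (i : ι) = y i := by
  simp [exY]

theorem exY_not {ι : Type} [DecidableEq ι] (Y : ι → MvPolynomial ι ℂ) (A : Finset ι)
    (x : ι → ℂ) (y : A → ℂ) (i : ι) (h : i ∉ A) : exY Y A x y i = eval x (Y i) := by
  simp [exY, h]

/-- `VS` is constructible -/
theorem cons_VS {ι κ : Type} [Fintype ι] [DecidableEq ι] [Fintype κ] [DecidableEq κ]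
    (Y : ι → MvPolynomial ι ℂ) (w : κ → ι → ℕ) (c : κ → MvPolynomial ι ℂ) {S : Set (ι → ℂ)}
    (hS : Constructible S) (A : Finset ι) (F : Finset κ) : Constructible (VS Y w c S A F) := by
  refine Constructible.and (Constructible.comap Sum.inl hS) (Constructible.and
    (Constructible.comap Sum.inl (cons_ZA Y A)) (Constructible.and
    (Constructible.all fun i => ?_) (Constructible.and (Constructible.all fun i => ?_) ?_)))
  · have h := Constructible.ne (X (Sum.inr i) : MvPolynomial (ι ⊕ ι) ℂ)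
    simpa only [eval_X] using h
  · refine Constructible.imp (Constructible.const _) ?_
    have h := Constructible.eq (X (Sum.inr i) : MvPolynomial (ι ⊕ ι) ℂ) (rename Sum.inl (Y i))
    simpa only [eval_X, eval_rename, Function.comp_def] using h
  · have h := Constructible.zero (∑ v ∈ F, rename Sum.inl (c v) *
      ∏ i, (X (Sum.inr i) : MvPolynomial (ι ⊕ ι) ℂ) ^ w v i)
    simpa only [map_sum, map_mul, map_prod, map_pow, eval_X, eval_rename, Function.comp_def]
      using h

/-- the class of `VS` -/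
theorem val_VS {ι κ : Type} [Fintype ι] [DecidableEq ι] [Fintype κ] [DecidableEq κ]
    {R : Type} [CommRing R] (μ : MotivicMeasure R)
    (Y : ι → MvPolynomial ι ℂ) (w : κ → ι → ℕ) (c : κ → MvPolynomial ι ℂ) {S : Set (ι → ℂ)}
    (hS : Constructible S) (A : Finset ι) (F : Finset κ) :
    μ.val (VS Y w c S A F) = μ.val (VE (fun v : F => gA Y w c A (v : κ))
      (fun v : F => wA w A (v : κ)) (S ∩ ZA Y A)) := by
  refine μ.val_of_inv (cons_VS Y w c hS A F) (cons_VE _ _ (hS.inter (cons_ZA Y A)))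
    (Sum.elim (fun i => X (Sum.inl i)) (fun a : A => X (Sum.inr (a : ι))))
    (fun z => Sum.elim (fun i => z (Sum.inl i))
      (exY Y A (fun i => z (Sum.inl i)) (fun a => z (Sum.inr a)))) ?_ ?_ ?_ ?_
  · rintro z ⟨h1, h2, h3, h4, h5⟩
    refine ⟨?_, fun a => ?_, ?_⟩
    · simp only [Sum.elim_inl, eval_X]
      exact ⟨h1, h2⟩
    · simp only [Sum.elim_inr, eval_X]
      exact h3 _
    · simp only [Sum.elim_inl, Sum.elim_inr, eval_X]
      rw [← sum_eq Y w c A F (fun i => z (Sum.inl i)) (fun i => z (Sum.inr i)) h4]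
      exact h5
  · rintro z ⟨⟨h1, h2⟩, h3, h4⟩
    have hne : ∀ i, exY Y A (fun i => z (Sum.inl i)) (fun a => z (Sum.inr a)) i ≠ 0 := by
      intro i
      by_cases hi : i ∈ A
      · have h := exY_mem Y A (fun i => z (Sum.inl i)) (fun a => z (Sum.inr a)) ⟨i, hi⟩
        rw [show exY Y A (fun i => z (Sum.inl i)) (fun a => z (Sum.inr a)) i =
          z (Sum.inr ⟨i, hi⟩) from h]
        exact h3 _
      · rw [exY_not _ _ _ _ _ hi]
        exact fun h => hi ((h2 i).1 h)
    refine ⟨h1, h2, hne, fun i hi => ?_, ?_⟩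
    · exact exY_not Y A (fun i => z (Sum.inl i)) (fun a => z (Sum.inr a)) i hi
    · change ∑ v ∈ F, eval (fun i => z (Sum.inl i)) (c v) *
        ∏ i, exY Y A (fun i => z (Sum.inl i)) (fun a => z (Sum.inr a)) i ^ w v i = 0
      rw [sum_eq Y w c A F (fun i => z (Sum.inl i)) _ (exY_not Y A _ _)]
      simp only [exY_mem]
      exact h4
  · rintro z ⟨h1, h2, h3, h4, h5⟩
    funext e
    rcases e with i | i
    · simp
    · simp only [Sum.elim_inr, Sum.elim_inl, eval_X]
      by_cases hi : i ∈ A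
      · exact exY_mem Y A (fun i => z (Sum.inl i)) (fun a : A => z (Sum.inr (a : ι))) ⟨i, hi⟩
      · rw [exY_not _ _ _ _ _ hi]
        exact (h4 i hi).symm
  · rintro z ⟨⟨h1, h2⟩, h3, h4⟩
    funext e
    rcases e with i | a
    · simp
    · simp only [Sum.elim_inr, eval_X]
      exact exY_mem Y A _ _ a

end FAMVMAux

open FAMVMAux in
theorem stmt_FAMV (hTORF : Stmt_TORF) (hCTB : Stmt_CTB) : Stmt_FAMV := by
  intro E ι κ _ _ _ _ Y w c A F hF
  have : Nonempty F := hF.to_subtype
  obtain ⟨n, T, χ, hT, hp, h⟩ := core hTORF hCTB E ι A F (fun v : F => gA Y w c A (v : κ))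
    (fun v : F => wA w A (v : κ)) (ZA Y A) (cons_ZA Y A)
  refine ⟨n, T, χ, hT, hp, fun j S hS hSj => ?_⟩
  have h1 := h j S hS hSj
  rw [LO.RSTAux.rk_res (wA w A) F, Fintype.card_coe] at h1
  rw [val_VS E.toMotivicMeasure Y w c hS A F]
  exact h1

end Pool.Agent.Mono.MG
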