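import Pool.Agent.Work.MonodromyM.FAMV
import Pool.Agent.Work.Monodromy12.PYRC12

/-!
# Phase M, block FAMW: the classes of `WS` over the parts of a partition (helper22)
-/

set_option autoImplicit false

namespace Pool.Agent.Mono.MG

open MvPolynomial NP

namespace FAMWMAux

open FAMVMAux

/-- `WS` is constructible -/
theorem cons_WS {ι κ : Type} [Fintype ι] [DecidableEq ι] [Fintype κ] [DecidableEq κ]
    (Y : ι → MvPolynomial ι ℂ) (s : MvPolynomial ι ℂ) (w : κ → ι → ℕ)
    (c : κ → MvPolynomial ι ℂ) {S : Set (ι → ℂ)} (hS : Constructible S) (A : Finset ι)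
    (F : Finset κ) (d : ℕ) : Constructible (WS Y s w c S A F d) := by
  refine Constructible.and (Constructible.comap (fun i => Sum.inl (Sum.inl i)) hS)
    (Constructible.and (Constructible.comap (fun i => Sum.inl (Sum.inl i)) (cons_ZA Y A))
    (Constructible.and (Constructible.all fun i => ?_) (Constructible.and
    (Constructible.all fun i => ?_) (Constructible.and ?_ ?_))))
  · have h := Constructible.ne (X (Sum.inl (Sum.inr i)) : MvPolynomial ((ι ⊕ ι) ⊕ Unit) ℂ)
    simpa only [eval_X] using h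
  · refine Constructible.imp (Constructible.const _) ?_
    have h := Constructible.eq (X (Sum.inl (Sum.inr i)) : MvPolynomial ((ι ⊕ ι) ⊕ Unit) ℂ)
      (rename (fun i => Sum.inl (Sum.inl i)) (Y i))
    simpa only [eval_X, eval_rename, Function.comp_def] using h
  · have h := Constructible.ne (X (Sum.inr ()) : MvPolynomial ((ι ⊕ ι) ⊕ Unit) ℂ)
    simpa only [eval_X] using h
  · have h := Constructible.eq (rename (fun i => Sum.inl (Sum.inl i)) s *
      (X (Sum.inr ()) : MvPolynomial ((ι ⊕ ι) ⊕ Unit) ℂ) ^ d)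
      (∑ v ∈ F, rename (fun i => Sum.inl (Sum.inl i)) (c v) *
      ∏ i, (X (Sum.inl (Sum.inr i)) : MvPolynomial ((ι ⊕ ι) ⊕ Unit) ℂ) ^ w v i)
    simpa only [map_sum, map_mul, map_prod, map_pow, eval_X, eval_rename, Function.comp_def]
      using h

/-- the coefficients with the apex -/
noncomputable def gW {ι κ : Type} [Fintype ι] [DecidableEq ι] (Y : ι → MvPolynomial ι ℂ)
    (s : MvPolynomial ι ℂ) (w : κ → ι → ℕ) (c : κ → MvPolynomial ι ℂ) (A : Finset ι)
    (F : Finset κ) : F ⊕ Unit → MvPolynomial ι ℂ :=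
  Sum.elim (fun v => gA Y w c A (v : κ)) fun _ => -s

/-- the equation of the cover -/
theorem sum_pyr {ι κ : Type} [Fintype ι] [DecidableEq ι] [Fintype κ] [DecidableEq κ]
    (Y : ι → MvPolynomial ι ℂ) (s : MvPolynomial ι ℂ) (w : κ → ι → ℕ)
    (c : κ → MvPolynomial ι ℂ) (A : Finset ι) (F : Finset κ) (d : ℕ) (x : ι → ℂ)
    (y : A ⊕ Unit → ℂ) :
    ∑ v, eval x (gW Y s w c A F v) * ∏ i, y i ^ pyr (fun v : F => wA w A (v : κ)) d v i =
      ∑ v : F, eval x (gA Y w c A (v : κ)) * ∏ i : A, y (Sum.inl i) ^ wA w A (v : κ) i -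
        eval x s * y (Sum.inr ()) ^ d := by
  rw [Fintype.sum_sum_type]
  simp only [Fintype.prod_sum_type, gW, pyr, Sum.elim_inl, Sum.elim_inr, pow_zero,
    Finset.prod_const_one, mul_one, one_mul, Finset.univ_unique, Finset.sum_singleton,
    Finset.prod_singleton, map_neg, neg_mul]
  rw [sub_eq_add_neg]

/-- the class of `WS` -/
theorem val_WS {ι κ : Type} [Fintype ι] [DecidableEq ι] [Fintype κ] [DecidableEq κ]
    {R : Type} [CommRing R] (μ : MotivicMeasure R)
    (Y : ι → MvPolynomial ι ℂ) (s : MvPolynomial ι ℂ) (w : κ → ι → ℕ)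
    (c : κ → MvPolynomial ι ℂ) {S : Set (ι → ℂ)} (hS : Constructible S) (A : Finset ι)
    (F : Finset κ) (d : ℕ) :
    μ.val (WS Y s w c S A F d) = μ.val (VE (gW Y s w c A F)
      (pyr (fun v : F => wA w A (v : κ)) d) (S ∩ ZA Y A)) := by
  refine μ.val_of_inv (cons_WS Y s w c hS A F d) (cons_VE _ _ (hS.inter (cons_ZA Y A)))
    (Sum.elim (fun i => X (Sum.inl (Sum.inl i)))
      (Sum.elim (fun a : A => X (Sum.inl (Sum.inr (a : ι)))) fun _ => X (Sum.inr ())))
    (fun z => Sum.elim (Sum.elim (fun i => z (Sum.inl i))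
      (exY Y A (fun i => z (Sum.inl i)) (fun a => z (Sum.inr (Sum.inl a)))))
      fun _ => z (Sum.inr (Sum.inr ()))) ?_ ?_ ?_ ?_
  · rintro z ⟨h1, h2, h3, h4, h5, h6⟩
    refine ⟨?_, fun a => ?_, ?_⟩
    · simp only [Sum.elim_inl, eval_X]
      exact ⟨h1, h2⟩
    · rcases a with a | ⟨⟩
      · simp only [Sum.elim_inr, Sum.elim_inl, eval_X]
        exact h3 _
      · simp only [Sum.elim_inr, eval_X]
        exact h5
    · rw [sum_pyr]
      simp only [Sum.elim_inl, Sum.elim_inr, eval_X]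
      rw [← sum_eq Y w c A F (fun i => z (Sum.inl (Sum.inl i)))
        (fun i => z (Sum.inl (Sum.inr i))) h4, sub_eq_zero]
      exact h6.symm
  · rintro z ⟨⟨h1, h2⟩, h3, h4⟩
    have hne : ∀ i, exY Y A (fun i => z (Sum.inl i)) (fun a => z (Sum.inr (Sum.inl a))) i ≠ 0 := by
      intro i
      by_cases hi : i ∈ A
      · have h := exY_mem Y A (fun i => z (Sum.inl i)) (fun a => z (Sum.inr (Sum.inl a))) ⟨i, hi⟩
        rw [show exY Y A (fun i => z (Sum.inl i)) (fun a => z (Sum.inr (Sum.inl a))) i =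
          z (Sum.inr (Sum.inl ⟨i, hi⟩)) from h]
        exact h3 _
      · rw [exY_not _ _ _ _ _ hi]
        exact fun h => hi ((h2 i).1 h)
    refine ⟨h1, h2, hne, fun i hi => ?_, h3 (Sum.inr ()), ?_⟩
    · exact exY_not Y A (fun i => z (Sum.inl i)) (fun a => z (Sum.inr (Sum.inl a))) i hi
    · change eval (fun i => z (Sum.inl i)) s * z (Sum.inr (Sum.inr ())) ^ d =
        ∑ v ∈ F, eval (fun i => z (Sum.inl i)) (c v) *
        ∏ i, exY Y A (fun i => z (Sum.inl i)) (fun a => z (Sum.inr (Sum.inl a))) i ^ w v i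
      rw [sum_eq Y w c A F (fun i => z (Sum.inl i)) _ (exY_not Y A _ _)]
      simp only [exY_mem]
      rw [sum_pyr Y s w c A F d (fun i => z (Sum.inl i)) (fun a => z (Sum.inr a)),
        sub_eq_zero] at h4
      exact h4.symm
  · rintro z ⟨h1, h2, h3, h4, h5, h6⟩
    funext e
    rcases e with (i | i) | ⟨⟩
    · simp
    · simp only [Sum.elim_inr, Sum.elim_inl, eval_X]
      by_cases hi : i ∈ A
      · exact exY_mem Y A (fun i => z (Sum.inl (Sum.inl i)))
          (fun a : A => z (Sum.inl (Sum.inr (a : ι)))) ⟨i, hi⟩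
      · rw [exY_not _ _ _ _ _ hi]
        exact (h4 i hi).symm
    · simp
  · rintro z ⟨⟨h1, h2⟩, h3, h4⟩
    funext e
    rcases e with i | a | ⟨⟩
    · simp
    · simp only [Sum.elim_inr, Sum.elim_inl, eval_X]
      exact exY_mem Y A _ _ a
    · simp

end FAMWMAux

open FAMVMAux FAMWMAux in
theorem stmt_FAMW (hTORF : Stmt_TORF) (hCTB : Stmt_CTB) (_hPYRC : NP.Stmt_PYRC) :
    Stmt_FAMW := by
  intro E ι κ _ _ _ _ Y s w c A F d hF hd
  have : Nonempty F := hF.to_subtype
  obtain ⟨n, T, χ, hT, hp, h⟩ := core hTORF hCTB E ι (A ⊕ Unit) (F ⊕ Unit)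
    (gW Y s w c A F) (pyr (fun v : F => wA w A (v : κ)) d) (ZA Y A) (cons_ZA Y A)
  refine ⟨n, T, χ, hT, hp, fun j S hS hSj => ?_⟩
  have h1 := h j S hS hSj
  have h2 := NP.PYRCAux.rk_pyr (fun v : F => wA w A (v : κ)) d hd Finset.univ
  have h3 : NP.PYRCAux.pF (Finset.univ : Finset F) = Finset.univ := by
    ext a
    rcases a with a | ⟨⟩
    · simp [NP.PYRCAux.mem_pF_inl]
    · simp [NP.PYRCAux.pF]
  rw [h3] at h2
  rw [h2, LO.RSTAux.rk_res (wA w A) F, Fintype.card_sum, Fintype.card_coe, Fintype.card_unit] at h1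
  rw [val_WS E.toMotivicMeasure Y s w c hS A F d]
  have h4 : A.card + 1 + 1 - (rk (wA w A) F + 1) = A.card + 1 - rk (wA w A) F := by omega
  rw [h4] at h1
  exact h1

end Pool.Agent.Mono.MG
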