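import Pool.Agent.Work.Monodromy.InterfaceM
import Pool.Agent.Work.Monodromy8.ISO8
import Pool.Agent.Work.Monodromy8.RNK8
import Pool.Agent.Work.Monodromy9.RNK9
import Pool.Agent.Work.Monodromy14.GLU14
import Pool.Agent.Work.MonodromyL.ASML

/-!
# Phase M: the theorem from the blocks (helper17)
-/

set_option autoImplicit false
set_option linter.unusedSectionVars false

namespace Pool.Agent.Mono.MG

open MvPolynomial Filter Topology NP

namespace FINMAux

open FinalAux LO.ASMLAux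

variable {ι κ : Type} [Fintype ι] [DecidableEq ι] [Fintype κ] [DecidableEq κ]

theorem tch_mono {f : MvPolynomial ι ℂ} {S T : Set (ι → ℂ)} {Y : ι → MvPolynomial ι ℂ}
    {s : MvPolynomial ι ℂ} {w : κ → ι → ℕ} {c : κ → MvPolynomial ι ℂ} (h : TCh f S Y s w c)
    (hT : T ⊆ S) : TCh f T Y s w c :=
  ⟨h.eq, fun x hx => h.det x (hT hx), fun x hx => h.s0 x (hT hx), fun x hx => h.nd x (hT hx)⟩

/-- the points of corank at least three -/
def N3 (f : MvPolynomial ι ℂ) : Set (ι → ℂ) :=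
  {p | p ∈ SP.Crit0 f ∧ (SP.Hs f p).rank + 2 < Fintype.card ι}

theorem con_N3 (f : MvPolynomial ι ℂ) : Constructible (N3 f) := by
  have h1 : N3 f = SP.Crit0 f ∩ {p | ∀ Z : Finset ι, Fintype.card ι ≤ Z.card + 2 →
      eval p ((Matrix.of fun a b : Z => pderiv (a : ι) (pderiv (b : ι) f)).det) = 0} := by
    have hev : ∀ (p : ι → ℂ) (Z : Finset ι),
        eval p ((Matrix.of fun a b : Z => pderiv (a : ι) (pderiv (b : ι) f)).det) =
          (SP.HZ f Z p).det := by
      intro p Z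
      rw [RingHom.map_det]
      rfl
    ext p
    constructor
    · rintro ⟨hp, hr⟩
      refine ⟨hp, fun Z hZ => ?_⟩
      rw [hev]
      by_contra hne
      have := C9.RNK9Aux.rank_sub (SP.Hs f p) Z hne
      omega
    · rintro ⟨hp, hr⟩
      refine ⟨hp, ?_⟩
      by_contra hc
      push Not at hc
      obtain ⟨Z, hZ, hZr⟩ := SP.stmt_RNK8 ι f p
      have h2 := hr Z (by omega)
      rw [hev] at h2
      exact hZ h2
  rw [h1]
  refine (SP.MAIN8Aux.con_crit f).inter ?_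
  refine Constructible.all fun Z => ?_
  by_cases hZ : Fintype.card ι ≤ Z.card + 2
  · simp only [hZ, true_imp_iff]
    exact Constructible.zero _
  · simp only [hZ, false_imp_iff]
    exact Constructible.univ

/-- `S` is covered by finitely many disjoint pieces on which the local zeta functions agree -/
def Pcs (E : EulerMeasure) (f : MvPolynomial ι ℂ) (e : ℕ) (S : Set (ι → ℂ)) : Prop :=
  ∃ (β : Type) (_ : Fintype β) (T : β → Set (ι → ℂ)) (x : β → ι → ℂ),
    (∀ j, Constructible (T j)) ∧ (∀ p ∈ S, ∃ j, p ∈ T j) ∧ (∀ i j, i ≠ j → Disjoint (T i) (T j)) ∧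
    (∀ j, T j ⊆ S) ∧ (∀ j, x j ∈ T j) ∧
    ∀ j, SmL (Fintype.card ι) (fun d m => E.val (JS f (T j) d m)) ∧
      ∀ r : ℕ, Tendsto (fun u : ℝ =>
        zL (Fintype.card ι) (fun d m => E.val (JS f (T j) d m)) e r u -
          (((E.val (T j)).eval 1 : ℤ) : ℝ) *
            zL (Fintype.card ι) (fun d m => E.val (JS f {x j} d m)) e r u) (𝓝[>] 1) (𝓝 0)

theorem pcs_union {E : EulerMeasure} {f : MvPolynomial ι ℂ} {e : ℕ} {S S' : Set (ι → ℂ)}
    (hd : Disjoint S S') (h : Pcs E f e S) (h' : Pcs E f e S') : Pcs E f e (S ∪ S') := by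
  obtain ⟨β, _, T, x, h1, h2, h3, h4, h5, h6⟩ := h
  obtain ⟨β', _, T', x', h1', h2', h3', h4', h5', h6'⟩ := h'
  refine ⟨β ⊕ β', inferInstance, Sum.elim T T', Sum.elim x x', ?_, ?_, ?_, ?_, ?_, ?_⟩
  · rintro (j | j)
    · exact h1 j
    · exact h1' j
  · rintro p (hp | hp)
    · obtain ⟨j, hj⟩ := h2 p hp
      exact ⟨Sum.inl j, hj⟩
    · obtain ⟨j, hj⟩ := h2' p hp
      exact ⟨Sum.inr j, hj⟩
  · rintro (i | i) (j | j) hij
    · exact h3 i j fun h => hij (by rw [h])
    · exact (hd.mono (h4 i) (h4' j))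
    · exact (hd.mono (h4 j) (h4' i)).symm
    · exact h3' i j fun h => hij (by rw [h])
  · rintro (j | j)
    · exact (h4 j).trans Set.subset_union_left
    · exact (h4' j).trans Set.subset_union_right
  · rintro (j | j)
    · exact h5 j
    · exact h5' j
  · rintro (j | j)
    · exact h6 j
    · exact h6' j

theorem pcs_empty {E : EulerMeasure} {f : MvPolynomial ι ℂ} {e : ℕ} : Pcs E f e ∅ := by
  refine ⟨Empty, inferInstance, fun j => j.elim, fun j => j.elim, fun j => j.elim, ?_,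
    fun i => i.elim, fun j => j.elim, fun j => j.elim, fun j => j.elim⟩
  intro p hp
  exact absurd hp (Set.notMem_empty p)

/-- a region with a chart -/
theorem pcs_chart (hPCS : Stmt_PCS) (E : EulerMeasure) {f : MvPolynomial ι ℂ} {e : ℕ}
    (he : 1 ≤ e) {κ : Type} [Fintype κ] [DecidableEq κ] [Nonempty κ] {S : Set (ι → ℂ)}
    {Y : ι → MvPolynomial ι ℂ} {s : MvPolynomial ι ℂ} {w : κ → ι → ℕ}
    {c : κ → MvPolynomial ι ℂ} (hS : Constructible S) (h : TCh f S Y s w c)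
    (h0 : ∀ x ∈ S, eval x f = 0) : Pcs E f e S := by
  obtain ⟨n, T, x, h1, h2, h3, h4, h5⟩ := hPCS E ι κ f S Y s w c e he hS h h0
  refine ⟨Fin n, inferInstance, T, x, h1, fun p hp => (h2 p hp).exists, ?_, h3, h4, h5⟩
  intro i j hij
  rw [Set.disjoint_left]
  intro p hp hp'
  exact hij ((h2 p (h3 i hp)).unique hp hp')

/-- finitely many regions -/
theorem pcs_finset (hPCS : Stmt_PCS) (E : EulerMeasure) {f : MvPolynomial ι ℂ} {e : ℕ}
    (he : 1 ≤ e) (σ : (ι → ℂ) → MvPolynomial ι ℂ) (B : Finset (ι → ℂ))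
    (hB : ∀ q ∈ B, ∃ (κ : Type) (_ : Fintype κ) (_ : DecidableEq κ) (Y : ι → MvPolynomial ι ℂ)
      (s : MvPolynomial ι ℂ) (w : κ → ι → ℕ) (c : κ → MvPolynomial ι ℂ), Nonempty κ ∧
        TCh f {x | eval x (σ q) ≠ 0} Y s w c) :
    ∀ S : Set (ι → ℂ), Constructible S → (∀ x ∈ S, eval x f = 0) →
      (∀ x ∈ S, ∃ q ∈ B, eval x (σ q) ≠ 0) → Pcs E f e S := by
  classical
  induction B using Finset.induction_on with
  | empty =>
    intro S _ _ h
    have : S = ∅ := by
      rw [Set.eq_empty_iff_forall_notMem]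
      intro x hx
      obtain ⟨q, hq, -⟩ := h x hx
      exact absurd hq (Finset.notMem_empty q)
    rw [this]
    exact pcs_empty
  | insert q B hq ih =>
    intro S hS h0 h
    have hz : Constructible {x : ι → ℂ | eval x (σ q) = 0} := Constructible.zero _
    have e1 : S = (S ∩ {x | eval x (σ q) = 0}ᶜ) ∪ (S ∩ {x | eval x (σ q) = 0}) := by
      rw [← Set.inter_union_distrib_left, Set.compl_union_self, Set.inter_univ]
    rw [e1]
    refine pcs_union ?_ ?_ ?_
    · rw [Set.disjoint_left]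
      exact fun x hx hx' => hx.2 hx'.2
    · obtain ⟨κ, _, _, Y, s, w, c, _, hch⟩ := hB q (Finset.mem_insert_self q B)
      refine pcs_chart hPCS E he (hS.inter hz.compl) (tch_mono hch ?_) fun x hx => h0 x hx.1
      exact fun x hx => hx.2
    · refine ih (fun q' hq' => hB q' (Finset.mem_insert_of_mem hq')) _ (hS.inter hz)
        (fun x hx => h0 x hx.1) ?_
      rintro x ⟨hx, hxq⟩
      obtain ⟨q', hq', hne⟩ := h x hx
      rcases Finset.mem_insert.1 hq' with rfl | hq'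
      · exact absurd hxq hne
      · exact ⟨q', hq', hne⟩

end FINMAux

open FinalAux LO.ASMLAux FINMAux GLU14Aux in
/-- **FINM** -/
theorem stmt_FINM (hGLU : Stmt_GLU14) (hFIN : Stmt_FIN14) (hOPN : Stmt_OPN) (hCHX : Stmt_CHX)
    (hPCS : Stmt_PCS) (hPTLM : Stmt_PTLM) (hGDM : Stmt_GDM) (hDECM : Stmt_DECM)
    (hQCM : Stmt_QCM) : Stmt_FINM := by
  classical
  intro E ι _ _ f e R hf hc he hR
  -- the isolated points
  set B₀ : Finset (ι → ℂ) := (hFIN ι f).toFinset with hB₀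
  have hB₀mem : ∀ p, p ∈ B₀ ↔ p ∈ SP.Crit0 f ∧ Iso0 f p := fun p => by
    rw [hB₀, Set.Finite.mem_toFinset]
    rfl
  -- the points of corank at least three which are not isolated
  set N : Set (ι → ℂ) := N3 f \ (B₀ : Set (ι → ℂ)) with hN
  have hNc : Constructible N := by
    rw [hN, Set.sdiff_eq]
    exact (con_N3 f).inter (SP.MAIN8Aux.con_fin B₀.finite_toSet).compl
  have hNcrit : ∀ p ∈ N, p ∈ SP.Crit0 f := fun p hp => hp.1.1
  have hNpar : ∀ p ∈ N, IsNondegenerateInParametersAt f p := by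
    rintro p ⟨⟨hp, hr⟩, hpB⟩
    have hpB' : ¬ Iso0 f p := fun h => hpB ((hB₀mem p).2 ⟨hp, h⟩)
    rcases hc p hp with h | ⟨r, h⟩ | h | h
    · omega
    · exfalso
      obtain ⟨s, hs, hiso⟩ := SP.stmt_ISO8 ι f p r hp.2 h
      exact hpB' ⟨s, hs, fun q hq => hiso q hq.2⟩
    · exact absurd h.1 hpB'
    · exact h
  -- charts
  have hch : ∀ p : ι → ℂ, ∃ σ : MvPolynomial ι ℂ, p ∈ N → eval p σ ≠ 0 ∧
      ∃ (κ : Type) (_ : Fintype κ) (_ : DecidableEq κ) (Y : ι → MvPolynomial ι ℂ)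
      (s : MvPolynomial ι ℂ) (w : κ → ι → ℕ) (c : κ → MvPolynomial ι ℂ), Nonempty κ ∧
        TCh f {x | eval x σ ≠ 0} Y s w c := by
    intro p
    by_cases hp : p ∈ N
    · obtain ⟨-, κ, i1, i2, Y, s, w, c, hne, hch⟩ := hCHX ι f p (hNpar p hp)
      obtain ⟨σ, hσ, hσ'⟩ := hOPN ι κ f p Y s w c hch
      exact ⟨σ, fun _ => ⟨hσ, κ, i1, i2, Y, s, w, c, hne, hσ'⟩⟩
    · exact ⟨0, fun h => absurd h hp⟩
  choose σ hσ using hch
  obtain ⟨B₁, hB₁, hcov⟩ := hQCM ι N σ fun p hp => (hσ p hp).1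
  obtain ⟨β, _, T, x, hT1, hT2, hT3, hT4, hT5, hT6⟩ := pcs_finset hPCS E he σ B₁
    (fun q hq => (hσ q (hB₁ q hq)).2) N hNc (fun p hp => (hNcrit p hp).1) hcov
  -- the isolated nondegenerate points
  set B₂ : Finset (ι → ℂ) := B₀.filter fun p => IsNondegenerateAt f p with hB₂
  have hB₂mem : ∀ p, p ∈ B₂ ↔ p ∈ SP.Crit0 f ∧ Iso0 f p ∧ IsNondegenerateAt f p := fun p => by
    rw [hB₂, Finset.mem_filter, hB₀mem, and_assoc]
  -- the data of the pieces
  have hx : ∀ j, ∃ V : RatFunc ℚ, LO.GPo f V ∧ ∀ᶠ r : ℕ in atTop, Tendsto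
      (zL (Fintype.card ι) (fun d m => E.val (JS f {x j} d m)) e r) (𝓝[>] 1)
        (𝓝 ((((V.eval (RingHom.id ℚ) (r : ℚ) : ℚ)) : ℝ))) := by
    intro j
    have hxN : x j ∈ N := hT4 j (hT5 j)
    exact (hPTLM E ι f (x j) e hf (hNcrit _ hxN) (hCHX ι f _ (hNpar _ hxN)).1 he).2
  choose V hV1 hV2 using hx
  have hy : ∀ p : B₂, SmL (Fintype.card ι) (fun d m => E.val (JS f {(p : ι → ℂ)} d m)) ∧
      ∃ V : RatFunc ℚ, LO.GPo f V ∧ ∀ᶠ r : ℕ in atTop, Tendsto
      (zL (Fintype.card ι) (fun d m => E.val (JS f {(p : ι → ℂ)} d m)) e r) (𝓝[>] 1)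
        (𝓝 ((((V.eval (RingHom.id ℚ) (r : ℚ) : ℚ)) : ℝ))) := by
    intro p
    have hp := (hB₂mem p).1 p.2
    exact hPTLM E ι f p e hf hp.1 hp.2.2 he
  choose hy1 V' hV'1 hV'2 using hy
  set T' : β ⊕ B₂ → Set (ι → ℂ) := Sum.elim T fun p => {(p : ι → ℂ)} with hT'
  set W : β ⊕ B₂ → RatFunc ℚ :=
    Sum.elim (fun j => RatFunc.C (((E.val (T j)).eval 1 : ℤ) : ℚ) * V j) V' with hW
  have hT'c : ∀ j, Constructible (T' j) := by
    rintro (j | p)
    · exact hT1 j
    · exact SP.MAIN8Aux.con_fin (Set.finite_singleton _)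
  have hT'crit : ∀ j, T' j ⊆ SP.Crit0 f := by
    rintro (j | p)
    · exact fun q hq => hNcrit q (hT4 j hq)
    · rintro q rfl
      exact ((hB₂mem _).1 p.2).1
  have hdis : ∀ (j : β) (p : B₂), Disjoint (T j) {(p : ι → ℂ)} := by
    intro j p
    rw [Set.disjoint_singleton_right]
    intro hp
    have h1 := (hT4 j hp).2
    exact h1 (Finset.mem_coe.2 ((hB₀mem _).2 ⟨((hB₂mem _).1 p.2).1, ((hB₂mem _).1 p.2).2.1⟩))
  have hT'd : ∀ i j, i ≠ j → Disjoint (T' i) (T' j) := by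
    rintro (i | p) (j | q) hij
    · exact hT3 i j fun h => hij (by rw [h])
    · exact hdis i q
    · exact (hdis j p).symm
    · simp only [hT', Sum.elim_inr]
      rw [Set.disjoint_singleton]
      exact fun h => hij (by rw [Subtype.ext h])
  have hUc : Constructible (⋃ j, T' j) := by
    have h1 : (⋃ j, T' j) = {q | ∀ j, q ∈ (T' j)ᶜ}ᶜ := by
      ext q
      rw [Set.mem_iUnion, Set.mem_compl_iff]
      exact ⟨fun ⟨j, hj⟩ h => h j hj, fun h => by
        by_contra hc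
        exact h fun j hj => hc ⟨j, hj⟩⟩
    rw [h1]
    exact (Constructible.all fun j => (hT'c j).compl).compl
  have hGd : C9.Gd f (SP.Crit0 f \ ⋃ j, T' j) := by
    refine hGDM ι f hf _ ?_ Set.sdiff_subset ?_
    · rw [Set.sdiff_eq]
      exact (SP.MAIN8Aux.con_crit f).inter hUc.compl
    · rintro p ⟨hp, hpT⟩
      have hpT' : ∀ j, p ∉ T' j := fun j hj => hpT (Set.mem_iUnion.2 ⟨j, hj⟩)
      by_cases hr : Fintype.card ι ≤ (SP.Hs f p).rank + 2
      · exact Or.inl hr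
      have hiso : Iso0 f p := by
        by_contra hiso
        have hpN : p ∈ N := ⟨⟨hp, by omega⟩, fun h =>
          hiso ((hB₀mem p).1 (Finset.mem_coe.1 h)).2⟩
        obtain ⟨j, hj⟩ := hT2 p hpN
        exact hpT' (Sum.inl j) hj
      have hnd : ¬ IsNondegenerateAt f p := fun h =>
        hpT' (Sum.inr ⟨p, (hB₂mem p).2 ⟨hp, hiso, h⟩⟩) rfl
      rcases hc p hp with h | h | h | h
      · exact absurd h hr
      · exact Or.inr h
      · exact absurd h.2 hnd
      · exact absurd (hCHX ι f p h).1 hnd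
  -- gluing
  obtain ⟨W₀, hW1, hW2⟩ := hGLU E.toHodgeMeasure ι (β ⊕ B₂) f e R ({1} ∪ C9.EV f)
    (fun b d m => E.val (JS f (T' b) d m)) W he hR
    (fun d hd => hDECM E.toHodgeMeasure ι (β ⊕ B₂) f T' hT'c hT'crit hT'd hGd d
      (Nat.pos_of_mem_divisors hd))
    (by
      rintro (j | p)
      · exact (hT6 j).1
      · exact hy1 p)
    (by
      rintro (j | p)
      · filter_upwards [hV2 j, ev_den (V j)] with r h1 h2
        have h3 := ((hT6 j).2 r).add (h1.const_mul (((E.val (T j)).eval 1 : ℤ) : ℝ))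
        have h4 : RatFunc.eval (RingHom.id ℚ) (r : ℚ) (W (Sum.inl j)) =
            (((E.val (T j)).eval 1 : ℤ) : ℚ) * (V j).eval (RingHom.id ℚ) (r : ℚ) := by
          simp only [hW, Sum.elim_inl]
          rw [RatFunc.eval_mul, RatFunc.eval_C]
          · simp
          · rw [RatFunc.denom_C]
            simp
          · simpa [Polynomial.eval₂_id] using h2
        rw [h4]
        push_cast
        rw [zero_add] at h3
        refine h3.congr fun u => ?_
        simp only [hT', Sum.elim_inl]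
        ring
      · exact hV'2 p)
  -- the poles
  intro s hs
  by_cases hz : ∃ z : ℤ, s = z
  · obtain ⟨z, rfl⟩ := hz
    exact eig_z f hf z
  push Not at hz
  have htot : ((e.totient : ℚ)) ≠ 0 := by exact_mod_cast (Nat.totient_pos.2 he).ne'
  have h1 : Polynomial.aeval s (RatFunc.C (e.totient : ℚ) * R).denom = 0 :=
    SSAux.pole_C_mul htot hs
  rw [hW2] at h1
  rcases pole_add h1 with h2 | h2
  · obtain ⟨r, hr, rfl⟩ := hW1 s h2
    rcases hr with hr | hr
    · rw [Set.mem_singleton_iff] at hr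
      subst hr
      exact absurd (by push_cast; rfl) (hz (-1))
    · exact hr.2
  · refine gpo_sum (f := f) (V := W) ?_ s h2
    rintro (j | p)
    · exact gpo_C_mul (hV1 j) _
    · exact hV'1 p

end Pool.Agent.Mono.MG
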