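import Pool.Agent.Work.Monodromy.StatementM1
import Pool.Agent.Work.Monodromy.InterfaceM
import Pool.Agent.Work.Monodromy6.Final6
import Pool.Agent.Work.Monodromy_helper63.FixE

/-!
# Phase M: the final theorems (helper17)
-/

set_option autoImplicit false

namespace Pool.Agent.Mono.MG

open MvPolynomial NP FixE

theorem hypM {ι : Type} [Fintype ι] [DecidableEq ι] {g : MvPolynomial ι ℂ}
    (h : ∀ p : ι → ℂ, eval p g = 0 → (∀ i, eval p (pderiv i g) = 0) → IsTameAt g p) :
    ∀ p ∈ SP.Crit0 g, Fintype.card ι ≤ (SP.Hs g p).rank + 2 ∨ (∃ r, RO.SQAt g p r) ∨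
      (Iso0 g p ∧ IsNondegenerateAt g p) ∨ IsNondegenerateInParametersAt g p := by
  intro p hp
  rcases h p hp.1 hp.2 with h | h | ⟨⟨s, hs, hs'⟩, h⟩ | h
  · exact Or.inl h
  · exact Or.inr (Or.inl (RO.sqAt_of h))
  · exact Or.inr (Or.inr (Or.inl ⟨⟨s, hs, fun q hq => hs' q hq.1 hq.2⟩, h⟩))
  · exact Or.inr (Or.inr (Or.inr h))

/-- the monodromy conjecture for the twisted topological zeta functions of polynomials with tame
singular points -/
theorem mcM_tw (hFINM : Stmt_FINM) (E : EulerMeasure) {ι : Type} [Fintype ι] [DecidableEq ι]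
    (g : MvPolynomial ι ℂ) (hg : g.totalDegree ≠ 0)
    (h : ∀ p : ι → ℂ, eval p g = 0 → (∀ i, eval p (pderiv i g) = 0) → IsTameAt g p)
    (e : ℕ) (he : 1 ≤ e) (R : RatFunc ℚ) (hR : IsTwTopZeta E.toHodgeMeasure g e R) :
    GoodPoles g R :=
  hFINM E ι g e R hg (hypM h) he hR

theorem mcM (hFINM : Stmt_FINM) (E : EulerMeasure) {ι : Type} [Fintype ι] [DecidableEq ι]
    (g : MvPolynomial ι ℂ) (hg : g.totalDegree ≠ 0)
    (h : ∀ p : ι → ℂ, eval p g = 0 → (∀ i, eval p (pderiv i g) = 0) → IsTameAt g p)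
    (R : RatFunc ℚ) (hR : IsTopZeta E.toHodgeMeasure g 1 R) : GoodPoles g R := by
  obtain ⟨q, hq⟩ := isLim_zetaSer1 E.toHodgeMeasure g 1 R hR
  have h1 : IsTwTopZeta E.toHodgeMeasure g 1 (R + RatFunc.C q) := by
    refine ⟨fun _ => R + RatFunc.C q, fun d hd => ?_, ?_⟩
    · rw [Nat.divisors_one, Finset.mem_singleton] at hd
      rw [hd]
      exact hq
    · simp
  intro s hs
  exact mcM_tw hFINM E g hg h 1 le_rfl _ h1 s (SSAux.pole_add_C hs)

/-- the monodromy conjecture for the twisted topological zeta functions of stably tame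
polynomials -/
theorem mcM_stable_tw (hFINM : Stmt_FINM) (E : EulerMeasure) {ι : Type} [Fintype ι]
    [DecidableEq ι] (f : MvPolynomial ι ℂ) (hf : f.totalDegree ≠ 0) (hN : IsStablyTame f)
    (e : ℕ) (he : 1 ≤ e) (R : RatFunc ℚ) (hR : IsTwTopZeta E.toHodgeMeasure f e R) :
    GoodPoles f R := by
  obtain ⟨N, hN⟩ := hN
  have h1 : MCEtw E.toHodgeMeasure e (susN N f) := fun R hR s hs =>
    mcM_tw hFINM E (susN N f) (Cub.totalDegree_susN N hf) (fun p => hN (susN N f) p rfl) e he R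
      hR s hs
  have h2 := (MCE_susN E.toHodgeMeasure hf N).2 e he h1
  exact fun s hs => h2 R hR s hs

/-- the monodromy conjecture for the topological zeta function of stably tame polynomials -/
theorem mcM_stable (hFINM : Stmt_FINM) (E : EulerMeasure) {ι : Type} [Fintype ι]
    [DecidableEq ι] (f : MvPolynomial ι ℂ) (hf : f.totalDegree ≠ 0) (hN : IsStablyTame f)
    (R : RatFunc ℚ) (hR : IsTopologicalZeta E.toHodgeMeasure f R) : GoodPoles f R := by
  obtain ⟨N, hN⟩ := hN
  have h1 : MCE E.toHodgeMeasure (susN N f) := fun R hR s hs =>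
    mcM hFINM E (susN N f) (Cub.totalDegree_susN N hf) (fun p => hN (susN N f) p rfl) R hR s hs
  have h2 := (MCE_susN E.toHodgeMeasure hf N).1 h1
  exact fun s hs => h2 R ((isTopologicalZeta_iff _ _ _).1 hR) s hs

end Pool.Agent.Mono.MG
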