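import Pool.Agent.Work.Monodromy.InterfaceM
import Pool.Agent.Work.Monodromy14.COM14

/-!
# Phase M, block GDM: sets of points of corank at most two or semi-quasi-homogeneous (helper76)
-/

set_option autoImplicit false

namespace Pool.Agent.Mono.MG

open MvPolynomial NP

namespace GDMMAux

open SP.MAIN8Aux C9.STP9Aux NP.COM14Aux

variable {ι : Type} [Fintype ι] [DecidableEq ι]

/-- the points which are neither of corank at most two nor semi-quasi-homogeneous -/
def Bd (f : MvPolynomial ι ℂ) : Set (ι → ℂ) :=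
  {p | ¬ (Fintype.card ι ≤ (SP.Hs f p).rank + 2 ∨ ∃ r, RO.SQAt f p r)}

/-- STP9 for sets which do not meet `Bd f` -/
theorem stp (hRNK : C9.Stmt_RNK9) (hGEN : C9.Stmt_GEN9) (hVGG : C9.Stmt_VGG9)
    (hSPC : C9.Stmt_SPC9) (f : MvPolynomial ι ℂ) (htd : f.totalDegree ≠ 0)
    (I : Ideal (MvPolynomial ι ℂ)) (hI : I.IsPrime) (hf : f ∈ I) (hd : ∀ a, pderiv a f ∈ I) :
    ∃ s, s ∉ I ∧ ∀ S : Set (ι → ℂ), Constructible S → (∀ q ∈ S, q ∉ Bd f) →
      (∀ q ∈ S, (∀ g ∈ I, eval q g = 0) ∧ eval q s ≠ 0) → C9.Gd f S := by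
  have hcrit : ∀ q : ι → ℂ, (∀ g ∈ I, eval q g = 0) → q ∈ SP.Crit0 f :=
    fun q hq => ⟨hq f hf, fun a => hq _ (hd a)⟩
  have hone : (1 : MvPolynomial ι ℂ) ∉ I := (Ideal.ne_top_iff_one I).1 hI.ne_top
  obtain ⟨Z, hZ, h2, h3⟩ := hRNK ι f I hI hd
  by_cases hmax : I.IsMaximal
  · -- one point
    obtain ⟨p, hp⟩ := maxi hmax
    have hpc : p ∈ SP.Crit0 f := hcrit p fun g hg => (hp g).1 hg
    have hSp : ∀ S : Set (ι → ℂ), (∀ q ∈ S, (∀ g ∈ I, eval q g = 0) ∧
        eval q (1 : MvPolynomial ι ℂ) ≠ 0) → ∀ q ∈ S, q = p := by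
      intro S hS q hq
      funext a
      have h1 := (hS q hq).1 (X a - C (p a)) ((hp _).2 (by rw [map_sub, eval_X, eval_C, sub_self]))
      rwa [map_sub, eval_X, eval_C, sub_eq_zero] at h1
    by_cases hpB : p ∈ Bd f
    · refine ⟨1, hone, fun S _ hSB hS => ?_⟩
      have e : S = ∅ := by
        ext q
        simp only [Set.mem_empty_iff_false, iff_false]
        intro hq
        have h1 := hSp S hS q hq
        exact hSB q hq (h1 ▸ hpB)
      rw [e]
      exact gd_empty f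
    · have hpB' : Fintype.card ι ≤ (SP.Hs f p).rank + 2 ∨ ∃ r, RO.SQAt f p r := not_not.1 hpB
      rcases hpB' with hrk | ⟨r, hSQ⟩
      · have hdt : eval p (C9.dt f Z) ≠ 0 := fun h => hZ ((hp _).2 h)
        have h4 := h3 p (fun g hg => (hp g).1 hg) hdt
        have h5 : Zᶜ.card ≤ 2 := by
          rw [Finset.card_compl]
          omega
        by_cases h6 : (∀ L : List ι, C9.wd f Z L ∈ I) ∨ Zᶜ.card ≤ 1
        · have h7 : (∀ L : List ι, C9.wd f Z L ∈ I) ∨
              (Zᶜ.card ≤ 2 ∧ (Zᶜ.card = 2 → ¬ I.IsMaximal)) := by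
            rcases h6 with h6 | h6
            · exact Or.inl h6
            · exact Or.inr ⟨h5, fun h7 => by omega⟩
          obtain ⟨s, hs, hgd⟩ := generic hGEN hVGG f htd I hI hf hd Z hZ h2 h7
          exact ⟨s, hs, fun S hS _ => hgd S hS⟩
        · push Not at h6
          obtain ⟨⟨L, hL⟩, h7⟩ := h6
          have h8 : C9.Gd f {p} := hSPC ι f Z p htd hpc (by omega) hdt
            ⟨L, fun h => hL ((hp _).2 h)⟩
          exact ⟨1, hone, fun S _ _ hS => gd_sub h8 S (hSp S hS)⟩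
      · exact ⟨1, hone, fun S _ _ hS => gd_sub (gd_sq f htd p hpc r hSQ) S (hSp S hS)⟩
  · by_cases h5 : Zᶜ.card ≤ 2
    · obtain ⟨s, hs, hgd⟩ := generic hGEN hVGG f htd I hI hf hd Z hZ h2
        (Or.inr ⟨h5, fun _ => hmax⟩)
      exact ⟨s, hs, fun S hS _ => hgd S hS⟩
    · -- all points of `V(I)` have corank at least three: they are isolated
      refine ⟨C9.dt f Z, hZ, fun S _ hSB hS => ?_⟩
      have e : S = ∅ := by
        ext q
        simp only [Set.mem_empty_iff_false, iff_false]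
        intro hq
        obtain ⟨hqI, hqd⟩ := hS q hq
        have h4 := h3 q hqI hqd
        have hqB : Fintype.card ι ≤ (SP.Hs f q).rank + 2 ∨ ∃ r, RO.SQAt f q r :=
          not_not.1 (hSB q hq)
        rcases hqB with h | ⟨r, hSQ⟩
        · apply h5
          rw [Finset.card_compl]
          omega
        · obtain ⟨s, hs, hiso⟩ := SP.stmt_ISO8 ι f q r (hcrit q hqI).2 hSQ
          exact hmax (max_iso hI hf hd q s hqI hs fun x hx => hiso x hx.2)
      rw [e]
      exact gd_empty f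

end GDMMAux

open GDMMAux NP.COM14Aux in
/-- **GDM** -/
theorem stmt_GDM (hRNK : C9.Stmt_RNK9) (hGEN : C9.Stmt_GEN9) (hVGG : C9.Stmt_VGG9)
    (hSPC : C9.Stmt_SPC9) : Stmt_GDM := by
  intro ι _ _ f htd S hS hcr hcor
  refine main f (Bd f) (stp hRNK hGEN hVGG hSPC f htd)
    (Ideal.span (insert f (Set.range fun a => pderiv a f)))
    (Ideal.subset_span (Set.mem_insert _ _))
    (fun a => Ideal.subset_span (Set.mem_insert_of_mem _ ⟨a, rfl⟩)) S hS
    (fun q hq hqB => hqB (hcor q hq)) ?_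
  intro q hq g hg
  obtain ⟨h0, h1⟩ := hcr hq
  have hle : Ideal.span (insert f (Set.range fun a => pderiv a f)) ≤ RingHom.ker (eval q) := by
    rw [Ideal.span_le]
    rintro x (rfl | ⟨a, rfl⟩)
    · exact h0
    · exact h1 a
  exact hle hg

end Pool.Agent.Mono.MG
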