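import Pool.Agent.Work.Monodromy.InterfaceM

/-!
# Block GRKA (phase M): growth of the sums over the `k` with support `A` (helper24)
-/

set_option autoImplicit false
set_option linter.unusedSectionVars false

namespace Pool.Agent.Mono.MG

open Filter Topology NP

namespace GRKAMAux

variable {ι κ : Type} [Fintype ι] [DecidableEq ι] [Fintype κ] [DecidableEq κ]

lemma zero_of_sp {k : ι → ℕ} {A : Finset ι} (h : sp k = A) {i : ι} (hi : i ∉ A) : k i = 0 := by
  by_contra h1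
  apply hi
  rw [← h]
  simp [sp, h1]

/-- restriction -/
def rs (A : Finset ι) (k : ι → ℕ) (i : A) : ℕ := k i

lemma sum_rs {k : ι → ℕ} {A : Finset ι} (h : sp k = A) (g : ι → ℕ) :
    ∑ i : A, rs A k i * g i = ∑ i, k i * g i := by
  have h1 : ∑ i : A, rs A k i * g i = ∑ i ∈ A, k i * g i :=
    Finset.sum_coe_sort A fun i => k i * g i
  rw [h1]
  refine Finset.sum_subset (Finset.subset_univ A) fun i _ hi => ?_
  rw [zero_of_sp h hi, zero_mul]

lemma kw_rs (w : κ → ι → ℕ) {k : ι → ℕ} {A : Finset ι} (h : sp k = A) (v : κ) :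
    kw (wA w A) (rs A k) v = kw w k v := sum_rs h fun i => w v i

lemma mnk_rs (w : κ → ι → ℕ) {k : ι → ℕ} {A : Finset ι} (h : sp k = A) :
    mnk (wA w A) (rs A k) = mnk w k := by
  unfold mnk
  exact iInf_congr fun v => kw_rs w h v

lemma fc_rs (w : κ → ι → ℕ) {k : ι → ℕ} {A : Finset ι} (h : sp k = A) :
    fc (wA w A) (rs A k) = fc w k := by
  unfold fc
  ext v
  simp only [Finset.mem_filter, Finset.mem_univ, true_and, kw_rs w h]

lemma sum_rs' {k : ι → ℕ} {A : Finset ι} (h : sp k = A) : ∑ i : A, rs A k i = ∑ i, k i := by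
  have := sum_rs h fun _ => 1
  simpa using this

/-- the restriction as a map of index sets -/
def em (w : κ → ι → ℕ) (A : Finset ι) (F : Finset κ)
    (k : {k : ι → ℕ // sp k = A ∧ fc w k = F}) : {k : A → ℕ // F ⊆ fc (wA w A) k} :=
  ⟨rs A k.1, by rw [fc_rs w k.2.1, k.2.2]⟩

lemma em_inj (w : κ → ι → ℕ) (A : Finset ι) (F : Finset κ) : Function.Injective (em w A F) := by
  rintro ⟨k, hk⟩ ⟨k', hk'⟩ h
  apply Subtype.ext
  funext i
  by_cases hi : i ∈ A
  · have h1 := congrArg Subtype.val h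
    exact congrFun h1 (⟨i, hi⟩ : A)
  · change k i = k' i
    rw [zero_of_sp hk.1 hi, zero_of_sp hk'.1 hi]

/-- the summand -/
noncomputable def sm (w : κ → ι → ℕ) (r : ℕ) (A : Finset ι) (F : Finset κ) (ε : ℝ)
    (k : {k : A → ℕ // F ⊆ fc (wA w A) k}) : ℝ :=
  Real.exp (-ε * (∑ i, ((k : A → ℕ) i : ℝ) + (r : ℝ) * (mnk (wA w A) k : ℝ)))

lemma pow_eq (w : κ → ι → ℕ) (r : ℕ) (A : Finset ι) (F : Finset κ) (u : ℝ) (hu : 1 < u)
    (k : {k : ι → ℕ // sp k = A ∧ fc w k = F}) :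
    u⁻¹ ^ (∑ i, (k : ι → ℕ) i + r * mnk w (k : ι → ℕ)) =
      sm w r A F (Real.log u) (em w A F k) := by
  have h0 : (0 : ℝ) < u := by linarith
  have h1 : u⁻¹ = Real.exp (-Real.log u) := by rw [Real.exp_neg, Real.exp_log h0]
  have h2 : ∑ i : A, ((rs A (k : ι → ℕ) i : ℕ) : ℝ) = ((∑ i, (k : ι → ℕ) i : ℕ) : ℝ) := by
    rw [← sum_rs' k.2.1]
    push_cast
    rfl
  have h3 : mnk (wA w A) (rs A (k : ι → ℕ)) = mnk w (k : ι → ℕ) := mnk_rs w k.2.1
  rw [sm, em, h1, ← Real.exp_nat_mul]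
  congr 1
  simp only [h2, h3]
  push_cast
  ring

end GRKAMAux

open GRKAMAux in
theorem stmt_GRKA (hGRK : NP.Stmt_GRK) : Stmt_GRKA := by
  classical
  intro ι κ _ _ _ _ _ w r A F hF
  obtain ⟨hs, A', hA'⟩ := hGRK A κ (wA w A) F (r : ℝ) hF (Nat.cast_nonneg r)
  have hs' : ∀ ε : ℝ, 0 < ε → Summable (sm w r A F ε) := fun ε hε => hs ε hε
  have hsum : ∀ u : ℝ, 1 < u → Summable fun k : {k : ι → ℕ // sp k = A ∧ fc w k = F} =>
      u⁻¹ ^ (∑ i, (k : ι → ℕ) i + r * mnk w (k : ι → ℕ)) := by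
    intro u hu
    simp only [pow_eq w r A F u hu]
    exact (hs' _ (Real.log_pos hu)).comp_injective (em_inj w A F)
  refine ⟨hsum, 2 ^ (A.card + 1 - rk (wA w A) F) * A', ?_⟩
  have hev : ∀ᶠ u : ℝ in 𝓝[>] 1, u ∈ Set.Ioo (1 : ℝ) 2 := Ioo_mem_nhdsGT (by norm_num)
  filter_upwards [hev] with u hu
  obtain ⟨h1, h2⟩ := hu
  have hlog : 0 < Real.log u := Real.log_pos h1
  have hlog1 : Real.log u ≤ 1 := by
    have := Real.log_le_sub_one_of_pos (by linarith : (0 : ℝ) < u)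
    linarith
  have hlog2 : u - 1 ≤ 2 * Real.log u := by
    have h3 := Real.one_sub_inv_le_log_of_pos (by linarith : (0 : ℝ) < u)
    have h4 : (u - 1) / 2 ≤ 1 - u⁻¹ := by
      have h5 : 1 - u⁻¹ = (u - 1) / u := by
        field_simp
      rw [h5]
      exact div_le_div_of_nonneg_left (by linarith) (by linarith) h2.le
    linarith
  have hnn : ∀ k, 0 ≤ sm w r A F (Real.log u) k := fun k => (Real.exp_pos _).le
  have hle : SgA w r A F u ≤ ∑' k, sm w r A F (Real.log u) k := by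
    have h3 : SgA w r A F u = ∑' k : {k : ι → ℕ // sp k = A ∧ fc w k = F},
        sm w r A F (Real.log u) (em w A F k) := by
      rw [SgA]
      exact tsum_congr fun k => pow_eq w r A F u h1 k
    rw [h3]
    exact tsum_comp_le_tsum_of_inj (hs' _ hlog) hnn (em_inj w A F)
  have h0 : 0 ≤ SgA w r A F u := by
    rw [SgA]
    exact tsum_nonneg fun k => by positivity
  have hb := hA' (Real.log u) hlog hlog1
  have hcard : Fintype.card A = A.card := Fintype.card_coe A
  rw [hcard] at hb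
  have h5 : (0 : ℝ) ≤ (u - 1) ^ (A.card + 1 - rk (wA w A) F) := by
    have : 0 ≤ u - 1 := by linarith
    positivity
  rw [abs_of_nonneg (mul_nonneg h5 h0)]
  calc (u - 1) ^ (A.card + 1 - rk (wA w A) F) * SgA w r A F u
      ≤ (2 * Real.log u) ^ (A.card + 1 - rk (wA w A) F) * ∑' k, sm w r A F (Real.log u) k := by
        refine mul_le_mul (pow_le_pow_left₀ (by linarith) hlog2 _) hle h0 (by positivity)
    _ = 2 ^ (A.card + 1 - rk (wA w A) F) * (Real.log u ^ (A.card + 1 - rk (wA w A) F) *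
          ∑' k, sm w r A F (Real.log u) k) := by rw [mul_pow]; ring
    _ ≤ 2 ^ (A.card + 1 - rk (wA w A) F) * A' :=
        mul_le_mul_of_nonneg_left hb (by positivity)

end Pool.Agent.Mono.MG
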