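import Pool.Agent.Work.MonodromyM.JDF

/-!
# Phase M, block JBJ: jets in étale coordinates (helper81)
-/

set_option autoImplicit false

namespace Pool.Agent.Mono.MG

open MvPolynomial

namespace JBJMAux

variable {ι : Type} [Fintype ι] [DecidableEq ι]

/-- the Jacobian matrix at a point -/
theorem mulVec_jm (Y : ι → MvPolynomial ι ℂ) (x : ι → ℂ) (δ : ι → ℂ) (i : ι) :
    ((jm Y).map (eval x)).mulVec δ i = ∑ b, eval x (pderiv b (Y i)) * δ b := rfl

theorem det_map (Y : ι → MvPolynomial ι ℂ) (x : ι → ℂ) :
    ((jm Y).map (eval x)).det = eval x (jm Y).det := ((eval x).map_det (jm Y)).symm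

end JBJMAux

open JBJMAux JDFMAux

theorem stmt_JBJ (hJ : Stmt_JDF) : Stmt_JBJ := by
  intro ι _ _ Y K x₀ hdet y hy
  set M : Matrix ι ι ℂ := (jm Y).map (eval x₀) with hM
  have hMdet : M.det ≠ 0 := by
    rw [hM, det_map]
    exact hdet
  -- existence
  have hex : ∀ e : ℕ, ∃ z : ι × Fin (K + 1) → ℂ, (∀ i, z (i, 0) = x₀ i) ∧
      ∀ (i : ι) (l : Fin (K + 1)), (l : ℕ) < e →
        (aeval (jet z) (Y i) : Polynomial ℂ).coeff l = y (i, l) := by
    intro e
    induction e with
    | zero =>
      exact ⟨fun q => x₀ q.1, fun i => rfl, fun i l hl => absurd hl (Nat.not_lt_zero _)⟩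
    | succ e ih =>
      obtain ⟨z, hz0, hz⟩ := ih
      rcases Nat.eq_zero_or_pos e with he | he
      · subst he
        refine ⟨z, hz0, fun i l hl => ?_⟩
        have hl0 : l = 0 := Fin.ext (by rw [Fin.val_zero]; omega)
        subst hl0
        rw [Fin.val_zero, coeff_zero_aeval, hy i]
        congr 1
        simp only [hz0]
      · by_cases heK : e < K + 1
        · have hM1 : M * M⁻¹ = 1 := Matrix.mul_nonsing_inv M (isUnit_iff_ne_zero.mpr hMdet)
          let r : ι → ℂ := fun i => y (i, ⟨e, heK⟩) - (aeval (jet z) (Y i) : Polynomial ℂ).coeff e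
          let δ : ι → ℂ := M⁻¹.mulVec r
          have hδ : M.mulVec δ = r := by
            change M.mulVec (M⁻¹.mulVec r) = r
            rw [Matrix.mulVec_mulVec, hM1, Matrix.one_mulVec]
          let z' : ι × Fin (K + 1) → ℂ := fun q => z q + if (q.2 : ℕ) = e then δ q.1 else 0
          have hz'1 : ∀ (i : ι) (l : Fin (K + 1)), (l : ℕ) < e → z' (i, l) = z (i, l) := by
            intro i l hl
            change z (i, l) + (if (l : ℕ) = e then δ i else 0) = z (i, l)
            rw [if_neg (by omega), add_zero]
          have hz'2 : ∀ i, z' (i, ⟨e, heK⟩) - z (i, ⟨e, heK⟩) = δ i := by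
            intro i
            change z (i, ⟨e, heK⟩) + (if e = e then δ i else 0) - z (i, ⟨e, heK⟩) = δ i
            rw [if_pos rfl]
            ring
          have hz'0 : ∀ i, z' (i, 0) = x₀ i := fun i => by
            rw [hz'1 i 0 (by rw [Fin.val_zero]; omega), hz0]
          refine ⟨z', hz'0, fun i l hl => ?_⟩
          obtain ⟨h1, h2⟩ := hJ ι K e z z' he hz'1 (Y i)
          rcases Nat.lt_or_ge (l : ℕ) e with hle | hle
          · rw [h1 l hle]
            exact hz i l hle
          · have hle' : (l : ℕ) = e := by omega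
            have hl' : l = ⟨e, heK⟩ := Fin.ext hle'
            have h3 := h2 ⟨e, heK⟩ rfl
            have h4 : ∑ b, eval (fun i => z (i, 0)) (pderiv b (Y i)) *
                (z' (b, ⟨e, heK⟩) - z (b, ⟨e, heK⟩)) = r i := by
              rw [← hδ, hM, mulVec_jm]
              refine Finset.sum_congr rfl fun b _ => ?_
              rw [hz'2 b]
              congr 2
              congr 1
              funext i
              exact hz0 i
            rw [h4] at h3
            rw [hl']
            change (aeval (jet z') (Y i) : Polynomial ℂ).coeff e = y (i, ⟨e, heK⟩)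
            have h5 : r i = y (i, ⟨e, heK⟩) - (aeval (jet z) (Y i) : Polynomial ℂ).coeff e := rfl
            rw [h5] at h3
            linear_combination h3
        · refine ⟨z, hz0, fun i l hl => hz i l ?_⟩
          have := l.2
          omega
  obtain ⟨z, hz0, hz⟩ := hex (K + 1)
  refine ⟨z, ⟨hz0, fun i l => hz i l l.2⟩, ?_⟩
  rintro z' ⟨hz'0, hz'⟩
  have key : ∀ e : ℕ, ∀ (i : ι) (l : Fin (K + 1)), (l : ℕ) < e → z' (i, l) = z (i, l) := by
    intro e
    induction e with
    | zero => exact fun i l hl => absurd hl (Nat.not_lt_zero _)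
    | succ e ih =>
      intro i l hl
      rcases Nat.eq_zero_or_pos e with he | he
      · have hl0 : l = 0 := Fin.ext (by rw [Fin.val_zero]; omega)
        subst hl0
        rw [hz'0, hz0]
      · rcases Nat.lt_or_ge (l : ℕ) e with hle | hle
        · exact ih i l hle
        · have hle' : (l : ℕ) = e := by omega
          have h1 : M.mulVec (fun b => z' (b, l) - z (b, l)) = 0 := by
            funext j
            obtain ⟨_, h2⟩ := hJ ι K e z z' he ih (Y j)
            have h3 := h2 l hle'
            rw [← hle'] at h3
            rw [hz' j l, hz j l l.2, sub_self] at h3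
            rw [hM, mulVec_jm, Pi.zero_apply, h3]
            refine Finset.sum_congr rfl fun b _ => ?_
            congr 2
            congr 1
            funext i
            exact (hz0 i).symm
          have h4 := Matrix.eq_zero_of_mulVec_eq_zero hMdet h1
          have h5 := congrFun h4 i
          exact sub_eq_zero.mp h5
  funext q
  obtain ⟨i, l⟩ := q
  exact key (K + 1) i l l.2

end Pool.Agent.Mono.MG
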