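import Pool.Agent.Work.Monodromy.InterfaceM

/-!
# Phase M, block JDF: first order differences of jets (helper81)
-/

set_option autoImplicit false

namespace Pool.Agent.Mono.MG

open MvPolynomial

namespace JDFMAux

/-- coefficients below `e` of a product, and the coefficient `e` -/
theorem coeff_mul_aux {e : ℕ} (he : 1 ≤ e) (P P' Q Q' : Polynomial ℂ)
    (hP : ∀ l < e, P'.coeff l = P.coeff l) (hQ : ∀ l < e, Q'.coeff l = Q.coeff l) :
    (∀ l < e, (P' * Q').coeff l = (P * Q).coeff l) ∧
      (P' * Q').coeff e - (P * Q).coeff e = (P'.coeff e - P.coeff e) * Q.coeff 0 +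
        P.coeff 0 * (Q'.coeff e - Q.coeff e) := by
  constructor
  · intro l hl
    rw [Polynomial.coeff_mul, Polynomial.coeff_mul]
    refine Finset.sum_congr rfl fun x hx => ?_
    rw [Finset.HasAntidiagonal.mem_antidiagonal] at hx
    rw [hP x.1 (by omega), hQ x.2 (by omega)]
  · have h1 : (P' * Q').coeff e - (P * Q).coeff e =
        ((P' - P) * Q').coeff e + (P * (Q' - Q)).coeff e := by
      rw [← Polynomial.coeff_sub, ← Polynomial.coeff_add]
      congr 1
      ring
    have h2 : ((P' - P) * Q').coeff e = (P'.coeff e - P.coeff e) * Q.coeff 0 := by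
      rw [Polynomial.coeff_mul, Finset.sum_eq_single (e, 0)]
      · rw [Polynomial.coeff_sub, hQ 0 (by omega)]
      · rintro ⟨a, b⟩ hab hne
        rw [Finset.HasAntidiagonal.mem_antidiagonal] at hab
        have ha : a < e := by
          rcases Nat.lt_or_ge a e with h | h
          · exact h
          · exfalso
            apply hne
            have h3 : a = e := by omega
            have h4 : b = 0 := by omega
            rw [h3, h4]
        change (P' - P).coeff a * Q'.coeff b = 0
        rw [Polynomial.coeff_sub, hP a ha, sub_self, zero_mul]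
      · intro h
        exact absurd (Finset.HasAntidiagonal.mem_antidiagonal.mpr (by omega)) h
    have h3 : (P * (Q' - Q)).coeff e = P.coeff 0 * (Q'.coeff e - Q.coeff e) := by
      rw [Polynomial.coeff_mul, Finset.sum_eq_single (0, e)]
      · rw [Polynomial.coeff_sub]
      · rintro ⟨a, b⟩ hab hne
        rw [Finset.HasAntidiagonal.mem_antidiagonal] at hab
        have hb : b < e := by
          rcases Nat.lt_or_ge b e with h | h
          · exact h
          · exfalso
            apply hne
            have h3 : b = e := by omega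
            have h4 : a = 0 := by omega
            rw [h3, h4]
        change P.coeff a * (Q' - Q).coeff b = 0
        rw [Polynomial.coeff_sub, hQ b hb, sub_self, mul_zero]
      · intro h
        exact absurd (Finset.HasAntidiagonal.mem_antidiagonal.mpr (by omega)) h
    rw [h1, h2, h3]

theorem coeff_jet {ι : Type} {K : ℕ} (z : ι × Fin (K + 1) → ℂ) (i : ι) (l : Fin (K + 1)) :
    (jet z i).coeff (l : ℕ) = z (i, l) := by
  unfold jet
  rw [Polynomial.finsetSum_coeff]
  rw [Finset.sum_eq_single l]
  · simp
  · intro b _ hb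
    rw [Polynomial.coeff_C_mul, Polynomial.coeff_X_pow, if_neg, mul_zero]
    intro h
    exact hb (Fin.ext h.symm)
  · intro h
    exact absurd (Finset.mem_univ _) h

theorem coeff_zero_aeval {ι : Type} {K : ℕ} (z : ι × Fin (K + 1) → ℂ) (g : MvPolynomial ι ℂ) :
    (aeval (jet z) g : Polynomial ℂ).coeff 0 = eval (fun i => z (i, 0)) g := by
  induction g using MvPolynomial.induction_on with
  | C a => simp
  | add p q hp hq => rw [map_add, Polynomial.coeff_add, hp, hq, map_add]
  | mul_X p i hp =>
    rw [map_mul, Polynomial.mul_coeff_zero, hp, map_mul, aeval_X, eval_X]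
    congr 1
    exact coeff_jet z i 0

end JDFMAux

open JDFMAux

theorem stmt_JDF : Stmt_JDF := by
  intro ι _ _ K e z z' he hz g
  have h0 : ∀ i, z' (i, 0) = z (i, 0) := fun i => hz i 0 (by
    rw [Fin.val_zero]
    omega)
  have hjet : ∀ i, ∀ l < e, (jet z' i).coeff l = (jet z i).coeff l := by
    intro i l hl
    by_cases hlK : l < K + 1
    · have h1 := coeff_jet z' i ⟨l, hlK⟩
      have h2 := coeff_jet z i ⟨l, hlK⟩
      dsimp only at h1 h2
      rw [h1, h2]
      exact hz i ⟨l, hlK⟩ hl
    · have h3 : ∀ y : ι × Fin (K + 1) → ℂ, (jet y i).coeff l = 0 := by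
        intro y
        unfold jet
        rw [Polynomial.finsetSum_coeff]
        refine Finset.sum_eq_zero fun b _ => ?_
        rw [Polynomial.coeff_C_mul, Polynomial.coeff_X_pow, if_neg, mul_zero]
        have := b.2
        omega
      rw [h3, h3]
  induction g using MvPolynomial.induction_on with
  | C a =>
    refine ⟨fun l _ => by simp, fun l₀ _ => ?_⟩
    simp
  | add p q hp hq =>
    refine ⟨fun l hl => ?_, fun l₀ hl₀ => ?_⟩
    · rw [map_add, map_add, Polynomial.coeff_add, Polynomial.coeff_add, hp.1 l hl, hq.1 l hl]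
    · have h1 := hp.2 l₀ hl₀
      have h2 := hq.2 l₀ hl₀
      rw [map_add, map_add, Polynomial.coeff_add, Polynomial.coeff_add, add_sub_add_comm, h1, h2,
        ← Finset.sum_add_distrib]
      refine Finset.sum_congr rfl fun b _ => ?_
      rw [map_add, map_add, add_mul]
  | mul_X p i hp =>
    obtain ⟨h1, h2⟩ := coeff_mul_aux he (aeval (jet z) p) (aeval (jet z') p) (jet z i) (jet z' i)
      hp.1 (hjet i)
    refine ⟨fun l hl => ?_, fun l₀ hl₀ => ?_⟩
    · rw [map_mul, map_mul, aeval_X, aeval_X]
      exact h1 l hl
    · rw [map_mul, map_mul, aeval_X, aeval_X, h2, hp.2 l₀ hl₀, coeff_zero_aeval]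
      have h3 : (jet z i).coeff 0 = z (i, 0) := coeff_jet z i 0
      have h4 : (jet z i).coeff e = z (i, l₀) := by rw [← hl₀]; exact coeff_jet z i l₀
      have h5 : (jet z' i).coeff e = z' (i, l₀) := by rw [← hl₀]; exact coeff_jet z' i l₀
      rw [h3, h4, h5, Finset.sum_mul]
      have h6 : ∀ b, eval (fun i => z (i, 0)) (pderiv b (p * X i)) * (z' (b, l₀) - z (b, l₀)) =
          eval (fun i => z (i, 0)) (pderiv b p) * (z' (b, l₀) - z (b, l₀)) * z (i, 0) +
          if b = i then eval (fun i => z (i, 0)) p * (z' (i, l₀) - z (i, l₀)) else 0 := by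
        intro b
        rw [Derivation.leibniz, map_add, smul_eq_mul, smul_eq_mul, map_mul, map_mul, eval_X,
          pderiv_X]
        by_cases hb : b = i
        · subst hb
          rw [if_pos rfl, Pi.single_eq_same, map_one]
          ring
        · rw [if_neg hb, Pi.single_eq_of_ne (Ne.symm hb), map_zero]
          ring
      rw [Finset.sum_congr rfl fun b _ => h6 b, Finset.sum_add_distrib, Finset.sum_ite_eq',
        if_pos (Finset.mem_univ _)]

end Pool.Agent.Mono.MG
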