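import Pool.Agent.Work.Monodromy.InterfaceM

/-!
# Phase M, block KRL: Krull's intersection theorem (helper81)
-/

set_option autoImplicit false

namespace Pool.Agent.Mono.MG

open MvPolynomial

theorem stmt_KRL : Stmt_KRL := by
  intro ι _ _ I p f hf
  have hN : IsNoetherianRing (MvPolynomial ι ℂ) := inferInstance
  have key := (Ideal.mem_iInf_smul_pow_eq_bot_iff (M := MvPolynomial ι ℂ ⧸ I) (C9.mI p)
    (Ideal.Quotient.mk I f)).mp (by
      rw [Submodule.mem_iInf]
      intro N
      obtain ⟨a, ha, b, hb, hab⟩ := Submodule.mem_sup.mp (hf N)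
      have h1 : Ideal.Quotient.mk I f = b • (1 : MvPolynomial ι ℂ ⧸ I) := by
        have h2 : b • (1 : MvPolynomial ι ℂ ⧸ I) = Ideal.Quotient.mk I (b * 1) := rfl
        rw [← hab, map_add, Ideal.Quotient.eq_zero_iff_mem.mpr ha, zero_add, h2, mul_one]
      rw [h1]
      exact Submodule.smul_mem_smul hb trivial)
  obtain ⟨r, hr⟩ := key
  refine ⟨1 - (r : MvPolynomial ι ℂ), ?_, ?_⟩
  · have h2 : eval p (r : MvPolynomial ι ℂ) = 0 := (RingHom.mem_ker).mp r.2
    rw [map_sub, map_one, h2, sub_zero]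
    exact one_ne_zero
  · rw [← Ideal.Quotient.eq_zero_iff_mem, map_mul, map_sub, map_one, sub_mul, one_mul]
    have h3 : (Ideal.Quotient.mk I (r : MvPolynomial ι ℂ)) * Ideal.Quotient.mk I f =
        (r : MvPolynomial ι ℂ) • (Ideal.Quotient.mk I f) := rfl
    rw [h3, hr, sub_self]

end Pool.Agent.Mono.MG
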