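import Pool.Agent.Work.Monodromy.InterfaceM

/-!
# Block NLP (phase M): Nullstellensatz in the fibre (helper48; after `Monodromy13/NUL13`)
-/

set_option autoImplicit false
set_option linter.unusedSectionVars false

namespace Pool.Agent.Mono.MG

open MvPolynomial NP

namespace NLPMAux

variable {ι κ : Type} [Fintype ι] [DecidableEq ι] [Fintype κ] [DecidableEq κ]

/-- the toric relations -/
def Rel (w : κ → ι → ℕ) (m m' : κ →₀ ℕ) (γ γ' : ι → ℕ) : Prop :=
  m.degree = m'.degree ∧ ∀ i, ∑ v, m v * w v i + γ i = ∑ v, m' v * w v i + γ' i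

/-- a binomial -/
noncomputable def bn (z : ι → ℂ) (m m' : κ →₀ ℕ) (γ γ' : ι → ℕ) : MvPolynomial κ ℂ :=
  C (∏ i, z i ^ γ i) * monomial m 1 - C (∏ i, z i ^ γ' i) * monomial m' 1

/-- the binomials -/
def Bin (w : κ → ι → ℕ) (z : ι → ℂ) : Set (MvPolynomial κ ℂ) :=
  {p | ∃ (m m' : κ →₀ ℕ) (γ γ' : ι → ℕ), Rel w m m' γ γ' ∧ p = bn z m m' γ γ'}

/-- the binomials of degree `d` -/
def BinD (w : κ → ι → ℕ) (z : ι → ℂ) (d : ℕ) : Set (MvPolynomial κ ℂ) :=
  {p | ∃ (m m' : κ →₀ ℕ) (γ γ' : ι → ℕ), (m.degree = d ∧ m'.degree = d) ∧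
    (∀ i, ∑ v, m v * w v i + γ i = ∑ v, m' v * w v i + γ' i) ∧ p = bn z m m' γ γ'}

lemma Rel.add {w : κ → ι → ℕ} {m m' : κ →₀ ℕ} {γ γ' : ι → ℕ} (h : Rel w m m' γ γ')
    (n : κ →₀ ℕ) : Rel w (n + m) (n + m') γ γ' := by
  refine ⟨by simp [h.1], fun i => ?_⟩
  simp only [Finsupp.add_apply, add_mul, Finset.sum_add_distrib]
  have := h.2 i
  omega

lemma mul_mem_span {w : κ → ι → ℕ} {z : ι → ℂ} (r : MvPolynomial κ ℂ) {q : MvPolynomial κ ℂ}
    (hq : q ∈ Submodule.span ℂ (Bin w z)) : r * q ∈ Submodule.span ℂ (Bin w z) := by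
  induction r using MvPolynomial.induction_on' with
  | monomial n c =>
    induction hq using Submodule.span_induction with
    | mem x hx =>
      obtain ⟨m, m', γ, γ', h, rfl⟩ := hx
      have : monomial n c * bn z m m' γ γ' = c • bn z (n + m) (n + m') γ γ' := by
        simp only [bn, mul_sub, C_mul_monomial, monomial_mul, mul_one, smul_sub, smul_monomial,
          smul_eq_mul]
      rw [this]
      exact Submodule.smul_mem _ _ (Submodule.subset_span ⟨_, _, _, _, h.add n, rfl⟩)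
    | zero => simp
    | add x y _ _ hx hy => rw [mul_add]; exact Submodule.add_mem _ hx hy
    | smul a x _ hx => rw [mul_smul_comm]; exact Submodule.smul_mem _ _ hx
  | add p p' hp hp' => rw [add_mul]; exact Submodule.add_mem _ hp hp'

/-- the linear forms -/
noncomputable def Ln (ℓ : Option ι → κ → ℂ) (o : Option ι) : MvPolynomial κ ℂ :=
  ∑ v, C (ℓ o v) * X v

/-- the ideal -/
noncomputable def Idl (w : κ → ι → ℕ) (z : ι → ℂ) (ℓ : Option ι → κ → ℂ) :
    Ideal (MvPolynomial κ ℂ) :=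
  Ideal.span (Bin w z ∪ Set.range (Ln ℓ))

lemma mem_Idl {w : κ → ι → ℕ} {z : ι → ℂ} {ℓ : Option ι → κ → ℂ} {p : MvPolynomial κ ℂ}
    (hp : p ∈ Idl w z ℓ) :
    ∃ (G : Option ι → MvPolynomial κ ℂ) (q : MvPolynomial κ ℂ),
      q ∈ Submodule.span ℂ (Bin w z) ∧ p = ∑ o, G o * Ln ℓ o + q := by
  unfold Idl at hp
  induction hp using Submodule.span_induction with
  | mem x hx =>
    rcases hx with hx | ⟨o, rfl⟩
    · exact ⟨0, x, Submodule.subset_span hx, by simp⟩
    · refine ⟨Pi.single o 1, 0, Submodule.zero_mem _, ?_⟩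
      rw [add_zero, Finset.sum_eq_single o]
      · simp
      · intro b _ hb
        simp [Pi.single_eq_of_ne hb]
      · intro h; exact absurd (Finset.mem_univ _) h
  | zero => exact ⟨0, 0, Submodule.zero_mem _, by simp⟩
  | add x y _ _ hx hy =>
    obtain ⟨G, q, hq, rfl⟩ := hx
    obtain ⟨G', q', hq', rfl⟩ := hy
    refine ⟨G + G', q + q', Submodule.add_mem _ hq hq', ?_⟩
    simp only [Pi.add_apply, add_mul, Finset.sum_add_distrib]
    ring
  | smul r x _ hx =>
    obtain ⟨G, q, hq, rfl⟩ := hx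
    refine ⟨fun o => r * G o, r * q, mul_mem_span r hq, ?_⟩
    rw [smul_eq_mul, mul_add, Finset.mul_sum]
    simp only [mul_assoc]

lemma eval_Ln (ℓ : Option ι → κ → ℂ) (t : κ → ℂ) (o : Option ι) :
    eval t (Ln ℓ o) = ∑ v, ℓ o v * t v := by
  simp [Ln]

/-- the hypothesis of NLP -/
def Hyp (w : κ → ι → ℕ) (z : ι → ℂ) (ℓ : Option ι → κ → ℂ) : Prop :=
  ∀ (k : ι → ℕ) (y : ι → ℂ), (∀ i, z i = 0 ↔ k i ≠ 0) → (∀ i, y i ≠ 0) →
      (∀ i, k i = 0 → y i = z i) → (fc w k).Nonempty →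
        ∃ o, ∑ v ∈ fc w k, ℓ o v * ∏ i, y i ^ w v i ≠ 0

lemma zero_of_mem (hTOR : Stmt_TORG) {w : κ → ι → ℕ} {z : ι → ℂ} {ℓ : Option ι → κ → ℂ}
    (hN : Hyp w z ℓ) {t : κ → ℂ}
    (ht : ∀ p ∈ Idl w z ℓ, eval t p = 0) : t = 0 := by
  classical
  by_contra hne
  obtain ⟨v₀, hv₀⟩ : ∃ v, t v ≠ 0 := by
    by_contra h
    push Not at h
    exact hne (funext h)
  obtain ⟨k, y, b, hk, hy, hyz, hb, hmF, hxc⟩ := hTOR ι κ w t z (by
    intro m m' γ γ' h1 h2
    have h := ht _ (Ideal.subset_span (Or.inl ⟨Finsupp.equivFunOnFinite.symm m,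
      Finsupp.equivFunOnFinite.symm m', γ, γ', ⟨by
        rw [Finsupp.degree_eq_sum, Finsupp.degree_eq_sum]; simpa using h1, by simpa using h2⟩,
        rfl⟩))
    rw [bn, map_sub, sub_eq_zero, map_mul, map_mul, eval_C, eval_C, eval_monomial, eval_monomial,
      one_mul, one_mul,
      Finsupp.prod_fintype _ _ (by simp), Finsupp.prod_fintype _ _ (by simp)] at h
    rw [mul_comm, mul_comm (∏ v, t v ^ m' v)]
    simpa using h) ⟨v₀, hv₀⟩
  have key : ∀ g : κ → ℂ, ∑ v, g v * t v = b * ∑ v ∈ fc w k, g v * ∏ i, y i ^ w v i := by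
    intro g
    rw [Finset.mul_sum]
    rw [← Finset.sum_subset (Finset.subset_univ (fc w k)) (f := fun v => g v * t v)]
    · refine Finset.sum_congr rfl fun v hv => ?_
      rw [hxc v hv]; ring
    · intro v _ hv
      have : t v = 0 := by
        by_contra h
        exact hv ((hmF v).2 h)
      rw [this, mul_zero]
  obtain ⟨o, ho⟩ := hN k y hk hy hyz ⟨v₀, (hmF v₀).2 hv₀⟩
  have h := ht _ (Ideal.subset_span (Or.inr ⟨o, rfl⟩))
  rw [eval_Ln, key] at h
  exact ho ((mul_eq_zero.1 h).resolve_left hb)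

lemma pow_mem (hTOR : Stmt_TORG) {w : κ → ι → ℕ} {z : ι → ℂ} {ℓ : Option ι → κ → ℂ}
    (hN : Hyp w z ℓ) (v : κ) :
    ∃ n : ℕ, (X v : MvPolynomial κ ℂ) ^ n ∈ Idl w z ℓ := by
  have h : (X v : MvPolynomial κ ℂ) ∈ vanishingIdeal ℂ (zeroLocus ℂ (Idl w z ℓ)) := by
    rw [mem_vanishingIdeal_iff]
    intro t ht
    rw [mem_zeroLocus_iff] at ht
    have : t = 0 := zero_of_mem hTOR hN (fun p hp => by
      have := ht p hp
      simpa [aeval_eq_eval] using this)
    simp [this]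
  rw [vanishingIdeal_zeroLocus_eq_radical] at h
  exact h

lemma exists_degree (hTOR : Stmt_TORG) {w : κ → ι → ℕ} {z : ι → ℂ} {ℓ : Option ι → κ → ℂ}
    (hN : Hyp w z ℓ) :
    ∃ d : ℕ, 1 ≤ d ∧ ∀ m : κ →₀ ℕ, m.degree = d →
      (monomial m 1 : MvPolynomial κ ℂ) ∈ Idl w z ℓ := by
  choose n hn using fun v => pow_mem hTOR hN v
  refine ⟨∑ v, n v + 1, by omega, fun m hm => ?_⟩
  obtain ⟨v, hv⟩ : ∃ v, n v ≤ m v := by
    by_contra h
    push Not at h
    rw [Finsupp.degree_eq_sum] at hm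
    have : ∑ v, m v ≤ ∑ v, n v := Finset.sum_le_sum fun v _ => (h v).le
    omega
  have h1 : (monomial m 1 : MvPolynomial κ ℂ) =
      monomial (m - Finsupp.single v (n v)) 1 * X v ^ n v := by
    rw [X_pow_eq_monomial, monomial_mul, one_mul, tsub_add_cancel_of_le]
    rw [Finsupp.single_le_iff]
    exact hv
  rw [h1]
  exact Ideal.mul_mem_left _ _ (hn v)

/-- the homogeneous component of a product with a linear form -/
lemma comp_mul {L : MvPolynomial κ ℂ} (hL : L.IsHomogeneous 1) (G : MvPolynomial κ ℂ) {d : ℕ}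
    (hd : 1 ≤ d) :
    homogeneousComponent d (G * L) = homogeneousComponent (d - 1) G * L := by
  conv_lhs => rw [← sum_homogeneousComponent G]
  rw [Finset.sum_mul, map_sum]
  have h1 : ∀ i, homogeneousComponent d (homogeneousComponent i G * L) =
      if i = d - 1 then homogeneousComponent (d - 1) G * L else 0 := by
    intro i
    have hm : homogeneousComponent i G * L ∈ homogeneousSubmodule κ ℂ (i + 1) := by
      rw [mem_homogeneousSubmodule]
      exact (homogeneousComponent_isHomogeneous i G).mul hL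
    rw [homogeneousComponent_of_mem hm]
    by_cases hi : i = d - 1
    · subst hi
      rw [if_pos (by omega), if_pos rfl]
    · rw [if_neg (by omega), if_neg hi]
  simp only [h1]
  rw [Finset.sum_ite_eq']
  split_ifs with h
  · rfl
  · have : homogeneousComponent (d - 1) G = 0 := by
      apply homogeneousComponent_eq_zero
      rw [Finset.mem_range] at h
      omega
    rw [this, zero_mul]

lemma Ln_homog (ℓ : Option ι → κ → ℂ) (o : Option ι) : (Ln ℓ o).IsHomogeneous 1 :=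
  IsHomogeneous.sum _ _ _ fun _ _ => isHomogeneous_C_mul_X _ _

lemma bn_homog (z : ι → ℂ) {m m' : κ →₀ ℕ} (γ γ' : ι → ℕ) (h : m.degree = m'.degree) :
    (bn z m m' γ γ').IsHomogeneous m.degree := by
  unfold bn
  rw [C_mul_monomial, C_mul_monomial]
  exact (isHomogeneous_monomial _ rfl).sub (isHomogeneous_monomial _ h.symm)

lemma comp_mem {w : κ → ι → ℕ} {z : ι → ℂ} (d : ℕ) {q : MvPolynomial κ ℂ}
    (hq : q ∈ Submodule.span ℂ (Bin w z)) :
    homogeneousComponent d q ∈ Submodule.span ℂ (BinD w z d) := by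
  induction hq using Submodule.span_induction with
  | mem x hx =>
    obtain ⟨m, m', γ, γ', hR, rfl⟩ := hx
    have hm : bn z m m' γ γ' ∈ homogeneousSubmodule κ ℂ m.degree := by
      rw [mem_homogeneousSubmodule]
      exact bn_homog z γ γ' hR.1
    rw [homogeneousComponent_of_mem hm]
    split_ifs with h
    · exact Submodule.subset_span ⟨m, m', γ, γ', ⟨h.symm, by rw [← hR.1]; exact h.symm⟩, hR.2, rfl⟩
    · exact Submodule.zero_mem _
  | zero => simp
  | add x y _ _ hx hy => rw [map_add]; exact Submodule.add_mem _ hx hy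
  | smul a x _ hx => rw [map_smul]; exact Submodule.smul_mem _ _ hx

end NLPMAux

open NLPMAux in
theorem stmt_NLP (hTOR : Stmt_TORG) : Stmt_NLP := by
  intro ι κ _ _ _ _ w z ℓ hN
  obtain ⟨d, hd, hmem⟩ := exists_degree hTOR (w := w) (z := z) (ℓ := ℓ) hN
  refine ⟨d, hd, fun m hm => ?_⟩
  obtain ⟨G, q, hq, hG⟩ := mem_Idl (hmem m hm)
  obtain ⟨n, lam, g, hg⟩ := Submodule.mem_span_set'.1 (comp_mem d hq)
  choose a b γ γ' hab hw hgeq using fun j => (g j).2
  refine ⟨fun o => homogeneousComponent (d - 1) (G o), n, lam, a, b, γ, γ',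
    fun o => homogeneousComponent_isHomogeneous _ _, hab, hw, ?_⟩
  have h1 : homogeneousComponent d (monomial m 1 : MvPolynomial κ ℂ) = monomial m 1 :=
    homogeneousComponent_eq_self (isHomogeneous_monomial _ hm)
  rw [← h1, hG, map_add, map_sum, ← hg]
  congr 1
  · refine Finset.sum_congr rfl fun o _ => ?_
    rw [comp_mul (Ln_homog ℓ o) _ hd]
    rfl
  · refine Finset.sum_congr rfl fun j _ => ?_
    rw [hgeq j, smul_eq_C_mul]
    rfl

end Pool.Agent.Mono.MG
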