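import Pool.Agent.Work.Monodromy.InterfaceM

/-!
# Block OPN (phase M): toroidal charts extend to neighbourhoods (helper48)

The determinant of the matrix which expresses the monomials of degree `d` by the linear forms and
the binomials is a polynomial in the base point.
-/

set_option autoImplicit false
set_option linter.unusedSectionVars false

namespace Pool.Agent.Mono.MG

open MvPolynomial NP

namespace OPNMAux

variable {ι κ : Type} [Fintype ι] [DecidableEq ι] [Fintype κ] [DecidableEq κ]

/-- the exponents of degree `d` -/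
def Md (κ : Type) [Fintype κ] [DecidableEq κ] (d : ℕ) : Finset (κ →₀ ℕ) :=
  (Finset.univ : Finset κ).finsuppAntidiag d

lemma mem_Md {d : ℕ} {m : κ →₀ ℕ} : m ∈ Md κ d ↔ m.degree = d := by
  rw [Md, Finset.mem_finsuppAntidiag, Finsupp.degree_eq_sum]
  simp

/-- the coefficients of the linear forms -/
noncomputable def Lp (Y : ι → MvPolynomial ι ℂ) (w : κ → ι → ℕ) (c : κ → MvPolynomial ι ℂ) :
    Option ι → κ → MvPolynomial ι ℂ
  | none => fun v => c v
  | some i => fun v => lg Y w c i v

/-- the value of a monomial at a toric point -/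
lemma tor_val [Nonempty κ] (w : κ → ι → ℕ) (k : ι → ℕ) (y Yx : ι → ℂ)
    (hk : ∀ i, Yx i = 0 ↔ k i ≠ 0) (hyY : ∀ i, k i = 0 → y i = Yx i) (a : κ →₀ ℕ)
    (γ : ι → ℕ) :
    (∏ i, Yx i ^ γ i) * ∏ v, (if v ∈ fc w k then ∏ i, y i ^ w v i else 0) ^ a v =
      if ∑ i, k i * (∑ v, a v * w v i + γ i) = a.degree * mnk w k then
        ∏ i, y i ^ (∑ v, a v * w v i + γ i) else 0 := by
  classical
  have mle : ∀ v, mnk w k ≤ kw w k v := fun v => ciInf_le (OrderBot.bddBelow _) v
  have mfc : ∀ v, kw w k v = mnk w k → v ∈ fc w k := fun v hv => by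
    simp only [fc, Finset.mem_filter, Finset.mem_univ, true_and]
    intro b
    rw [hv]
    exact mle b
  have fcm : ∀ v, v ∈ fc w k → kw w k v = mnk w k := fun v hv => by
    simp only [fc, Finset.mem_filter, Finset.mem_univ, true_and] at hv
    exact le_antisymm (le_ciInf hv) (mle v)
  have e1 : ∑ i, k i * (∑ v, a v * w v i + γ i) = ∑ v, a v * kw w k v + ∑ i, k i * γ i := by
    simp only [mul_add, Finset.sum_add_distrib, kw, Finset.mul_sum]
    congr 1
    rw [Finset.sum_comm]
    exact Finset.sum_congr rfl fun v _ => Finset.sum_congr rfl fun i _ => by ring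
  have e2 : a.degree * mnk w k = ∑ v, a v * mnk w k := by
    rw [Finsupp.degree_eq_sum, Finset.sum_mul]
  have e3 : ∑ v, a v * mnk w k ≤ ∑ v, a v * kw w k v :=
    Finset.sum_le_sum fun v _ => Nat.mul_le_mul_left _ (mle v)
  split_ifs with h
  · rw [e1, e2] at h
    have h1 : ∑ i, k i * γ i = 0 := by omega
    have h2 : ∑ v, a v * mnk w k = ∑ v, a v * kw w k v := by omega
    have h3 : ∀ v, a v ≠ 0 → v ∈ fc w k := fun v hv => by
      apply mfc
      have := (Finset.sum_eq_sum_iff_of_le fun v _ => Nat.mul_le_mul_left _ (mle v)).1 h2 v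
        (Finset.mem_univ v)
      exact (Nat.eq_of_mul_eq_mul_left (Nat.pos_of_ne_zero hv) this).symm
    have h4 : ∀ i, k i * γ i = 0 := fun i =>
      Finset.sum_eq_zero_iff.1 h1 i (Finset.mem_univ i)
    have h5 : ∏ i, Yx i ^ γ i = ∏ i, y i ^ γ i := Finset.prod_congr rfl fun i _ => by
      rcases Nat.mul_eq_zero.1 (h4 i) with h | h
      · rw [hyY i h]
      · rw [h, pow_zero, pow_zero]
    have h6 : ∏ v, (if v ∈ fc w k then ∏ i, y i ^ w v i else 0) ^ a v =
        ∏ v, (∏ i, y i ^ w v i) ^ a v := Finset.prod_congr rfl fun v _ => by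
      by_cases hv : a v = 0
      · rw [hv, pow_zero, pow_zero]
      · rw [if_pos (h3 v hv)]
    rw [h5, h6]
    simp only [pow_add, Finset.prod_mul_distrib, ← Finset.prod_pow]
    rw [mul_comm, Finset.prod_comm]
    congr 1
    refine Finset.prod_congr rfl fun i _ => ?_
    rw [← Finset.prod_pow_eq_pow_sum]
    exact Finset.prod_congr rfl fun v _ => by rw [← pow_mul, mul_comm]
  · by_cases hγ : ∀ i, k i * γ i = 0
    · have h1 : ∃ v, a v ≠ 0 ∧ v ∉ fc w k := by
        by_contra hc
        push Not at hc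
        apply h
        rw [e1, e2, Finset.sum_congr rfl fun i _ => hγ i, Finset.sum_const_zero, add_zero]
        refine Finset.sum_congr rfl fun v _ => ?_
        by_cases hv : a v = 0
        · rw [hv, zero_mul, zero_mul]
        · rw [fcm v (hc v hv)]
      obtain ⟨v, hv, hvf⟩ := h1
      rw [Finset.prod_eq_zero (s := Finset.univ)
        (f := fun v => (if v ∈ fc w k then ∏ i, y i ^ w v i else 0) ^ a v)
        (Finset.mem_univ v), mul_zero]
      rw [if_neg hvf, zero_pow hv]
    · push Not at hγ
      obtain ⟨i, hi⟩ := hγ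
      rw [Finset.prod_eq_zero (s := Finset.univ) (f := fun i => Yx i ^ γ i)
        (Finset.mem_univ i), zero_mul]
      have h1 : k i ≠ 0 := fun h0 => hi (by rw [h0, zero_mul])
      have h2 : γ i ≠ 0 := fun h0 => hi (by rw [h0, mul_zero])
      rw [(hk i).2 h1, zero_pow h2]

end OPNMAux

open OPNMAux in
theorem stmt_OPN (hNLP : Stmt_NLP) : Stmt_OPN := by
  classical
  intro ι κ _ _ _ _ f p Y s w c hch
  have hp : TNd Y w c p := hch.nd p rfl
  -- the hypothesis of NLP
  have hHyp : ∀ (k : ι → ℕ) (y : ι → ℂ), (∀ i, eval p (Y i) = 0 ↔ k i ≠ 0) → (∀ i, y i ≠ 0) →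
      (∀ i, k i = 0 → y i = eval p (Y i)) → (fc w k).Nonempty →
        ∃ o, ∑ v ∈ fc w k, eval p (Lp Y w c o v) * ∏ i, y i ^ w v i ≠ 0 := by
    intro k y hk hy hyY _
    by_cases h0 : ∑ v ∈ fc w k, eval p (c v) * ∏ i, y i ^ w v i = 0
    · obtain ⟨i, hi⟩ := hp k hk y hy hyY h0
      exact ⟨some i, hi⟩
    · exact ⟨none, h0⟩
  -- `κ` is not empty
  have hκ : Nonempty κ := by
    by_contra hne
    rw [not_nonempty_iff] at hne
    obtain ⟨i, hi⟩ := hp (fun i => if eval p (Y i) = 0 then 1 else 0)
      (fun i => by by_cases h : eval p (Y i) = 0 <;> simp [h])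
      (fun i => if eval p (Y i) = 0 then 1 else eval p (Y i))
      (fun i => by by_cases h : eval p (Y i) = 0 <;> simp [h])
      (fun i => by by_cases h : eval p (Y i) = 0 <;> simp [h])
      (by rw [Finset.sum_of_isEmpty])
    exact hi (by rw [Finset.sum_of_isEmpty])
  obtain ⟨d, hd, H⟩ := hNLP ι κ w (fun i => eval p (Y i)) (fun o v => eval p (Lp Y w c o v)) hHyp
  choose G n lam a b γ γ' hG hab hw hm using fun m : Md κ d => H m.1 (mem_Md.1 m.2)
  set e : Md κ d → MvPolynomial κ (MvPolynomial ι ℂ) := fun m =>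
    ∑ o, MvPolynomial.map C (G m o) * ∑ v, C (Lp Y w c o v) * X v +
      ∑ j, C (C (lam m j)) * (C (∏ i, Y i ^ γ m j i) * monomial (a m j) 1 -
        C (∏ i, Y i ^ γ' m j i) * monomial (b m j) 1) with he
  have hmap : ∀ (x : ι → ℂ) (m : Md κ d), MvPolynomial.map (eval x) (e m) =
      ∑ o, G m o * ∑ v, C (eval x (Lp Y w c o v)) * X v +
      ∑ j, C (lam m j) * (C (∏ i, eval x (Y i) ^ γ m j i) * monomial (a m j) 1 -
        C (∏ i, eval x (Y i) ^ γ' m j i) * monomial (b m j) 1) := by
    intro x m
    have h1 : ∀ g : MvPolynomial κ ℂ, MvPolynomial.map (eval x) (MvPolynomial.map C g) = g := by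
      intro g
      rw [MvPolynomial.map_map]
      have : (eval x).comp (C : ℂ →+* MvPolynomial ι ℂ) = RingHom.id ℂ := by
        ext t
        simp
      rw [this, MvPolynomial.map_id]
    simp only [he, map_add, map_sum, map_mul, map_sub, h1, map_C, map_X, map_monomial, map_one,
      eval_C, map_prod, map_pow]
  have hhom : ∀ (x : ι → ℂ) (m : Md κ d), (MvPolynomial.map (eval x) (e m)).IsHomogeneous d := by
    intro x m
    rw [hmap]
    refine IsHomogeneous.add ?_ ?_
    · refine IsHomogeneous.sum _ _ _ fun o _ => ?_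
      have h1 := (hG m o).mul (IsHomogeneous.sum Finset.univ
        (fun v => C (eval x (Lp Y w c o v)) * (X v : MvPolynomial κ ℂ)) 1
        fun v _ => isHomogeneous_C_mul_X _ _)
      rwa [Nat.sub_add_cancel hd] at h1
    · refine IsHomogeneous.sum _ _ _ fun j _ => ?_
      rw [C_mul_monomial, C_mul_monomial]
      have h1 := ((isHomogeneous_monomial (∏ i, eval x (Y i) ^ γ m j i * 1)
        (hab m j).1).sub (isHomogeneous_monomial (∏ i, eval x (Y i) ^ γ' m j i * 1)
        (hab m j).2))
      have h2 := (isHomogeneous_C κ (lam m j)).mul h1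
      rw [zero_add] at h2
      simpa using h2
  set M : Matrix (Md κ d) (Md κ d) (MvPolynomial ι ℂ) :=
    Matrix.of fun m m' => coeff m'.1 (e m) with hM
  have hdetp : eval p M.det = 1 := by
    rw [RingHom.map_det]
    have : (eval p).mapMatrix M = 1 := by
      ext m m'
      rw [RingHom.mapMatrix_apply, Matrix.map_apply, hM, Matrix.of_apply, ← coeff_map, hmap,
        ← hm m, coeff_monomial, Matrix.one_apply]
      by_cases h : m = m'
      · rw [if_pos (by rw [h]), if_pos h]
      · rw [if_neg (fun h' => h (Subtype.ext h')), if_neg h]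
    rw [this, Matrix.det_one]
  refine ⟨M.det * (jm Y).det * s, ?_, hch.eq, ?_, ?_, ?_⟩
  · rw [map_mul, map_mul, hdetp, one_mul]
    exact mul_ne_zero (hch.det p rfl) (hch.s0 p rfl)
  · intro x hx h0
    apply hx
    rw [map_mul, map_mul, h0, mul_zero, zero_mul]
  · intro x hx h0
    apply hx
    rw [map_mul, h0, mul_zero]
  · intro x hx k hk y hy hyY h0
    by_contra hcon
    push Not at hcon
    have hdet : ((eval x).mapMatrix M).det ≠ 0 := by
      rw [← RingHom.map_det]
      intro h
      apply hx
      rw [map_mul, map_mul, h, zero_mul, zero_mul]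
    set T : κ → ℂ := fun v => if v ∈ fc w k then ∏ i, y i ^ w v i else 0 with hT
    have hL : ∀ o, ∑ v, eval x (Lp Y w c o v) * T v = 0 := by
      intro o
      have h1 : ∑ v, eval x (Lp Y w c o v) * T v =
          ∑ v ∈ fc w k, eval x (Lp Y w c o v) * ∏ i, y i ^ w v i := by
        rw [← Finset.sum_subset (Finset.subset_univ (fc w k))
          (f := fun v => eval x (Lp Y w c o v) * T v)]
        · refine Finset.sum_congr rfl fun v hv => ?_
          simp only [hT, if_pos hv]
        · intro v _ hv
          simp only [hT, if_neg hv, mul_zero]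
      rw [h1]
      cases o with
      | none => exact h0
      | some i => exact hcon i
    have hval : ∀ m : Md κ d, eval T (MvPolynomial.map (eval x) (e m)) = 0 := by
      intro m
      rw [hmap]
      simp only [map_add, map_sum, map_mul, map_sub, eval_C, eval_X, eval_monomial, one_mul]
      rw [Finset.sum_eq_zero (fun o _ => by rw [hL o, mul_zero]), zero_add]
      refine Finset.sum_eq_zero fun j _ => ?_
      have h2 : ∀ (q : κ →₀ ℕ), (q.prod fun v r => T v ^ r) = ∏ v, T v ^ q v := fun q =>
        Finsupp.prod_fintype _ _ (by simp)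
      have h3 := tor_val w k y (fun i => eval x (Y i)) hk hyY (a m j) (γ m j)
      have h4 := tor_val w k y (fun i => eval x (Y i)) hk hyY (b m j) (γ' m j)
      rw [(hab m j).1] at h3
      rw [(hab m j).2] at h4
      simp only [← hw m j] at h4
      rw [h2, h2]
      rw [hT]
      rw [h3, h4, sub_self, mul_zero]
    have hvec : ((eval x).mapMatrix M).mulVec (fun m' : Md κ d => ∏ v, T v ^ m'.1 v) = 0 := by
      ext m
      rw [Pi.zero_apply, ← hval m, eval_eq']
      simp only [Matrix.mulVec, dotProduct, RingHom.mapMatrix_apply, Matrix.map_apply, hM,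
        Matrix.of_apply]
      simp only [← coeff_map]
      rw [Finset.sum_coe_sort (Md κ d)
        (fun m' => coeff m' (MvPolynomial.map (eval x) (e m)) * ∏ v, T v ^ m' v)]
      symm
      refine Finset.sum_subset ?_ ?_
      · intro m' hm'
        rw [mem_Md, Finsupp.degree_eq_weight_one]
        exact hhom x m (mem_support_iff.1 hm')
      · intro m' _ hm'
        rw [notMem_support_iff.1 hm', zero_mul]
    have hzero := Matrix.eq_zero_of_mulVec_eq_zero hdet hvec
    obtain ⟨v, hv⟩ : ∃ v, v ∈ fc w k := by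
      obtain ⟨v, _, hv⟩ := Finset.exists_min_image Finset.univ (fun v => kw w k v)
        ⟨Classical.arbitrary κ, Finset.mem_univ _⟩
      exact ⟨v, by simpa [fc] using fun b => hv b (Finset.mem_univ b)⟩
    have h5 := congrFun hzero ⟨Finsupp.single v d, mem_Md.2 (by simp)⟩
    simp only [Pi.zero_apply] at h5
    rw [Finset.prod_eq_single v (fun b _ hb => by
      rw [Finsupp.single_apply, if_neg (Ne.symm hb), pow_zero]) (fun h => absurd
        (Finset.mem_univ _) h), Finsupp.single_eq_same] at h5
    have h6 : T v ≠ 0 := by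
      simp only [hT, if_pos hv]
      exact Finset.prod_ne_zero_iff.2 fun i _ => pow_ne_zero _ (hy i)
    exact (pow_ne_zero d h6) h5

end Pool.Agent.Mono.MG
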