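import Pool.Agent.Work.Monodromy.InterfaceM

/-!
# Block PCS of phase M: a region is covered by parts on which the local zeta functions agree
(helper71)
-/

set_option autoImplicit false

namespace Pool.Agent.Mono.MG

open MvPolynomial Filter Topology NP

namespace PCSMAux

theorem cu {ι : Type} : Constructible (Set.univ : Set (ι → ℂ)) := by
  have h := Constructible.zero (0 : MvPolynomial ι ℂ)
  have e : {x : ι → ℂ | eval x (0 : MvPolynomial ι ℂ) = 0} = Set.univ := by
    ext x; simp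
  rwa [e] at h

theorem ce {ι : Type} : Constructible (∅ : Set (ι → ℂ)) := by
  have h := (cu (ι := ι)).compl
  rwa [Set.compl_univ] at h

theorem cfa {ι α : Type} [Finite α] (P : α → Set (ι → ℂ)) (h : ∀ a, Constructible (P a)) :
    Constructible {x : ι → ℂ | ∀ a, x ∈ P a} := by
  classical
  have := Fintype.ofFinite α
  have key : ∀ s : Finset α, Constructible {x : ι → ℂ | ∀ a ∈ s, x ∈ P a} := by
    intro s
    induction s using Finset.induction_on with
    | empty =>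
      have e : {x : ι → ℂ | ∀ a ∈ (∅ : Finset α), x ∈ P a} = Set.univ := by ext x; simp
      rw [e]; exact cu
    | insert a s _ ih =>
      have e : {x : ι → ℂ | ∀ b ∈ insert a s, x ∈ P b} =
          P a ∩ {x : ι → ℂ | ∀ a ∈ s, x ∈ P a} := by
        ext x; simp
      rw [e]; exact (h a).inter ih
  have e : {x : ι → ℂ | ∀ a, x ∈ P a} = {x : ι → ℂ | ∀ a ∈ (Finset.univ : Finset α), x ∈ P a} := by
    ext x; simp
  rw [e]; exact key _

/-- the class of a point is one -/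
theorem val_pt {R : Type} [CommRing R] (μ : MotivicMeasure R) {ι : Type} [Finite ι] (x : ι → ℂ)
    (hx : Constructible ({x} : Set (ι → ℂ))) : μ.val ({x} : Set (ι → ℂ)) = 1 := by
  rw [← μ.point]
  symm
  apply μ.map (Set.univ : Set (Empty → ℂ)) {x} (fun j => C (x j)) cu hx
  refine ⟨?_, ?_, ?_⟩
  · intro y _
    simp only [eval_C, Set.mem_singleton_iff]
  · intro y _ y' _ _
    exact Subsingleton.elim _ _
  · intro y hy
    refine ⟨fun z => z.elim, Set.mem_univ _, ?_⟩
    rw [Set.mem_singleton_iff.1 hy]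
    simp only [eval_C]

theorem con_pt {ι : Type} [Finite ι] (x : ι → ℂ) : Constructible ({x} : Set (ι → ℂ)) := by
  have h : ({x} : Set (ι → ℂ)) = {y | ∀ i, y ∈ {z : ι → ℂ | eval z (X i - C (x i)) = 0}} := by
    ext y
    simp only [Set.mem_singleton_iff, Set.mem_ofPred_eq, map_sub, eval_X, eval_C, sub_eq_zero]
    constructor
    · rintro rfl i
      rfl
    · intro h
      funext i
      exact h i
  rw [h]
  exact cfa _ fun i => Constructible.zero _

theorem con_lab {ι : Type} [Fintype ι] [DecidableEq ι] (Y : ι → MvPolynomial ι ℂ) (A : Finset ι) :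
    Constructible (ZA Y A) := by
  have h : ZA Y A = {x | ∀ i, x ∈ {z : ι → ℂ | eval z (Y i) = 0 ↔ i ∈ A}} := rfl
  rw [h]
  apply cfa
  intro i
  by_cases hi : i ∈ A
  · have h2 : {z : ι → ℂ | eval z (Y i) = 0 ↔ i ∈ A} = {z | eval z (Y i) = 0} := by
      ext z
      simp only [Set.mem_ofPred_eq, hi, iff_true]
    rw [h2]
    exact Constructible.zero _
  · have h2 : {z : ι → ℂ | eval z (Y i) = 0 ↔ i ∈ A} = {z | eval z (Y i) = 0}ᶜ := by
      ext z
      simp only [Set.mem_ofPred_eq, hi, iff_false, Set.mem_compl_iff]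
    rw [h2]
    exact (Constructible.zero _).compl

theorem TCh_mono {ι κ : Type} [Fintype ι] [DecidableEq ι] [Fintype κ] [DecidableEq κ]
    {f : MvPolynomial ι ℂ} {S S' : Set (ι → ℂ)} {Y : ι → MvPolynomial ι ℂ}
    {s : MvPolynomial ι ℂ} {w : κ → ι → ℕ} {c : κ → MvPolynomial ι ℂ} (h : TCh f S Y s w c)
    (hS : S' ⊆ S) : TCh f S' Y s w c :=
  ⟨h.eq, fun x hx => h.det x (hS hx), fun x hx => h.s0 x (hS hx), fun x hx => h.nd x (hS hx)⟩

/-- a partition as a function -/
theorem lab {ι : Type} {P : Set (ι → ℂ) → ℤ → Prop} (h : ∃ (n : ℕ) (T : Fin n → Set (ι → ℂ))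
    (χ : Fin n → ℤ), (∀ j, Constructible (T j)) ∧ (∀ p, ∃! j, p ∈ T j) ∧ ∀ j,
      ∀ S : Set (ι → ℂ), Constructible S → S ⊆ T j → P S (χ j)) :
    ∃ (n : ℕ) (φ : (ι → ℂ) → Fin n) (χ : Fin n → ℤ), (∀ j, Constructible {p | φ p = j}) ∧
      ∀ j, ∀ S : Set (ι → ℂ), Constructible S → (∀ p ∈ S, φ p = j) → P S (χ j) := by
  obtain ⟨n, T, χ, h1, h2, h3⟩ := h
  choose φ hφ hφ2 using h2
  refine ⟨n, φ, χ, ?_, ?_⟩
  · intro j
    have e : {p | φ p = j} = T j := by
      ext p
      simp only [Set.mem_ofPred_eq]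
      constructor
      · rintro rfl
        exact hφ p
      · intro hp
        exact (hφ2 p j hp).symm
    rw [e]
    exact h1 j
  · intro j S hS hSj
    apply h3 j S hS
    intro p hp
    have := hφ p
    rwa [hSj p hp] at this

theorem lab0 {ι : Type} (P : Set (ι → ℂ) → ℤ → Prop) (q : Prop) (h : q → ∃ (n : ℕ)
    (T : Fin n → Set (ι → ℂ)) (χ : Fin n → ℤ), (∀ j, Constructible (T j)) ∧ (∀ p, ∃! j, p ∈ T j) ∧
      ∀ j, ∀ S : Set (ι → ℂ), Constructible S → S ⊆ T j → P S (χ j)) :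
    ∃ (n : ℕ) (φ : (ι → ℂ) → Fin n) (χ : Fin n → ℤ), (∀ j, Constructible {p | φ p = j}) ∧
      (q → ∀ j, ∀ S : Set (ι → ℂ), Constructible S → (∀ p ∈ S, φ p = j) → P S (χ j)) := by
  by_cases hq : q
  · obtain ⟨n, φ, χ, h1, h2⟩ := lab (h hq)
    exact ⟨n, φ, χ, h1, fun _ => h2⟩
  · refine ⟨1, fun _ => 0, fun _ => 0, ?_, fun h' => absurd h' hq⟩
    intro j
    have e : {p : ι → ℂ | (0 : Fin 1) = j} = Set.univ := by
      ext p
      simp only [Set.mem_ofPred_eq, Set.mem_univ, iff_true]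
      exact Subsingleton.elim _ _
    rw [e]
    exact cu

/-- the parts of `S` given by a label with constructible fibres -/
theorem parts {ι Λ : Type} [Fintype Λ] (S : Set (ι → ℂ)) (hS : Constructible S)
    (Φ : (ι → ℂ) → Λ) (hΦ : ∀ a, Constructible {p | Φ p = a}) :
    ∃ (n : ℕ) (T : Fin n → Set (ι → ℂ)) (x : Fin n → ι → ℂ) (a : Fin n → Λ),
      (∀ j, Constructible (T j)) ∧ (∀ p ∈ S, ∃! j, p ∈ T j) ∧ (∀ j, T j ⊆ S) ∧
      (∀ j, x j ∈ T j) ∧ ∀ j, ∀ p ∈ T j, Φ p = a j := by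
  classical
  let e := Fintype.equivFin {a : Λ // (S ∩ {p | Φ p = a}).Nonempty}
  refine ⟨Fintype.card {a : Λ // (S ∩ {p | Φ p = a}).Nonempty},
    fun j => S ∩ {p | Φ p = (e.symm j).1}, fun j => (e.symm j).2.some,
    fun j => (e.symm j).1, ?_, ?_, ?_, ?_, ?_⟩
  · intro j
    exact hS.inter (hΦ _)
  · intro p hp
    refine ⟨e ⟨Φ p, ⟨p, hp, rfl⟩⟩, ?_, ?_⟩
    · refine ⟨hp, ?_⟩
      simp only [Set.mem_ofPred_eq, Equiv.symm_apply_apply]
    · intro j hj
      rw [← Equiv.symm_apply_eq]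
      apply Subtype.ext
      exact hj.2.symm
  · intro j
    exact Set.inter_subset_left
  · intro j
    exact (e.symm j).2.some_mem
  · intro j p hp
    exact hp.2

end PCSMAux

open PCSMAux in
theorem stmt_PCS (hV : Stmt_FAMV) (hW : Stmt_FAMW) (hC : Stmt_CMPM) (hX : Stmt_EXCHM) :
    Stmt_PCS := by
  intro E ι κ _ _ _ _ _ f S Y s w c e he hS hT h0
  classical
  have hV' := fun (A : Finset ι) (F : Finset κ) => lab0
    (fun S n => Qd (E.val (VS Y w c S A F)) (A.card + 1 - rk (wA w A) F) (n * (E.val S).eval 1))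
    F.Nonempty (fun hF => hV E ι κ Y w c A F hF)
  have hW' := fun (A : Finset ι) (F : Finset κ) (d : ℕ) => lab0
    (fun S n => Qd (E.val (WS Y s w c S A F d)) (A.card + 1 - rk (wA w A) F)
      (n * (E.val S).eval 1))
    (F.Nonempty ∧ 1 ≤ d) (fun hF => hW E ι κ Y s w c A F d hF.1 hF.2)
  choose nV φV χV hV1 hV2 using hV'
  choose nW φW χW hW1 hW2 using hW'
  let Φ : (ι → ℂ) → (Finset ι × ((A : Finset ι) → (F : Finset κ) → Fin (nV A F)) ×
      ((A : Finset ι) → (F : Finset κ) → (d : e.divisors) → Fin (nW A F d))) := fun p =>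
    (Finset.univ.filter (fun i => eval p (Y i) = 0), fun A F => φV A F p,
      fun A F d => φW A F d p)
  have hΦ : ∀ a, Constructible {p | Φ p = a} := by
    rintro ⟨A, a, b⟩
    have h1 : {p | Φ p = (A, a, b)} = ZA Y A ∩ ({p | ∀ A, p ∈ {p | ∀ F, p ∈
        {p | φV A F p = a A F}}} ∩ {p | ∀ A, p ∈ {p | ∀ F, p ∈ {p | ∀ d : e.divisors, p ∈
          {p | φW A F d p = b A F d}}}}) := by
      ext p
      simp only [Φ, Set.mem_ofPred_eq, Prod.mk.injEq, Set.mem_inter_iff, ZA, Finset.ext_iff,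
        Finset.mem_filter, Finset.mem_univ, true_and, funext_iff]
    rw [h1]
    exact (con_lab Y A).inter ((cfa _ fun A => cfa _ fun F => hV1 A F _).inter
      (cfa _ fun A => cfa _ fun F => cfa _ fun d => hW1 A F d _))
  obtain ⟨n, T, x, a, hT1, hT2, hT3, hT4, hT5⟩ := parts S hS Φ hΦ
  refine ⟨n, T, x, hT1, hT2, hT3, hT4, ?_⟩
  intro j
  have hTj : TCh f (T j) Y s w c := TCh_mono hT (hT3 j)
  refine ⟨?_, ?_⟩
  · intro d u hd hu
    exact (hX ι κ E.toHodgeMeasure f (T j) Y s w c d u 0 (hT1 j) hTj hd hu).1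
  · have hA : T j ⊆ ZA Y (a j).1 := by
      intro p hp i
      have h1 := congrArg Prod.fst (hT5 j p hp)
      simp only [Φ] at h1
      rw [← h1]
      simp only [Finset.mem_filter, Finset.mem_univ, true_and]
    have hpt : (E.val ({x j} : Set (ι → ℂ))).eval 1 = 1 := by
      rw [val_pt E.toMotivicMeasure (x j) (con_pt _)]
      simp
    apply hC E ι κ f (T j) Y s w c (a j).1 (x j) e he (hT1 j) hTj hA
      (fun p hp => h0 p (hT3 j hp)) (hT4 j)
    · intro F hF
      have h1 : ∀ p ∈ T j, φV (a j).1 F p = (a j).2.1 (a j).1 F := by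
        intro p hp
        have h2 := congrArg (fun q => q.2.1 (a j).1 F) (hT5 j p hp)
        exact h2
      refine ⟨χV (a j).1 F ((a j).2.1 (a j).1 F), hV2 (a j).1 F hF _ (T j) (hT1 j) h1, ?_⟩
      have h3 := hV2 (a j).1 F hF ((a j).2.1 (a j).1 F) {x j} (con_pt _) (fun p hp => by
        rw [Set.mem_singleton_iff.1 hp]
        exact h1 _ (hT4 j))
      simp only [hpt, mul_one] at h3
      exact h3
    · intro d hd F hF
      have hd1 : 1 ≤ d := Nat.pos_of_mem_divisors hd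
      have h1 : ∀ p ∈ T j, φW (a j).1 F d p = (a j).2.2 (a j).1 F ⟨d, hd⟩ := by
        intro p hp
        have h2 := congrArg (fun q => q.2.2 (a j).1 F ⟨d, hd⟩) (hT5 j p hp)
        exact h2
      refine ⟨χW (a j).1 F d ((a j).2.2 (a j).1 F ⟨d, hd⟩),
        hW2 (a j).1 F d ⟨hF, hd1⟩ _ (T j) (hT1 j) h1, ?_⟩
      have h3 := hW2 (a j).1 F d ⟨hF, hd1⟩ ((a j).2.2 (a j).1 F ⟨d, hd⟩) {x j} (con_pt _) (fun p hp => by
        rw [Set.mem_singleton_iff.1 hp]
        exact h1 _ (hT4 j))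
      simp only [hpt, mul_one] at h3
      exact h3

end Pool.Agent.Mono.MG
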