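import Pool.Agent.Work.Monodromy.InterfaceM
import Pool.Agent.Work.MonodromyL.ASML
import Pool.Agent.Work.MonodromyL.TRZ

/-!
# Phase M, block PTLM: the local zeta function at a nondegenerate point (helper2)
-/

set_option autoImplicit false

namespace Pool.Agent.Mono.MG

open MvPolynomial Filter Topology NP LO FinalAux

namespace PTLMAux

theorem JS_eq {ι : Type} (f : MvPolynomial ι ℂ) (p : ι → ℂ) (d K : ℕ) :
    JS f {p} d K = jetAt f p d K := by
  ext z
  simp only [JS, jetAt, Set.mem_setOf_eq, Set.mem_singleton_iff]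
  exact and_congr_right fun _ => funext_iff

end PTLMAux

open PTLMAux

/-- block PTLM -/
theorem stmt_PTLM (hRLIL : Stmt_RLIL) (hDCP : LO.Stmt_DCP) (hHLOC : LO.Stmt_HLOC)
    (hTRJ : LO.Stmt_TRJ) (hEXT : LO.Stmt_EXT) (hIIIL : LO.Stmt_IIIL) : Stmt_PTLM := by
  classical
  intro E ι _ _ f p e hf _ hnd he
  obtain ⟨φ, hφ1, hφ2, hser⟩ := hnd
  have hφ : FCo p φ := ⟨hφ1, hφ2⟩
  obtain ⟨κ, i1, i2, w, A, hne, hinj, hA, hN⟩ := hDCP ι (aeval φ f) hser
  obtain ⟨h, hh, hC⟩ := hHLOC ι κ w
  obtain ⟨P, D, hTP, hD, hpole⟩ := part_II ι κ w h e hinj hh he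
  obtain ⟨hsm, c, hlim⟩ := hRLIL E ι κ w (lead A) h e P D hinj hN hh hC he hTP hD
  -- the classes
  have hcls : ∀ d K : ℕ, 1 ≤ d →
      E.val (jetAt (poly w (lead A)) (fun _ => 0) d K) = E.val (JS f {p} d K) := by
    intro d K hd
    obtain ⟨G, hG⟩ := TRZLAux.exists_trunc (aeval φ f : MvPowerSeries ι ℂ) K
    have h1 := hTRJ E.toHodgeMeasure ι f p φ G K d hφ hG
    rw [hA] at hG
    have h2 := hEXT E.toHodgeMeasure ι κ w A G K d hN hd hG
    rw [JS_eq, h1, h2]
  refine ⟨?_, pref e * (aeval (line ι) P / aeval (line ι) D) + RatFunc.C c, ?_, ?_⟩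
  · intro d u hd hu
    have h1 := hsm d u hd hu
    simp only at h1 ⊢
    refine h1.congr fun m => ?_
    rw [hcls d m hd]
  · intro s hs
    by_cases hz : ∃ z : ℤ, s = z
    · obtain ⟨z, rfl⟩ := hz
      exact eig_z f hf z
    push Not at hz
    have hs' : Polynomial.aeval s
        (pref e * (aeval (line ι) P / aeval (line ι) D)).denom = 0 := by
      rcases pole_add hs with h | h
      · exact h
      · rw [RatFunc.denom_C] at h
        simp at h
    rcases pole_mul hs' with h3 | h3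
    · exact absurd (by rw [pole_pref h3]; push_cast; rfl) (hz (-1))
    · obtain ⟨s₀, hs₀, hL⟩ := hpole s hz h3
      have hs₀z : ∀ z : ℤ, s₀ ≠ z := by
        intro z hz'
        apply hz z
        rw [← hs₀, hz']
        simp
      obtain ⟨β, z, hβ, hW⟩ := hIIIL ι κ f p φ w A h s₀ hφ hA hN hC hh hs₀z hL
      rw [← hs₀]
      exact eig_wit f s₀ β z hs₀z hβ hW
  · filter_upwards [hlim] with r hr
    refine hr.congr fun u => ?_
    unfold zL
    refine Finset.sum_congr rfl fun d hd => ?_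
    congr 1
    refine tsum_congr fun m => ?_
    simp only
    rw [hcls d m (Nat.pos_of_mem_divisors hd)]

end Pool.Agent.Mono.MG
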