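import Pool.Agent.Work.Monodromy.InterfaceM

/-!
# QCM: quasi-compactness (helper99)
-/

set_option autoImplicit false

namespace Pool.Agent.Mono.MG

open MvPolynomial Filter Topology NP

theorem stmt_QCM : Stmt_QCM := by
  intro σ _ S g hg
  have hfg : (Ideal.span (g '' S)).FG := IsNoetherian.noetherian _
  obtain ⟨B, hB, hBe⟩ := (Submodule.fg_span_iff_fg_span_finset_subset (g '' S)).1 hfg
  have hch : ∀ b ∈ B, ∃ q ∈ S, g q = b := fun b hb => hB hb
  choose! q hq hqb using hch
  classical
  refine ⟨B.image q, ?_, ?_⟩
  · intro p hp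
    obtain ⟨b, hb, rfl⟩ := Finset.mem_image.1 hp
    exact hq b hb
  · intro p hp
    by_contra hno
    push Not at hno
    have h1 : ∀ f ∈ Ideal.span (g '' S), eval p f = 0 := by
      intro f hf
      have hf' : f ∈ Submodule.span (MvPolynomial σ ℂ) (B : Set (MvPolynomial σ ℂ)) := by
        rw [← hBe]
        exact hf
      refine Submodule.span_induction (p := fun f _ => eval p f = 0) ?_ ?_ ?_ ?_ hf'
      · intro b hb
        rw [← hqb b hb]
        exact hno _ (Finset.mem_image_of_mem q hb)
      · exact map_zero _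
      · intro x y _ _ hx hy
        rw [map_add, hx, hy, add_zero]
      · intro a x _ hx
        rw [smul_eq_mul, map_mul, hx, mul_zero]
    exact hg p hp (h1 _ (Ideal.subset_span (Set.mem_image_of_mem g hp)))

end Pool.Agent.Mono.MG
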