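import Pool.Agent.Work.Monodromy.InterfaceM
import Pool.Agent.Work.Monodromy14.RLI14
import Pool.Agent.Work.Monodromy14.RLM14
import Pool.Agent.Work.MonodromyL.LIMBL

/-!
# Phase M, block RLIL: real limits of the local zeta functions (helper2; from LIMBL of helper51,
RLM14 of helper28, RLI14 of helper10)
-/

set_option autoImplicit false

namespace Pool.Agent.Mono.MG

open MvPolynomial Filter Topology NP LO

namespace RLILMAux

open LIMAAux LIMBAux LIMBLAux RLM14Aux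

/-- the limits over real numbers -/
theorem rlm (hEXCH : LO.Stmt_EXCHL) (hFAC : LO.Stmt_FACL) (hGRK : NP.Stmt_GRK) (E : EulerMeasure)
    {ι κ : Type} [Fintype ι] [DecidableEq ι] [Fintype κ] [DecidableEq κ]
    [Nonempty κ] (w : κ → ι → ℕ) (a : κ → ℂ) (h : κ → ℝ) (e : ℕ) (hinj : Function.Injective w)
    (ha : NdC w a) (hh : LinearIndependent ℚ h) (hcpt : Cpt w h) (he : 1 ≤ e) :
    ∃ c : ℚ, ∀ (s : ℕ) (J : Finset κ → ℝ),
      (∀ C ∈ cls0 w h, Tendsto (fun ε : ℝ => ε ^ (Fintype.card ι + 1 - C.card) *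
        Fs w C (pz (fun _ => 0) s 0) ε) (𝓝[>] 0) (𝓝 (J C))) →
      Tendsto (zL (Fintype.card ι) (fun d m => E.val (jetAt (poly w a) (fun _ => 0) d m)) e s)
        (𝓝[>] 1)
        (𝓝 ((∑ C ∈ cls0 w h, (-1) ^ (C.card + 1) * ((nuE w e C : ℝ) -
          (if e = 1 ∧ 2 ≤ C.card then (nuE w 1 C : ℝ) / (1 + s) else 0)) * J C) - (c : ℝ))) := by
  classical
  set n : ℕ := Fintype.card ι with hn
  have hd1 : ∀ d ∈ e.divisors, 1 ≤ d := fun d hd => Nat.pos_of_mem_divisors hd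
  set c : ℚ := ∑ d ∈ e.divisors, ((ArithmeticFunction.moebius (e / d) : ℤ) : ℚ) *
    (((E.val (jetAt (poly w a) (fun _ => 0) d 0)).eval 1 : ℤ) : ℚ) with hc
  refine ⟨c, fun s J hJ => ?_⟩
  have hlim := hFAC E ι κ w a h e s J hinj ha hh hcpt he hJ
  -- the series as sums over the faces
  have hface : ∀ d ∈ e.divisors, ∀ ε : ℝ, 0 < ε → (∑' K : ℕ,
      Polynomial.aeval (Real.exp ε) (E.val (jetAt (poly w a) (fun _ => 0) d K)) *
        (Real.exp ε)⁻¹ ^ (K * n) * (Real.exp ε)⁻¹ ^ (K * s)) =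
      ∑ F : Finset κ, SFp w s F ε * (Polynomial.aeval (Real.exp ε) (E.val (WF w a d F)) +
            Polynomial.aeval (Real.exp ε) (E.val (VF w a F)) *
              ((Real.exp ε - 1) / (Real.exp ε ^ (s + 1) - 1))) := by
    intro d hd ε hε
    have h1 := (hEXCH ι κ w a E.toHodgeMeasure d (Real.exp ε) s ha (hd1 d hd)
      (Real.one_lt_exp_iff.2 hε)).2
    refine sum_facesL hGRK w s ε hε (fun F => Polynomial.aeval (Real.exp ε) (E.val (WF w a d F)) +
            Polynomial.aeval (Real.exp ε) (E.val (VF w a F)) *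
              ((Real.exp ε - 1) / (Real.exp ε ^ (s + 1) - 1))) _ ?_
    refine h1.congr_fun ?_
    intro k
    rw [exL]
    split_ifs
    · rw [ex_eq]
    · rfl
  -- the terms `m = 0`
  have hzero : Tendsto (fun ε : ℝ => ∑ d ∈ e.divisors,
      ((ArithmeticFunction.moebius (e / d) : ℤ) : ℝ) *
        Polynomial.aeval (Real.exp ε) (E.val (jetAt (poly w a) (fun _ => 0) d 0))) (𝓝[>] 0)
      (𝓝 (c : ℝ)) := by
    have h1 : (c : ℝ) = ∑ d ∈ e.divisors, ((ArithmeticFunction.moebius (e / d) : ℤ) : ℝ) *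
        (((E.val (jetAt (poly w a) (fun _ => 0) d 0)).eval 1 : ℤ) : ℝ) := by
      rw [hc]
      push_cast
      rfl
    rw [h1]
    exact tendsto_finsetSum _ fun d _ => (tendsto_aeval _).const_mul _
  -- the combination
  have hcomb := (hlim.sub hzero).comp log_tendsto
  refine hcomb.congr' ?_
  filter_upwards [self_mem_nhdsWithin] with u hu
  have hu1 : 1 < u := hu
  have hu0 : 0 < u := by linarith
  have hε : 0 < Real.log u := Real.log_pos hu1
  simp only [Function.comp_apply]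
  have hd2 : ∀ d ∈ e.divisors, (∑' m : ℕ, if m = 0 then 0 else
      Polynomial.aeval u (E.val (jetAt (poly w a) (fun _ => 0) d m)) * u⁻¹ ^ (m * n) *
        u⁻¹ ^ (m * s)) =
      ∑ F : Finset κ, SFp w s F (Real.log u) *
        (Polynomial.aeval (Real.exp (Real.log u)) (E.val (WF w a d F)) +
            Polynomial.aeval (Real.exp (Real.log u)) (E.val (VF w a F)) *
              ((Real.exp (Real.log u) - 1) / (Real.exp (Real.log u) ^ (s + 1) - 1))) -
        Polynomial.aeval (Real.exp (Real.log u)) (E.val (jetAt (poly w a) (fun _ => 0) d 0)) := by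
    intro d hd
    rw [← hface d hd _ hε, Real.exp_log hu0]
    exact tsum_drop n (fun K => E.val (jetAt (poly w a) (fun _ => 0) d K)) s u hu1
      (hEXCH ι κ w a E.toHodgeMeasure d u 0 ha (hd1 d hd) hu1).1
  symm
  rw [zL, Finset.sum_congr rfl fun d hd => by rw [hd2 d hd]]
  simp only [mul_sub, Finset.sum_sub_distrib]
  congr 1
  simp only [Finset.mul_sum]
  rw [Finset.sum_comm]
  refine Finset.sum_congr rfl fun F _ => ?_
  rw [BrL, Finset.mul_sum]
  refine Finset.sum_congr rfl fun d _ => ?_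
  ring

end RLILMAux

open RLILMAux RLI14Aux in
theorem stmt_RLIL (hEXCH : LO.Stmt_EXCHL) (hFAC : LO.Stmt_FACL) (hGRK : NP.Stmt_GRK)
    (hJC : NP.Stmt_JC) (hGENR : NP.Stmt_GENR) (hREL : NP.Stmt_REL) : Stmt_RLIL := by
  classical
  intro E ι κ _ _ _ _ _ w a h e P D hw ha hh hcpt he hTf hD
  refine ⟨fun d u hd hu =>
    (hEXCH ι κ w a E.toHodgeMeasure d u 0 ha hd hu).1, ?_⟩
  obtain ⟨c, hc⟩ := rlm hEXCH hFAC hGRK E w a h e hw ha hh hcpt he
  obtain ⟨ζ, hζ, hgen⟩ := hGENR ι κ w h hh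
  have hD0 : IASMAux.lineP D ≠ 0 := by
    intro h0
    apply hD
    rw [IASMAux.aeval_line, h0, map_zero]
  have hev : ∀ᶠ s : ℕ in atTop, (IASMAux.lineP D).eval (s : ℚ) ≠ 0 := by
    have hfin : {s : ℕ | (IASMAux.lineP D).eval (s : ℚ) = 0}.Finite := by
      have h1 := Polynomial.finite_setOfPred_isRoot hD0
      exact h1.preimage (Nat.cast_injective.injOn)
    have h2 := hfin.compl_mem_cofinite
    rw [← Nat.cofinite_eq_atTop]
    exact h2
  refine ⟨-c, ?_⟩
  filter_upwards [hev, eventually_ge_atTop 1] with s hDs hs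
  have hs0 : (0 : ℝ) < s := by exact_mod_cast hs
  have hJ : ∀ C : Finset κ, ∃ J : ℝ, C ∈ cls0 w h →
      Tendsto (fun ε : ℝ => ε ^ (Fintype.card ι + 1 - C.card) *
        Fs w C (pz (fun _ => 0) (s : ℝ) 0) ε) (𝓝[>] 0) (𝓝 J) ∧
      Tendsto (fun η : ℝ => (nuE w 1 C : ℝ) * Itg w h (inl C) 1 (pz ζ (s : ℝ) η)) (𝓝[>] 0)
        (𝓝 J) := by
    intro C
    by_cases hC : C ∈ cls0 w h
    · obtain ⟨J, h1⟩ := hJC ι κ w h hh ζ s hζ hs0 (hgen s hs0) C hC
      exact ⟨J, fun _ => h1⟩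
    · exact ⟨0, fun hC' => absurd hC' hC⟩
  choose J hJ using hJ
  have h1 := hc s J (fun C hC => (hJ C hC).1)
  set S : ℝ := ∑ C ∈ cls0 w h, (-1) ^ (C.card + 1) * ((nuE w e C : ℝ) -
        (if e = 1 ∧ 2 ≤ C.card then (nuE w 1 C : ℝ) / (1 + s) else 0)) * J C with hS
  -- the limit of the sums
  have h2 : Tendsto (fun η : ℝ => ∑ C ∈ cls0 w h, (-1) ^ (C.card + 1) * ((nuE w e C : ℝ) -
        (if e = 1 ∧ 2 ≤ C.card then (nuE w 1 C : ℝ) / (1 + s) else 0)) *
          ((nuE w 1 C : ℝ) * Itg w h (inl C) 1 (pz ζ (s : ℝ) η))) (𝓝[>] 0) (𝓝 S) := by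
    apply tendsto_finsetSum
    intro C hC
    exact ((hJ C hC).2).const_mul _
  have h3 := h2.mul (IASMAux.tendsto_aeval ζ s D)
  have h4 := (IASMAux.tendsto_aeval ζ s P).const_mul (if e = 1 then -(s : ℝ) / (s + 1) else -1)
  have h5 : (fun η : ℝ => (∑ C ∈ cls0 w h, (-1) ^ (C.card + 1) * ((nuE w e C : ℝ) -
        (if e = 1 ∧ 2 ≤ C.card then (nuE w 1 C : ℝ) / (1 + s) else 0)) *
          ((nuE w 1 C : ℝ) * Itg w h (inl C) 1 (pz ζ (s : ℝ) η))) *
            (aeval (pz ζ (s : ℝ) η) D : ℝ)) =ᶠ[𝓝[>] 0]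
      fun η : ℝ => (if e = 1 then -(s : ℝ) / (s + 1) else -1) *
        (aeval (pz ζ (s : ℝ) η) P : ℝ) := by
    filter_upwards [hgen s hs0] with η hη
    rw [IASMAux.main_id hREL w h hh e s (pz ζ (s : ℝ) η) hη rfl, mul_assoc, hTf _ hη]
  have h6 := tendsto_nhds_unique_of_eventuallyEq h3 h4 h5
  rw [IASMAux.aeval_pz, IASMAux.aeval_pz] at h6
  have hDs' : (((IASMAux.lineP D).eval (s : ℚ) : ℚ) : ℝ) ≠ 0 := by exact_mod_cast hDs
  have h7 : S - (c : ℝ) = ((((pref e * (aeval (line ι) P / aeval (line ι) D) +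
      RatFunc.C (-c)).eval (RingHom.id ℚ) (s : ℚ) : ℚ)) : ℝ) := by
    rw [IASMAux.aeval_line, IASMAux.aeval_line, eval_pref _ _ _ _ _ hDs]
    have h8 : S = (if e = 1 then -(s : ℝ) / (s + 1) else -1) *
        (((IASMAux.lineP P).eval (s : ℚ) : ℚ) : ℝ) /
          (((IASMAux.lineP D).eval (s : ℚ) : ℚ) : ℝ) := by
      rw [eq_div_iff hDs', h6]
    rw [h8]
    push_cast
    split_ifs
    · push_cast
      ring
    · push_cast
      ring
  rw [h7] at h1
  exact h1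

end Pool.Agent.Mono.MG
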