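import Pool.Agent.Work.Monodromy.InterfaceM
import Pool.Agent.Work.Monodromy12.TORM12

/-!
# Block TORF (phase M): a torus splits off from a family of hypersurfaces (helper24; after
`Monodromy12/TORM12`, helper96)
-/

set_option autoImplicit false
set_option linter.unusedSectionVars false

namespace Pool.Agent.Mono.MG

open MvPolynomial NP

namespace TORFMAux

open TORMAux

section

variable {σ ι κ : Type} [Fintype σ] [Fintype ι] [DecidableEq ι] [Fintype κ] [DecidableEq κ]

omit [Fintype σ] [DecidableEq ι] [DecidableEq κ] in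
theorem cons_VE [Finite σ] (g : κ → MvPolynomial σ ℂ) (w : κ → ι → ℕ) {S : Set (σ → ℂ)}
    (hS : Constructible S) : Constructible (VE g w S) := by
  refine Constructible.and (Constructible.comap Sum.inl hS)
    (Constructible.and (Constructible.all fun i => ?_) ?_)
  · have h := Constructible.ne (X (Sum.inr i) : MvPolynomial (σ ⊕ ι) ℂ)
    simpa only [eval_X] using h
  · have h := Constructible.zero (∑ v, rename Sum.inl (g v) *
      ∏ i, (X (Sum.inr i) : MvPolynomial (σ ⊕ ι) ℂ) ^ w v i)
    have h2 : {z : σ ⊕ ι → ℂ | ∑ v, eval (fun e => z (Sum.inl e)) (g v) *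
        ∏ i, z (Sum.inr i) ^ w v i = 0} =
        {x | eval x (∑ v, rename Sum.inl (g v) *
          ∏ i, (X (Sum.inr i) : MvPolynomial (σ ⊕ ι) ℂ) ^ w v i) = 0} := by
      ext x
      simp only [Set.mem_ofPred_eq, map_sum, map_mul, map_prod, map_pow, eval_X, eval_rename,
        Function.comp_def]
    rw [h2]
    exact h

end

end TORFMAux

open TORMAux TORFMAux in
theorem stmt_TORF (hADB : NP.Stmt_ADB) : Stmt_TORF := by
  classical
  intro ι κ _ _ _ _ _ w
  obtain ⟨a₀⟩ := ‹Nonempty κ›
  obtain ⟨d, m, A, B, c, hAB, hBA, hrk, hdm, h, -⟩ := hADB ι κ w Finset.univ a₀ (Finset.mem_univ _)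
  refine ⟨d, c, by omega, hrk, ?_⟩
  intro σ _ g S hS R _ μ
  have := Fintype.ofFinite σ
  have hm : Fintype.card ι - d = m := by omega
  let N : ℕ := ∑ i, ∑ j, (B i j).natAbs
  have hN : ∀ i j, 0 ≤ B i j + (N : ℤ) := by
    intro i j
    have h1 : (B i j).natAbs ≤ N :=
      (Finset.single_le_sum (f := fun j => (B i j).natAbs) (fun _ _ => Nat.zero_le _)
        (Finset.mem_univ j)).trans
      (Finset.single_le_sum (f := fun i => ∑ j, (B i j).natAbs) (fun _ _ => Nat.zero_le _)
        (Finset.mem_univ i))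
    omega
  let s : Set ((σ ⊕ Fin d) ⊕ Fin m → ℂ) := {x | (fun i => x (Sum.inl i)) ∈ VE g c S ∧
    (fun j => x (Sum.inr j)) ∈ Tor m}
  have hs : Constructible s := Constructible.prodSet (cons_VE g c hS) (cons_Tor m)
  -- the torus coordinates
  let ρ : Fin d ⊕ Fin m → (σ ⊕ Fin d) ⊕ Fin m := Sum.elim (fun j => Sum.inl (Sum.inr j)) Sum.inr
  have hne : ∀ y ∈ s, ∀ j, y (ρ j) ≠ 0 := by
    rintro y ⟨h1, h2⟩ (j | j)
    · exact h1.2.1 j
    · exact h2 j
  let den : MvPolynomial ((σ ⊕ Fin d) ⊕ Fin m) ℂ := ∏ j, X (ρ j) ^ N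
  let num : σ ⊕ ι → MvPolynomial ((σ ⊕ Fin d) ⊕ Fin m) ℂ :=
    Sum.elim (fun e => X (Sum.inl (Sum.inl e)) * den) fun i => ∏ j, X (ρ j) ^ (B i j + N).toNat
  have hden : ∀ y ∈ s, eval y den ≠ 0 := by
    intro y hy
    simp only [den, map_prod, map_pow, eval_X]
    exact Finset.prod_ne_zero_iff.2 fun j _ => pow_ne_zero _ (hne y hy j)
  have hev : ∀ y ∈ s, (fun q => eval y (num q) / eval y den) =
      Sum.elim (fun e => y (Sum.inl (Sum.inl e))) (mon B fun j => y (ρ j)) := by
    intro y hy
    funext q
    rcases q with e | i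
    · simp only [num, Sum.elim_inl, map_mul, eval_X]
      rw [mul_div_assoc, div_self (hden y hy), mul_one]
    · simp only [num, den, Sum.elim_inr, map_prod, map_pow, eval_X]
      rw [← Finset.prod_div_distrib, mon]
      refine Finset.prod_congr rfl fun j _ => ?_
      rw [div_eq_iff (pow_ne_zero _ (hne y hy j)), ← zpow_natCast, ← zpow_natCast,
        Int.toNat_of_nonneg (hN i j), zpow_add₀ (hne y hy j)]
  have hval : μ.val s = μ.val (VE g w S) := by
    apply stmt_YM R μ _ _ s (VE g w S) num den hs (cons_VE g w hS) hden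
    refine ⟨?_, ?_, ?_⟩
    · intro y hy
      change (fun q => eval y (num q) / eval y den) ∈ VE g w S
      rw [hev y hy]
      have hB := mon_ne B (fun j => y (ρ j)) (hne y hy)
      refine ⟨hy.1.1, hB, ?_⟩
      simp only [Sum.elim_inl, Sum.elim_inr]
      rw [iff_zero w (fun v => eval (fun e => y (Sum.inl (Sum.inl e))) (g v)) Finset.univ a₀ d m A
        c h _ hB, mon_mon A B _ (hne y hy), hAB, mon_one]
      exact hy.1.2.2
    · intro y hy y' hy' hyy
      change (fun q => eval y (num q) / eval y den) =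
        (fun q => eval y' (num q) / eval y' den) at hyy
      rw [hev y hy, hev y' hy'] at hyy
      have h0 : ∀ e, y (Sum.inl (Sum.inl e)) = y' (Sum.inl (Sum.inl e)) := fun e => by
        have := congrFun hyy (Sum.inl e)
        simpa using this
      have h1 : mon B (fun j => y (ρ j)) = mon B fun j => y' (ρ j) := by
        funext i
        have := congrFun hyy (Sum.inr i)
        simpa using this
      have h2 := congrArg (mon A) h1
      rw [mon_mon A B _ (hne y hy), mon_mon A B _ (hne y' hy'), hAB, mon_one, mon_one] at h2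
      funext q
      rcases q with (e | j) | j
      · exact h0 e
      · exact congrFun h2 (Sum.inl j)
      · exact congrFun h2 (Sum.inr j)
    · intro x hx
      set x' : ι → ℂ := fun i => x (Sum.inr i) with hx'
      have hx0 : ∀ i, x' i ≠ 0 := hx.2.1
      have hA := mon_ne A x' hx0
      set y : (σ ⊕ Fin d) ⊕ Fin m → ℂ := Sum.elim (Sum.elim (fun e => x (Sum.inl e))
        fun j => mon A x' (Sum.inl j)) fun j => mon A x' (Sum.inr j) with hy
      have hyρ : (fun j => y (ρ j)) = mon A x' := by
        funext j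
        rcases j with j | j <;> rfl
      have hys : y ∈ s := by
        refine ⟨⟨hx.1, fun j => hA _, ?_⟩, fun j => hA _⟩
        exact (iff_zero w (fun v => eval (fun e => x (Sum.inl e)) (g v)) Finset.univ a₀ d m A c h
          x' hx0).1 hx.2.2
      refine ⟨y, hys, ?_⟩
      change (fun q => eval y (num q) / eval y den) = x
      rw [hev y hys, hyρ, mon_mon B A x' hx0, hBA, mon_one]
      funext q
      rcases q with e | i <;> rfl
  rw [← hval, μ.prod _ _ (cons_VE g c hS) (cons_Tor m), val_Tor, mul_comm, hm]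

end Pool.Agent.Mono.MG
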