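import Pool.Agent.Work.Monodromy.InterfaceM

/-!
# Block TORG (phase M): points of the affine toric variety of the `(w_v, 1)` and `(e_i, 0)` with
prescribed values (helper24)
-/

set_option autoImplicit false
set_option linter.unusedSectionVars false

namespace Pool.Agent.Mono.MG

open NP

namespace TORGMAux

variable {ι κ : Type} [Fintype ι] [DecidableEq ι] [Fintype κ] [DecidableEq κ]

/-- the exponents -/
def wx (w : κ → ι → ℕ) : κ ⊕ (ι ⊕ Unit) → ι ⊕ Unit → ℕ
  | Sum.inl v, Sum.inl i => w v i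
  | Sum.inl _, Sum.inr _ => 1
  | Sum.inr (Sum.inl i), Sum.inl j => if j = i then 1 else 0
  | Sum.inr (Sum.inl _), Sum.inr _ => 0
  | Sum.inr (Sum.inr _), _ => 0

/-- the values -/
def tx (t : κ → ℂ) (z : ι → ℂ) : κ ⊕ (ι ⊕ Unit) → ℂ := Sum.elim t (Sum.elim z fun _ => 1)

lemma sum_wx_inl (w : κ → ι → ℕ) (m : κ ⊕ (ι ⊕ Unit) → ℕ) (i : ι) :
    ∑ q, m q * wx w q (Sum.inl i) = ∑ v, m (Sum.inl v) * w v i + m (Sum.inr (Sum.inl i)) := by
  rw [Fintype.sum_sum_type, Fintype.sum_sum_type]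
  simp [wx]

lemma sum_wx_inr (w : κ → ι → ℕ) (m : κ ⊕ (ι ⊕ Unit) → ℕ) (u : Unit) :
    ∑ q, m q * wx w q (Sum.inr u) = ∑ v, m (Sum.inl v) := by
  rw [Fintype.sum_sum_type, Fintype.sum_sum_type]
  simp [wx]

lemma prod_tx (t : κ → ℂ) (z : ι → ℂ) (m : κ ⊕ (ι ⊕ Unit) → ℕ) :
    ∏ q, tx t z q ^ m q =
      (∏ v, t v ^ m (Sum.inl v)) * ∏ i, z i ^ m (Sum.inr (Sum.inl i)) := by
  rw [Fintype.prod_sum_type, Fintype.prod_sum_type]
  simp [tx]

end TORGMAux

open TORGMAux in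
theorem stmt_TORG (hTOR : NP.Stmt_TOR) (hFACE : NP.Stmt_FACE) : Stmt_TORG := by
  classical
  intro ι κ _ _ _ _ w t z hrel ⟨v₀, hv₀⟩
  set F : Finset (κ ⊕ (ι ⊕ Unit)) := Finset.univ.filter fun q => tx t z q ≠ 0 with hF
  have hmF : ∀ q, q ∈ F ↔ tx t z q ≠ 0 := fun q => by simp [hF]
  obtain ⟨hface, x, c, hx, hc, hxc⟩ := hTOR (ι ⊕ Unit) (κ ⊕ (ι ⊕ Unit)) (wx w) (tx t z) (by
    intro m m' _ h2
    rw [prod_tx, prod_tx]
    refine hrel _ _ (fun i => m (Sum.inr (Sum.inl i))) (fun i => m' (Sum.inr (Sum.inl i))) ?_ ?_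
    · have h := h2 (Sum.inr ())
      rwa [sum_wx_inr, sum_wx_inr] at h
    · intro i
      have h := h2 (Sum.inl i)
      rwa [sum_wx_inl, sum_wx_inl] at h) F hmF
  have hu : Sum.inr (Sum.inr ()) ∈ F := by rw [hmF]; simp [tx]
  have hc1 : c = 1 := by
    have h := hxc _ hu
    simpa [tx, wx, eq_comm] using h
  obtain ⟨k', hk'⟩ := hFACE _ _ (wx w) F ⟨_, hu⟩ hface
  have hmin : ∀ q, 0 ≤ ∑ j, k' j * (wx w q j : ℤ) := by
    intro q
    have h := (hk' _).1 hu q
    simpa [wx] using h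
  have hiff : ∀ q, tx t z q ≠ 0 ↔ ∑ j, k' j * (wx w q j : ℤ) = 0 := by
    intro q
    rw [← hmF, hk']
    constructor
    · intro h
      refine le_antisymm ?_ (hmin q)
      have h1 := h (Sum.inr (Sum.inr ()))
      simpa [wx] using h1
    · intro h q'
      rw [h]
      exact hmin q'
  have hz : ∀ i, 0 ≤ k' (Sum.inl i) ∧ (z i ≠ 0 ↔ k' (Sum.inl i) = 0) := by
    intro i
    have h1 := hmin (Sum.inr (Sum.inl i))
    have h2 := hiff (Sum.inr (Sum.inl i))
    rw [Fintype.sum_sum_type] at h1 h2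
    simp [wx] at h1 h2
    exact ⟨h1, h2⟩
  have hsum : ∀ v, ∑ j, k' j * (wx w (Sum.inl v) j : ℤ) =
      ∑ i, k' (Sum.inl i) * (w v i : ℤ) + k' (Sum.inr ()) := by
    intro v
    rw [Fintype.sum_sum_type]
    simp [wx]
  have hkk : ∀ i, (((k' (Sum.inl i)).toNat : ℕ) : ℤ) = k' (Sum.inl i) := fun i =>
    Int.toNat_of_nonneg (hz i).1
  set k : ι → ℕ := fun i => (k' (Sum.inl i)).toNat with hk
  have hkw : ∀ v, ((kw w k v : ℕ) : ℤ) + k' (Sum.inr ()) =
      ∑ j, k' j * (wx w (Sum.inl v) j : ℤ) := by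
    intro v
    rw [hsum, kw]
    push_cast
    simp only [hk, hkk]
  have hfc : ∀ v, v ∈ fc w k ↔ t v ≠ 0 := by
    intro v
    have h1 := hiff (Sum.inl v)
    have h0 := (hiff (Sum.inl v₀)).1 (by simpa [tx] using hv₀)
    rw [← hkw] at h0 h1
    have h1' : t v ≠ 0 ↔ (kw w k v : ℤ) + k' (Sum.inr ()) = 0 := h1
    rw [h1']
    simp only [fc, Finset.mem_filter, Finset.mem_univ, true_and]
    constructor
    · intro h
      have h2 := h v₀
      have h3 := hmin (Sum.inl v)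
      rw [← hkw] at h3
      omega
    · intro h b
      have h3 := hmin (Sum.inl b)
      rw [← hkw] at h3
      omega
  refine ⟨k, fun i => x (Sum.inl i), x (Sum.inr ()), ?_, fun i => hx _, ?_, hx _, hfc, ?_⟩
  · intro i
    have h1 := (hz i).2
    have h2 := hkk i
    constructor
    · intro h h3
      have h4 : k' (Sum.inl i) = 0 := by
        have : (k i : ℤ) = k' (Sum.inl i) := h2
        rw [← this, h3]
        rfl
      exact (h1.2 h4) h
    · intro h
      by_contra h3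
      apply h
      have h4 := h1.1 h3
      simp [hk, h4]
  · intro i hi
    have h4 : k' (Sum.inl i) = 0 := by
      have h2 := hkk i
      have : (k i : ℤ) = k' (Sum.inl i) := h2
      rw [← this, hi]
      rfl
    have h5 : Sum.inr (Sum.inl i) ∈ F := by
      rw [hmF]
      simpa [tx] using (hz i).2.2 h4
    have h6 := hxc _ h5
    rw [hc1, Fintype.prod_sum_type] at h6
    simp [tx, wx] at h6
    exact h6.symm
  · intro v hv
    have h5 : Sum.inl v ∈ F := by
      rw [hmF]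
      simpa [tx] using (hfc v).1 hv
    have h6 := hxc _ h5
    rw [hc1, Fintype.prod_sum_type] at h6
    simp [tx, wx] at h6
    rw [h6]
    ring

end Pool.Agent.Mono.MG
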