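import Pool.Agent.Work.Monodromy.InterfaceM
import Pool.Agent.Work.Monodromy12.XPD12

/-!
# Block XPDM: the coefficients of `∑ c_v Y^{w_v}` on a jet of order `k` (helper39)
-/

set_option autoImplicit false

namespace Pool.Agent.Mono.MG

open MvPolynomial NP

namespace XPDMAux

/-! ### Leading coefficients -/

/-- `A` is divisible by `X ^ a` and its coefficient `a` is `α`. -/
def Ld (A : Polynomial ℂ) (a : ℕ) (α : ℂ) : Prop := (Polynomial.X ^ a ∣ A) ∧ A.coeff a = α

theorem Ld.mul {A B : Polynomial ℂ} {a b : ℕ} {α β : ℂ} (hA : Ld A a α) (hB : Ld B b β) :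
    Ld (A * B) (a + b) (α * β) := by
  obtain ⟨⟨U, rfl⟩, hα⟩ := hA
  obtain ⟨⟨V, rfl⟩, hβ⟩ := hB
  have h : Polynomial.X ^ a * U * (Polynomial.X ^ b * V) = Polynomial.X ^ (a + b) * (U * V) := by
    rw [pow_add]; ring
  rw [h]
  refine ⟨dvd_mul_right _ _, ?_⟩
  rw [Polynomial.coeff_X_pow_mul', if_pos le_rfl, Nat.sub_self] at hα hβ ⊢
  rw [Polynomial.mul_coeff_zero, hα, hβ]

theorem Ld.one : Ld 1 0 1 := ⟨by simp, by simp⟩

theorem Ld.pow {A : Polynomial ℂ} {a : ℕ} {α : ℂ} (hA : Ld A a α) (n : ℕ) :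
    Ld (A ^ n) (a * n) (α ^ n) := by
  induction n with
  | zero => rw [pow_zero, pow_zero, mul_zero]; exact Ld.one
  | succ n ih =>
    rw [pow_succ, pow_succ, Nat.mul_succ]
    exact ih.mul hA

theorem Ld.prod {β : Type} (s : Finset β) (A : β → Polynomial ℂ) (a : β → ℕ) (α : β → ℂ)
    (h : ∀ i ∈ s, Ld (A i) (a i) (α i)) : Ld (∏ i ∈ s, A i) (∑ i ∈ s, a i) (∏ i ∈ s, α i) := by
  classical
  induction s using Finset.induction_on with
  | empty =>
    rw [Finset.prod_empty, Finset.sum_empty, Finset.prod_empty]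
    exact Ld.one
  | insert x s hx ih =>
    rw [Finset.prod_insert hx, Finset.sum_insert hx, Finset.prod_insert hx]
    exact (h x (Finset.mem_insert_self x s)).mul
      (ih fun i hi => h i (Finset.mem_insert_of_mem hi))

theorem Ld.sum {β : Type} (s : Finset β) (A : β → Polynomial ℂ) (a : ℕ) (α : β → ℂ)
    (h : ∀ i ∈ s, Ld (A i) a (α i)) : Ld (∑ i ∈ s, A i) a (∑ i ∈ s, α i) := by
  refine ⟨Finset.dvd_sum fun i hi => (h i hi).1, ?_⟩
  rw [Polynomial.finsetSum_coeff]
  exact Finset.sum_congr rfl fun i hi => (h i hi).2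

theorem dvd_prod_sub {β : Type} (s : Finset β) (D : Polynomial ℂ) (A B : β → Polynomial ℂ)
    (h : ∀ i ∈ s, D ∣ A i - B i) : D ∣ ∏ i ∈ s, A i - ∏ i ∈ s, B i := by
  classical
  induction s using Finset.induction_on with
  | empty => simp
  | insert x s hx ih =>
    rw [Finset.prod_insert hx, Finset.prod_insert hx]
    have h1 := h x (Finset.mem_insert_self x s)
    have h2 := ih fun i hi => h i (Finset.mem_insert_of_mem hi)
    have h3 : A x * ∏ i ∈ s, A i - B x * ∏ i ∈ s, B i =
        (A x - B x) * ∏ i ∈ s, A i + B x * (∏ i ∈ s, A i - ∏ i ∈ s, B i) := by ring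
    rw [h3]
    exact dvd_add (h1.mul_right _) (h2.mul_left _)

theorem coeff_zero_of_dvd {D : Polynomial ℂ} {a l : ℕ} (h : Polynomial.X ^ a ∣ D) (hl : l < a) :
    D.coeff l = 0 := (Polynomial.X_pow_dvd_iff.1 h) l hl

/-- The difference of the powers. -/
theorem Ld.pow_sub {P P' : Polynomial ℂ} {k j : ℕ} {y τ : ℂ} (hP : Ld P k y) (hj : 1 ≤ j)
    (hD : Ld (P' - P) (k + j) τ) (n : ℕ) :
    Ld (P' ^ n - P ^ n) (k * n + j) ((n : ℂ) * y ^ (n - 1) * τ) := by
  have hP' : Ld P' k y := by
    have h1 : P' = P + (P' - P) := by ring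
    have h2 : Polynomial.X ^ k ∣ P' - P := dvd_trans (pow_dvd_pow _ (Nat.le_add_right k j)) hD.1
    refine ⟨?_, ?_⟩
    · rw [h1]; exact dvd_add hP.1 h2
    · rw [h1, Polynomial.coeff_add, hP.2, coeff_zero_of_dvd hD.1 (by omega), add_zero]
  have h2 := Commute.mul_geom_sum₂ (Commute.all P' P) n
  rw [← h2]
  rcases Nat.eq_zero_or_pos n with rfl | hn
  · simp only [Finset.range_zero, Finset.sum_empty, mul_zero, Nat.cast_zero, zero_mul]
    exact ⟨dvd_zero _, by simp⟩
  have h3 : Ld (∑ i ∈ Finset.range n, P' ^ i * P ^ (n - 1 - i)) (k * (n - 1))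
      (∑ _i ∈ Finset.range n, y ^ (n - 1)) := by
    refine Ld.sum _ _ _ _ fun i hi => ?_
    have hi' := Finset.mem_range.1 hi
    have h4 := (hP'.pow i).mul (hP.pow (n - 1 - i))
    rw [← Nat.mul_add, ← pow_add] at h4
    have h5 : i + (n - 1 - i) = n - 1 := by omega
    rw [h5] at h4
    exact h4
  rw [Finset.sum_const, Finset.card_range, nsmul_eq_mul] at h3
  have h6 := hD.mul h3
  have h7 : k + j + k * (n - 1) = k * n + j := by
    obtain ⟨m, rfl⟩ := Nat.exists_eq_succ_of_ne_zero hn.ne'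
    rw [Nat.succ_sub_one, Nat.mul_succ]
    omega
  rw [h7, mul_comm τ] at h6
  exact h6

set_option linter.unusedSectionVars false

variable {ι κ : Type} [Fintype ι] [DecidableEq ι] [Fintype κ] [DecidableEq κ]

theorem aeval_gg (Y : ι → MvPolynomial ι ℂ) (w : κ → ι → ℕ) (c : κ → MvPolynomial ι ℂ)
    (x : ι → Polynomial ℂ) : (aeval x (gg Y w c) : Polynomial ℂ) =
      ∑ v, aeval x (c v) * ∏ i, (aeval x (Y i) : Polynomial ℂ) ^ w v i := by
  rw [gg, map_sum]
  refine Finset.sum_congr rfl fun v _ => ?_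
  rw [map_mul, map_prod]
  congr 1
  exact Finset.prod_congr rfl fun i _ => map_pow _ _ _

theorem coeff_zero_aeval {K : ℕ} (z : ι × Fin (K + 1) → ℂ) (g : MvPolynomial ι ℂ) :
    (aeval (jet z) g : Polynomial ℂ).coeff 0 = eval (fun i => z (i, 0)) g := by
  induction g using MvPolynomial.induction_on with
  | C a => simp
  | add p q hp hq => rw [map_add, map_add, Polynomial.coeff_add, hp, hq]
  | mul_X p i hp =>
    rw [map_mul, map_mul, aeval_X, eval_X, Polynomial.mul_coeff_zero, hp, XPDAux.coeff_jet,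
      dif_pos (Nat.succ_pos K)]
    rfl

/-- truncated orders -/
theorem min_le_kw (w : κ → ι → ℕ) (k : ι → ℕ) (K : ℕ) (v : κ) :
    min (kw w k v) (K + 1) ≤ kw w (fun i => min (k i) (K + 1)) v := by
  by_cases h : ∃ i, w v i ≠ 0 ∧ K + 1 ≤ k i
  · obtain ⟨i, hi, hk⟩ := h
    have := XPDAux.le_kw w (fun i => min (k i) (K + 1)) v i hi
    simp only [min_eq_right hk] at this
    exact (min_le_right _ _).trans this
  · push Not at h
    refine (min_le_left _ _).trans (le_of_eq ?_)
    refine Finset.sum_congr rfl fun i _ => ?_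
    by_cases hi : w v i = 0
    · rw [hi, Nat.mul_zero, Nat.mul_zero]
    · change k i * w v i = min (k i) (K + 1) * w v i
      rw [min_eq_left (h i hi).le]

theorem dvd_mon (s : Finset ι) (q u : ι → ℕ) (P : ι → Polynomial ℂ)
    (h : ∀ i ∈ s, Polynomial.X ^ q i ∣ P i) :
    (Polynomial.X : Polynomial ℂ) ^ (∑ i ∈ s, q i * u i) ∣ ∏ i ∈ s, P i ^ u i := by
  rw [← Finset.prod_pow_eq_pow_sum]
  refine Finset.prod_dvd_prod_of_dvd _ _ fun i hi => ?_
  rw [pow_mul]
  exact pow_dvd_pow_of_dvd (h i hi) _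

theorem mon_Ld [Nonempty κ] (w : κ → ι → ℕ) (k : ι → ℕ) (K : ℕ) (v : κ) (hv : v ∈ fc w k)
    (hm : mnk w k ≤ K) (P : ι → Polynomial ℂ) (y : ι → ℂ)
    (hP : ∀ i, k i ≤ K → Ld (P i) (k i) (y i)) (s : Finset ι) :
    Ld (∏ i ∈ s, P i ^ w v i) (∑ i ∈ s, k i * w v i) (∏ i ∈ s, y i ^ w v i) := by
  refine Ld.prod s _ _ _ fun i _ => ?_
  by_cases hi : w v i = 0
  · rw [hi, pow_zero, pow_zero, Nat.mul_zero]
    exact Ld.one
  · refine (hP i ?_).pow _
    have := XPDAux.le_kw w k v i hi
    rw [(XPDAux.mem_fc w k v).1 hv] at this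
    exact this.trans hm

theorem Ld_aeval {K : ℕ} (z : ι × Fin (K + 1) → ℂ) (g : MvPolynomial ι ℂ) :
    Ld (aeval (jet z) g : Polynomial ℂ) 0 (eval (fun i => z (i, 0)) g) :=
  ⟨by rw [pow_zero]; exact one_dvd _, coeff_zero_aeval z g⟩

/-- Cramer's rule -/
theorem det_mul_eq (Y : ι → MvPolynomial ι ℂ) (x₀ : ι → ℂ) (i₀ : ι) (δ : ι → ℂ) (τ : ℂ)
    (h : ∀ a, ∑ b, eval x₀ (pderiv b (Y a)) * δ b = if a = i₀ then τ else 0)
    (g : MvPolynomial ι ℂ) :
    eval x₀ (jm Y).det * ∑ b, eval x₀ (pderiv b g) * δ b = τ * eval x₀ (dY Y i₀ g) := by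
  set M : Matrix ι ι ℂ := (jm Y).map (eval x₀) with hM
  have hdet : eval x₀ (jm Y).det = M.det := by
    rw [hM, RingHom.map_det]; rfl
  have hadj : ∀ b a, eval x₀ ((jm Y).adjugate b a) = M.adjugate b a := by
    intro b a
    have h1 : (eval x₀).mapMatrix (jm Y).adjugate = ((eval x₀).mapMatrix (jm Y)).adjugate :=
      RingHom.map_adjugate _ _
    exact congrFun (congrFun h1 b) a
  have hmv : M.mulVec δ = Pi.single i₀ τ := by
    funext a
    rw [Matrix.mulVec, dotProduct, Pi.single_apply]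
    exact h a
  have hδ : ∀ b, M.det * δ b = M.adjugate b i₀ * τ := by
    intro b
    have h1 : M.adjugate.mulVec (M.mulVec δ) = M.det • δ := by
      rw [Matrix.mulVec_mulVec, Matrix.adjugate_mul, Matrix.smul_mulVec, Matrix.one_mulVec]
    rw [hmv] at h1
    have h2 := congrFun h1 b
    rw [Matrix.mulVec_single] at h2
    simp only [Pi.smul_apply, smul_eq_mul, Matrix.col_apply, MulOpposite.smul_eq_mul_unop,
      MulOpposite.unop_op] at h2
    exact h2.symm
  rw [hdet, Finset.mul_sum, dY, map_sum, Finset.mul_sum]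
  refine Finset.sum_congr rfl fun b _ => ?_
  rw [map_mul, hadj]
  linear_combination (eval x₀ (pderiv b g)) * hδ b

theorem eq_zero_of_jm (Y : ι → MvPolynomial ι ℂ) (x₀ : ι → ℂ)
    (hdet : eval x₀ (jm Y).det ≠ 0) (δ : ι → ℂ)
    (h : ∀ a, ∑ b, eval x₀ (pderiv b (Y a)) * δ b = 0) : δ = 0 := by
  set M : Matrix ι ι ℂ := (jm Y).map (eval x₀) with hM
  have hdet' : M.det ≠ 0 := by
    have : eval x₀ (jm Y).det = M.det := by
      rw [hM, RingHom.map_det]; rfl
    rwa [this] at hdet
  refine Matrix.eq_zero_of_mulVec_eq_zero hdet' ?_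
  funext a
  exact h a

end XPDMAux

open XPDMAux

/-- XPDM -/
theorem stmt_XPDM (hJ : Stmt_JDF) : Stmt_XPDM := by
  classical
  intro ι κ _ _ _ _ _ Y w c K k z hz
  have hdv : ∀ i, Polynomial.X ^ (min (k i) (K + 1)) ∣ (aeval (jet z) (Y i) : Polynomial ℂ) := by
    intro i
    rw [Polynomial.X_pow_dvd_iff]
    intro l hl
    exact hz i l (lt_of_lt_of_le hl (min_le_left _ _))
      (Nat.lt_succ_iff.1 (lt_of_lt_of_le hl (min_le_right _ _)))
  refine ⟨fun l hl hlK => ?_, fun y hy => ⟨fun hm => ?_, ?_⟩⟩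
  · rw [aeval_gg, Polynomial.finsetSum_coeff]
    apply Finset.sum_eq_zero
    intro v _
    have h1 := dvd_mon Finset.univ (fun i => min (k i) (K + 1)) (w v) _ fun i _ => hdv i
    refine coeff_zero_of_dvd (h1.mul_left _) (lt_of_lt_of_le (lt_min ?_ ?_) (min_le_kw w k K v))
    · exact lt_of_lt_of_le hl (XPDAux.mnk_le w k v)
    · omega
  · have hLd : ∀ i, k i ≤ K → Ld (aeval (jet z) (Y i) : Polynomial ℂ) (k i) (y i) := by
      intro i hi
      refine ⟨?_, (hy i hi).symm⟩
      have := hdv i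
      rwa [min_eq_left (by omega)] at this
    rw [aeval_gg, Polynomial.finsetSum_coeff, ← Finset.sum_subset (Finset.subset_univ (fc w k))]
    · refine Finset.sum_congr rfl fun v hv => ?_
      have h1 := (Ld_aeval z (c v)).mul (mon_Ld w k K v hv hm _ y hLd Finset.univ)
      have h2 : 0 + ∑ i, k i * w v i = mnk w k := by
        rw [zero_add]; exact (XPDAux.mem_fc w k v).1 hv
      rw [h2] at h1
      exact h1.2
    · intro v _ hv
      have h1 := dvd_mon Finset.univ (fun i => min (k i) (K + 1)) (w v) _ fun i _ => hdv i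
      refine coeff_zero_of_dvd (h1.mul_left _) (lt_of_lt_of_le (lt_min ?_ ?_) (min_le_kw w k K v))
      · exact XPDAux.lt_of_not_mem_fc w k v hv
      · omega
  · intro j i₀ z' hj hmj hkj hdet hz'0 hz'
    set x₀ : ι → ℂ := fun i => z (i, 0) with hx₀
    have hm : mnk w k ≤ K := by omega
    have hLd : ∀ i, k i ≤ K → Ld (aeval (jet z) (Y i) : Polynomial ℂ) (k i) (y i) := by
      intro i hi
      refine ⟨?_, (hy i hi).symm⟩
      have := hdv i
      rwa [min_eq_left (by omega)] at this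
    -- the jets agree below the level `k i₀ + j`
    have hA : ∀ n, n ≤ k i₀ + j → ∀ (i : ι) (l : Fin (K + 1)), (l : ℕ) < n →
        z' (i, l) = z (i, l) := by
      intro n
      induction n with
      | zero => intro _ i l hl; exact absurd hl (Nat.not_lt_zero _)
      | succ n ih =>
        intro hn i l hl
        have ih' := ih (by omega)
        rcases lt_or_eq_of_le (Nat.lt_succ_iff.1 hl) with h1 | h1
        · exact ih' i l h1
        rcases Nat.eq_zero_or_pos n with hn0 | hn0
        · have h2 : l = 0 := by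
            apply Fin.ext
            rw [h1, hn0]; rfl
          rw [h2]; exact hz'0 i
        have hJ1 := fun a => (hJ ι K n z z' hn0 ih' (Y a)).2 l h1
        have h3 : (fun b => z' (b, l) - z (b, l)) = 0 := by
          refine eq_zero_of_jm Y x₀ hdet _ fun a => ?_
          rw [← hJ1 a, hz' a n (by omega) (Or.inr (by omega)), sub_self]
        exact sub_eq_zero.1 (congrFun h3 i)
    have hl₀ : k i₀ + j < K + 1 := by omega
    have hB : ∀ g : MvPolynomial ι ℂ, (aeval (jet z') g : Polynomial ℂ).coeff (k i₀ + j) -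
        (aeval (jet z) g : Polynomial ℂ).coeff (k i₀ + j) =
          ∑ b, eval x₀ (pderiv b g) * (z' (b, ⟨k i₀ + j, hl₀⟩) - z (b, ⟨k i₀ + j, hl₀⟩)) :=
      fun g => (hJ ι K (k i₀ + j) z z' (by omega) (hA _ le_rfl) g).2 ⟨k i₀ + j, hl₀⟩ rfl
    have hBl : ∀ g : MvPolynomial ι ℂ, Polynomial.X ^ (k i₀ + j) ∣
        (aeval (jet z') g : Polynomial ℂ) - (aeval (jet z) g : Polynomial ℂ) := by
      intro g
      rw [Polynomial.X_pow_dvd_iff]
      intro l hl
      rw [Polynomial.coeff_sub, (hJ ι K (k i₀ + j) z z' (by omega) (hA _ le_rfl) g).1 l hl,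
        sub_self]
    set τ : ℂ := (aeval (jet z') (Y i₀) : Polynomial ℂ).coeff (k i₀ + j) -
        (aeval (jet z) (Y i₀) : Polynomial ℂ).coeff (k i₀ + j) with hτ
    have hC : ∀ g : MvPolynomial ι ℂ, eval x₀ (jm Y).det *
        ((aeval (jet z') g : Polynomial ℂ).coeff (k i₀ + j) -
          (aeval (jet z) g : Polynomial ℂ).coeff (k i₀ + j)) = τ * eval x₀ (dY Y i₀ g) := by
      intro g
      rw [hB g]
      refine det_mul_eq Y x₀ i₀ _ τ (fun a => ?_) g
      rw [← hB (Y a)]
      split_ifs with ha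
      · rw [ha]
      · rw [hz' a (k i₀ + j) (by omega) (Or.inl ha), sub_self]
    have hsame : ∀ i l, l ≤ k i → l ≤ K → (aeval (jet z') (Y i) : Polynomial ℂ).coeff l =
        (aeval (jet z) (Y i) : Polynomial ℂ).coeff l := by
      intro i l hl hlK
      by_cases hi : i = i₀
      · subst hi; exact hz' i l hlK (Or.inr (by omega))
      · exact hz' i l hlK (Or.inl hi)
    have hdv' : ∀ i, Polynomial.X ^ (min (k i) (K + 1)) ∣
        (aeval (jet z') (Y i) : Polynomial ℂ) := by
      intro i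
      rw [Polynomial.X_pow_dvd_iff]
      intro l hl
      have h1 := lt_of_lt_of_le hl (min_le_left _ _)
      have h2 := Nat.lt_succ_iff.1 (lt_of_lt_of_le hl (min_le_right _ _))
      rw [hsame i l h1.le h2]
      exact hz i l h1 h2
    have hLd' : ∀ i, k i ≤ K → Ld (aeval (jet z') (Y i) : Polynomial ℂ) (k i) (y i) := by
      intro i hi
      refine ⟨?_, ?_⟩
      · have := hdv' i
        rwa [min_eq_left (by omega)] at this
      · rw [hsame i (k i) le_rfl hi, hy i hi]
    have hki₀ : k i₀ ≤ K := by omega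
    have hτLd : Ld ((aeval (jet z') (Y i₀) : Polynomial ℂ) - aeval (jet z) (Y i₀)) (k i₀ + j) τ :=
      ⟨hBl (Y i₀), by rw [Polynomial.coeff_sub]⟩
    have hYi₀ : eval x₀ (Y i₀) = if k i₀ = 0 then y i₀ else 0 := by
      rw [← coeff_zero_aeval z (Y i₀)]
      split_ifs with h0
      · have := hy i₀ hki₀
        rw [h0] at this
        exact this.symm
      · exact hz i₀ 0 (Nat.pos_of_ne_zero h0) (Nat.zero_le _)
    -- the difference of the products
    have hterm : ∀ v, eval x₀ (jm Y).det * y i₀ *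
        ((aeval (jet z') (c v) * ∏ i, (aeval (jet z') (Y i) : Polynomial ℂ) ^ w v i).coeff
            (mnk w k + j) -
          (aeval (jet z) (c v) * ∏ i, (aeval (jet z) (Y i) : Polynomial ℂ) ^ w v i).coeff
            (mnk w k + j)) =
        if v ∈ fc w k then τ * (eval x₀ (lg Y w c i₀ v) * ∏ i, y i ^ w v i) else 0 := by
      intro v
      set C' : Polynomial ℂ := aeval (jet z') (c v) with hC'
      set C0 : Polynomial ℂ := aeval (jet z) (c v) with hC0
      set P' : ι → Polynomial ℂ := fun i => aeval (jet z') (Y i) with hP'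
      set P : ι → Polynomial ℂ := fun i => aeval (jet z) (Y i) with hP
      have e1 : ∀ Q : ι → Polynomial ℂ, ∏ i, Q i ^ w v i =
          Q i₀ ^ w v i₀ * ∏ i ∈ Finset.univ.erase i₀, Q i ^ w v i := fun Q =>
        (Finset.mul_prod_erase Finset.univ (fun i => Q i ^ w v i) (Finset.mem_univ i₀)).symm
      have e2 : C' * ∏ i, P' i ^ w v i - C0 * ∏ i, P i ^ w v i =
          (C' - C0) * ∏ i, P' i ^ w v i +
          C0 * ((P' i₀ ^ w v i₀ - P i₀ ^ w v i₀) * ∏ i ∈ Finset.univ.erase i₀, P i ^ w v i) +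
          C0 * P' i₀ ^ w v i₀ * (∏ i ∈ Finset.univ.erase i₀, P' i ^ w v i -
            ∏ i ∈ Finset.univ.erase i₀, P i ^ w v i) := by
        rw [e1 P, e1 P']; ring
      have e3 : (C0 * P' i₀ ^ w v i₀ * (∏ i ∈ Finset.univ.erase i₀, P' i ^ w v i -
            ∏ i ∈ Finset.univ.erase i₀, P i ^ w v i)).coeff (mnk w k + j) = 0 := by
        have h1 : Polynomial.X ^ (K + 1) ∣ ∏ i ∈ Finset.univ.erase i₀, P' i ^ w v i -
            ∏ i ∈ Finset.univ.erase i₀, P i ^ w v i := by
          refine dvd_prod_sub _ _ _ _ fun i hi => ?_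
          refine dvd_trans ?_ (sub_dvd_pow_sub_pow _ _ _)
          rw [Polynomial.X_pow_dvd_iff]
          intro l hl
          rw [Polynomial.coeff_sub, sub_eq_zero]
          exact hz' i l (by omega) (Or.inl (Finset.ne_of_mem_erase hi))
        exact coeff_zero_of_dvd (h1.mul_left _) (by omega)
      have hsplit : ∀ q : ι → ℕ, kw w q v =
          q i₀ * w v i₀ + ∑ i ∈ Finset.univ.erase i₀, q i * w v i := fun q =>
        (Finset.add_sum_erase Finset.univ (fun i => q i * w v i) (Finset.mem_univ i₀)).symm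
      have hsub := (hLd i₀ hki₀).pow_sub hj hτLd (w v i₀)
      rw [← Polynomial.coeff_sub, e2, Polynomial.coeff_add, e3, add_zero, Polynomial.coeff_add]
      split_ifs with hv
      · -- a vertex of the face
        have h1 : Ld (C' - C0) (k i₀ + j) ((C' - C0).coeff (k i₀ + j)) := ⟨hBl (c v), rfl⟩
        have h2 := h1.mul (mon_Ld w k K v hv hm P' y hLd' Finset.univ)
        have h3 : ∑ i, k i * w v i = mnk w k := (XPDAux.mem_fc w k v).1 hv
        rw [h3] at h2
        have h4 : eval x₀ (jm Y).det * (C' - C0).coeff (k i₀ + j) =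
            τ * eval x₀ (dY Y i₀ (c v)) := by
          rw [Polynomial.coeff_sub]; exact hC (c v)
        have h5 := (Ld_aeval z (c v)).mul (hsub.mul (mon_Ld w k K v hv hm P y hLd
          (Finset.univ.erase i₀)))
        have h6 : 0 + (k i₀ * w v i₀ + j + ∑ i ∈ Finset.univ.erase i₀, k i * w v i) =
            mnk w k + j := by
          have := hsplit k
          rw [(XPDAux.mem_fc w k v).1 hv] at this
          omega
        rw [h6] at h5
        rw [h5.2]
        have h7 : ∏ i, y i ^ w v i = y i₀ ^ w v i₀ * ∏ i ∈ Finset.univ.erase i₀, y i ^ w v i :=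
          (Finset.mul_prod_erase Finset.univ (fun i => y i ^ w v i) (Finset.mem_univ i₀)).symm
        have h8 : eval x₀ (lg Y w c i₀ v) = eval x₀ (jm Y).det * (w v i₀ : ℂ) * eval x₀ (c v) +
            eval x₀ (Y i₀) * eval x₀ (dY Y i₀ (c v)) := by
          rw [lg, map_add, map_mul, map_mul, map_mul, eval_C]
        have h9 : y i₀ * ((w v i₀ : ℂ) * y i₀ ^ (w v i₀ - 1)) = (w v i₀ : ℂ) * y i₀ ^ w v i₀ := by
          rcases Nat.eq_zero_or_pos (w v i₀) with h0 | h0
          · rw [h0]; simp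
          · obtain ⟨m, hm'⟩ := Nat.exists_eq_succ_of_ne_zero h0.ne'
            rw [hm', Nat.succ_sub_one, Nat.succ_eq_add_one, pow_succ]
            ring
        have h10 : eval x₀ (jm Y).det * y i₀ *
            ((C' - C0) * ∏ i, P' i ^ w v i).coeff (mnk w k + j) =
            τ * (eval x₀ (Y i₀) * eval x₀ (dY Y i₀ (c v)) * ∏ i, y i ^ w v i) := by
          rw [hYi₀]
          split_ifs with h0
          · have h11 : mnk w k + j = k i₀ + j + mnk w k := by rw [h0]; ring
            rw [h11, h2.2]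
            linear_combination (y i₀ * ∏ i, y i ^ w v i) * h4
          · rw [coeff_zero_of_dvd h2.1 (by omega)]
            ring
        rw [h8, mul_add, h10, h7]
        linear_combination (eval x₀ (jm Y).det * eval x₀ (c v) * τ *
          ∏ i ∈ Finset.univ.erase i₀, y i ^ w v i) * h9
      · -- the other vertices
        have hlt := XPDAux.lt_of_not_mem_fc w k v hv
        have hmin := min_le_kw w k K v
        have hmin' : mnk w k + 1 ≤ min (kw w k v) (K + 1) := le_min hlt (by omega)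
        have h1 := dvd_mon Finset.univ (fun i => min (k i) (K + 1)) (w v) P' fun i _ => hdv' i
        have h2 : ((C' - C0) * ∏ i, P' i ^ w v i).coeff (mnk w k + j) = 0 := by
          have h3 := mul_dvd_mul (hBl (c v)) h1
          rw [← pow_add] at h3
          refine coeff_zero_of_dvd h3 ?_
          have h4 : mnk w k + 1 ≤ ∑ i, min (k i) (K + 1) * w v i := hmin'.trans hmin
          omega
        have h5 : (C0 * ((P' i₀ ^ w v i₀ - P i₀ ^ w v i₀) *
            ∏ i ∈ Finset.univ.erase i₀, P i ^ w v i)).coeff (mnk w k + j) = 0 := by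
          have h6 := dvd_mon (Finset.univ.erase i₀) (fun i => min (k i) (K + 1)) (w v) P
            fun i _ => hdv i
          have h7 := mul_dvd_mul hsub.1 h6
          rw [← pow_add] at h7
          refine coeff_zero_of_dvd (h7.mul_left C0) ?_
          have h8 := hsplit fun i => min (k i) (K + 1)
          simp only [min_eq_left (show k i₀ ≤ K + 1 by omega)] at h8
          have h9 := hmin'.trans hmin
          rw [h8] at h9
          omega
        rw [h2, h5]
        ring
    rw [aeval_gg, aeval_gg, Polynomial.finsetSum_coeff, Polynomial.finsetSum_coeff,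
      ← Finset.sum_sub_distrib, Finset.mul_sum, Finset.sum_congr rfl fun v _ => hterm v,
      Finset.sum_ite_mem, Finset.univ_inter, Finset.mul_sum]

end Pool.Agent.Mono.MG
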