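import Pool.Agent.Work.MonodromyL.AllL
import Pool.Agent.Work.MonodromyM.CHX
import Pool.Agent.Work.MonodromyM.CLS0M
import Pool.Agent.Work.MonodromyM.CLS1M
import Pool.Agent.Work.MonodromyM.CLS2M
import Pool.Agent.Work.MonodromyM.CMPM
import Pool.Agent.Work.MonodromyM.CTB
import Pool.Agent.Work.MonodromyM.DECM
import Pool.Agent.Work.MonodromyM.EXCHM
import Pool.Agent.Work.MonodromyM.FAMV
import Pool.Agent.Work.MonodromyM.FAMW
import Pool.Agent.Work.MonodromyM.FINM
import Pool.Agent.Work.MonodromyM.FLT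
import Pool.Agent.Work.MonodromyM.FinalM
import Pool.Agent.Work.MonodromyM.GDM
import Pool.Agent.Work.MonodromyM.GRKA
import Pool.Agent.Work.MonodromyM.JBJ
import Pool.Agent.Work.MonodromyM.JDF
import Pool.Agent.Work.MonodromyM.KRL
import Pool.Agent.Work.MonodromyM.NLP
import Pool.Agent.Work.MonodromyM.OPN
import Pool.Agent.Work.MonodromyM.PCS
import Pool.Agent.Work.MonodromyM.PTLM
import Pool.Agent.Work.MonodromyM.QCM
import Pool.Agent.Work.MonodromyM.RLIL
import Pool.Agent.Work.MonodromyM.SUMKM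
import Pool.Agent.Work.MonodromyM.TORF
import Pool.Agent.Work.MonodromyM.TORG
import Pool.Agent.Work.MonodromyM.VOLM
import Pool.Agent.Work.MonodromyM.XPDM

/-!
# Phase M, all blocks put together (helper17)
-/

set_option autoImplicit false

namespace Pool.Agent.Mono.MG

open MvPolynomial

theorem full_OPN : Stmt_OPN := stmt_OPN (stmt_NLP (stmt_TORG NP.stmt_TOR LO.full_FACE))

theorem full_CHX : Stmt_CHX := stmt_CHX stmt_KRL stmt_FLT LO.stmt_DCP

theorem full_JBJ : Stmt_JBJ := stmt_JBJ stmt_JDF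

theorem full_XPDM : Stmt_XPDM := stmt_XPDM stmt_JDF

theorem full_SUMKM : Stmt_SUMKM :=
  stmt_SUMKM (stmt_CLS0M full_JBJ full_XPDM) (stmt_CLS1M full_JBJ full_XPDM NP.stmt_TRIS)
    (stmt_CLS2M full_XPDM)

theorem full_EXCHM : Stmt_EXCHM := stmt_EXCHM full_SUMKM

theorem full_TORF : Stmt_TORF := stmt_TORF NP.stmt_ADB

theorem full_PCS : Stmt_PCS :=
  stmt_PCS (stmt_FAMV full_TORF stmt_CTB) (stmt_FAMW full_TORF stmt_CTB (NP.stmt_PYRC NP.stmt_CELI))
    (stmt_CMPM full_EXCHM (stmt_GRKA NP.full_GRK)) full_EXCHM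

theorem full_RLIL : Stmt_RLIL :=
  stmt_RLIL LO.full_EXCHL LO.full_FACL NP.full_GRK NP.full_JC (NP.stmt_GENR NP.full_DUAL)
    NP.full_REL

theorem full_PTLM : Stmt_PTLM :=
  stmt_PTLM full_RLIL LO.stmt_DCP LO.full_HLOC LO.full_TRJ LO.full_EXT LO.full_IIIL

theorem full_FINM : Stmt_FINM :=
  stmt_FINM (NP.stmt_GLU14 NP.stmt_RAT14 NP.stmt_Q514) NP.stmt_FIN14 full_OPN full_CHX full_PCS
    full_PTLM (stmt_GDM C9.rnk9 C9.gen9 C9.vgg9 C9.spc9) (stmt_DECM stmt_VOLM) stmt_QCM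

/-- the monodromy conjecture for the topological zeta function of stably tame polynomials -/
theorem mc (E : EulerMeasure) {n : ℕ} (f : MvPolynomial (Fin n) ℂ) (hf : f.totalDegree ≠ 0)
    (hN : IsStablyTame f) (R : RatFunc ℚ) (hR : IsTopologicalZeta E.toHodgeMeasure f R) :
    GoodPoles f R :=
  mcM_stable full_FINM E f hf hN R hR

/-- the monodromy conjecture for the twisted topological zeta functions of stably tame
polynomials -/
theorem mc_tw (E : EulerMeasure) {n : ℕ} (f : MvPolynomial (Fin n) ℂ) (hf : f.totalDegree ≠ 0)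
    (hN : IsStablyTame f) (e : ℕ) (he : 1 ≤ e) (R : RatFunc ℚ)
    (hR : IsTwTopZeta E.toHodgeMeasure f e R) : GoodPoles f R :=
  mcM_stable_tw full_FINM E f hf hN e he R hR

end Pool.Agent.Mono.MG
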