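import Pool.Agent.Work.Monodromy.InterfaceM
import Pool.Agent.Work.Monodromy9.GSAux
import Pool.Agent.Work.MonodromyL.ETA

/-!
# FLT: formal coordinates given by parameters preserve the order (helper99)
-/

set_option autoImplicit false
set_option linter.unusedSectionVars false

namespace Pool.Agent.Mono.MG

open MvPolynomial Filter Topology NP

namespace FLTMAux

variable {ι : Type} [Fintype ι] [DecidableEq ι]

theorem cc_aeval {p : ι → ℂ} {φ : ι → MvPowerSeries ι ℂ}
    (h : ∀ i, MvPowerSeries.constantCoeff (φ i) = p i) (g : MvPolynomial ι ℂ) :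
    MvPowerSeries.constantCoeff (aeval φ g : MvPowerSeries ι ℂ) = eval p g := by
  induction g using MvPolynomial.induction_on with
  | C c =>
    rw [aeval_C, eval_C]
    exact MvPowerSeries.constantCoeff_C c
  | add g h' hg hh => rw [map_add, map_add, map_add, hg, hh]
  | mul_X g i hg => rw [map_mul, map_mul, map_mul, hg, aeval_X, eval_X, h i]

/-- elements of high powers of the maximal ideal have high order -/
theorem coeff_pow (N : ℕ) : ∀ g ∈ (RingHom.ker (MvPowerSeries.constantCoeff (σ := ι) (R := ℂ))) ^ N,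
    ∀ m : ι →₀ ℕ, m.degree < N → MvPowerSeries.coeff m g = 0 := by
  induction N with
  | zero => intro g _ m hm; omega
  | succ N ih =>
    intro g hg m hm
    rw [pow_succ] at hg
    refine Submodule.mul_induction_on hg ?_ ?_ (C := fun g => MvPowerSeries.coeff m g = 0)
    · intro a ha b hb
      rw [MvPowerSeries.coeff_mul]
      refine Finset.sum_eq_zero fun q hq => ?_
      have hq' : q.1 + q.2 = m := by simpa using hq
      rcases Nat.lt_or_ge q.1.degree N with h1 | h1
      · rw [ih a ha q.1 h1, zero_mul]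
      · have h2 : q.1.degree + q.2.degree = m.degree := by rw [← map_add, hq']
        have h3 : q.2 = 0 := (Finsupp.degree_eq_zero_iff q.2).1 (by omega)
        have h4 : MvPowerSeries.coeff q.2 b = 0 := by
          rw [h3]
          exact hb
        rw [h4, mul_zero]
    · intro a b ha hb
      rw [map_add, ha, hb, add_zero]

theorem map_pow_le {p : ι → ℂ} {φ : ι → MvPowerSeries ι ℂ}
    (h : ∀ i, MvPowerSeries.constantCoeff (φ i) = p i) (N : ℕ) (g : MvPolynomial ι ℂ)
    (hg : g ∈ C9.mI p ^ N) (m : ι →₀ ℕ) (hm : m.degree < N) :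
    MvPowerSeries.coeff m (aeval φ g : MvPowerSeries ι ℂ) = 0 := by
  refine coeff_pow N _ ?_ m hm
  have h1 : (C9.mI p ^ N).map (aeval φ : MvPolynomial ι ℂ →ₐ[ℂ] MvPowerSeries ι ℂ) ≤
      (RingHom.ker (MvPowerSeries.constantCoeff (σ := ι) (R := ℂ))) ^ N := by
    rw [Ideal.map_pow]
    refine Ideal.pow_right_mono ?_ N
    rw [Ideal.map_le_iff_le_comap]
    intro x hx
    rw [Ideal.mem_comap, RingHom.mem_ker]
    exact (cc_aeval h x).trans hx
  exact h1 (Ideal.mem_map_of_mem _ hg)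

/-- powers of an ideal `J` with `𝔪 ≤ J + 𝔪²` -/
theorem pow_le {p : ι → ℂ} {J : Ideal (MvPolynomial ι ℂ)} (hJ : J ≤ C9.mI p)
    (h : C9.mI p ≤ J ⊔ C9.mI p ^ 2) (N : ℕ) : C9.mI p ^ N ≤ J ^ N ⊔ C9.mI p ^ (N + 1) := by
  induction N with
  | zero => simp
  | succ N ih =>
    rw [pow_succ (C9.mI p) N, pow_succ J N]
    refine (Ideal.mul_mono ih h).trans ?_
    rw [Ideal.sup_mul, Ideal.mul_sup, Ideal.mul_sup]
    have e1 : C9.mI p ^ (N + 1) * J ≤ C9.mI p ^ (N + 1 + 1) := by
      rw [pow_succ (C9.mI p) (N + 1)]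
      exact Ideal.mul_mono_right hJ
    have e2 : J ^ N * C9.mI p ^ 2 ≤ C9.mI p ^ (N + 1 + 1) := by
      rw [show N + 1 + 1 = N + 2 from rfl, pow_add]
      exact Ideal.mul_mono_left (Ideal.pow_right_mono hJ N)
    have e3 : C9.mI p ^ (N + 1) * C9.mI p ^ 2 ≤ C9.mI p ^ (N + 1 + 1) := by
      rw [← pow_add]
      exact Ideal.pow_le_pow_right (by omega)
    exact sup_le (sup_le le_sup_left (e2.trans le_sup_right))
      (sup_le (e1.trans le_sup_right) (e3.trans le_sup_right))

/-- elements of the `N`-th power of the ideal generated by the `Y_i` are polynomials in the `Y_i`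
modulo `𝔪^(N+1)` -/
theorem rep {p : ι → ℂ} {Y : ι → MvPolynomial ι ℂ} (hY : ∀ i, eval p (Y i) = 0) (N : ℕ)
    (g : MvPolynomial ι ℂ) (hg : g ∈ ((idealOfVars ι ℂ).map (aeval Y :
      MvPolynomial ι ℂ →ₐ[ℂ] MvPolynomial ι ℂ)) ^ N) :
    ∃ H ∈ idealOfVars ι ℂ ^ N, g - aeval Y H ∈ C9.mI p ^ (N + 1) := by
  have hm : ∀ H ∈ idealOfVars ι ℂ ^ N, aeval Y H ∈ C9.mI p ^ N := by
    intro H hH
    have h1 : ((idealOfVars ι ℂ).map (aeval Y : MvPolynomial ι ℂ →ₐ[ℂ] MvPolynomial ι ℂ)) ≤
        C9.mI p := by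
      rw [Ideal.map_le_iff_le_comap, idealOfVars, Ideal.span_le]
      rintro x ⟨i, rfl⟩
      rw [SetLike.mem_coe, Ideal.mem_comap]
      show aeval Y (X i) ∈ C9.mI p
      rw [aeval_X]
      exact hY i
    have h2 := Ideal.pow_right_mono h1 N
    rw [← Ideal.map_pow] at h2
    exact h2 (Ideal.mem_map_of_mem _ hH)
  rw [← Ideal.map_pow] at hg
  refine Submodule.span_induction (p := fun g _ => ∃ H ∈ idealOfVars ι ℂ ^ N,
    g - aeval Y H ∈ C9.mI p ^ (N + 1)) ?_ ?_ ?_ ?_ hg
  · rintro x ⟨H, hH, rfl⟩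
    refine ⟨H, hH, ?_⟩
    have : (aeval Y : MvPolynomial ι ℂ →ₐ[ℂ] MvPolynomial ι ℂ) H - aeval Y H = 0 := sub_self _
    show (aeval Y : MvPolynomial ι ℂ →ₐ[ℂ] MvPolynomial ι ℂ) H - aeval Y H ∈ C9.mI p ^ (N + 1)
    rw [this]
    exact Ideal.zero_mem _
  · exact ⟨0, Ideal.zero_mem _, by rw [map_zero, sub_zero]; exact Ideal.zero_mem _⟩
  · rintro x y _ _ ⟨H, hH, hx⟩ ⟨H', hH', hy⟩
    refine ⟨H + H', Ideal.add_mem _ hH hH', ?_⟩
    have : x + y - aeval Y (H + H') = (x - aeval Y H) + (y - aeval Y H') := by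
      rw [map_add]; ring
    rw [this]
    exact Ideal.add_mem _ hx hy
  · rintro a x _ ⟨H, hH, hx⟩
    refine ⟨C (eval p a) * H, Ideal.mul_mem_left _ _ hH, ?_⟩
    have : a • x - aeval Y (C (eval p a) * H) =
        a * (x - aeval Y H) + (a - C (eval p a)) * aeval Y H := by
      rw [map_mul, aeval_C, smul_eq_mul]
      show a * x - C (eval p a) * aeval Y H = _
      ring
    rw [this]
    refine Ideal.add_mem _ (Ideal.mul_mem_left _ _ hx) ?_
    rw [pow_succ']
    refine Ideal.mul_mem_mul ?_ (hm H hH)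
    show a - C (eval p a) ∈ RingHom.ker (eval p)
    rw [RingHom.mem_ker]
    simp

end FLTMAux

open FLTMAux in
theorem stmt_FLT : Stmt_FLT := by
  intro ι _ _ p Y φ hφ hY
  have hYp : ∀ i, eval p (Y i) = 0 := by
    intro i
    rw [← cc_aeval hφ, hY i]
    exact MvPowerSeries.constantCoeff_X i
  -- the chain rule
  have hch : ∀ i j, ∑ b, eval p (pderiv b (Y i)) *
      MvPowerSeries.constantCoeff (MvPowerSeries.pderiv ℂ j (φ b)) = if i = j then 1 else 0 := by
    intro i j
    have h1 := LO.ETALAux.chain (MvPowerSeries.pderiv ℂ j) φ (Y i)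
    rw [hY i] at h1
    have h2 := congrArg MvPowerSeries.constantCoeff h1
    rw [map_sum] at h2
    simp only [map_mul, cc_aeval hφ] at h2
    rw [← h2, MvPowerSeries.pderiv_X]
    by_cases hij : i = j
    · subst hij
      rw [Pi.single_eq_same, if_pos rfl]
      exact map_one _
    · rw [Pi.single_eq_of_ne hij, if_neg hij]
      exact map_zero _
  set J : Matrix ι ι ℂ := Matrix.of fun i j =>
    MvPowerSeries.constantCoeff (MvPowerSeries.pderiv ℂ j (φ i)) with hJ
  set M : Matrix ι ι ℂ := Matrix.of fun i j => eval p (pderiv j (Y i)) with hM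
  have hMJ : M * J = 1 := by
    ext i j
    rw [Matrix.mul_apply, Matrix.one_apply]
    exact hch i j
  have hdet : M.det * J.det = 1 := by rw [← Matrix.det_mul, hMJ, Matrix.det_one]
  have hMd : M.det ≠ 0 := left_ne_zero_of_mul_eq_one hdet
  have hJd : J.det ≠ 0 := right_ne_zero_of_mul_eq_one hdet
  refine ⟨⟨hφ, hJd⟩, ?_, hYp, ?_⟩
  · rw [RingHom.map_det]
    exact hMd
  -- the order
  set I : Ideal (MvPolynomial ι ℂ) := (idealOfVars ι ℂ).map (aeval Y :
    MvPolynomial ι ℂ →ₐ[ℂ] MvPolynomial ι ℂ) with hI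
  have hYI : ∀ i, Y i ∈ I := by
    intro i
    have h1 : (aeval Y : MvPolynomial ι ℂ →ₐ[ℂ] MvPolynomial ι ℂ) (X i) ∈ I :=
      Ideal.mem_map_of_mem _ (Ideal.subset_span ⟨i, rfl⟩)
    rwa [aeval_X] at h1
  have hIm : I ≤ C9.mI p := by
    rw [hI, Ideal.map_le_iff_le_comap, idealOfVars, Ideal.span_le]
    rintro x ⟨i, rfl⟩
    rw [SetLike.mem_coe, Ideal.mem_comap]
    show aeval Y (X i) ∈ C9.mI p
    rw [aeval_X]
    exact hYp i
  have hle : C9.mI p ≤ I ⊔ C9.mI p ^ 2 := by
    obtain ⟨r, hr, hr'⟩ := C9.GSAux.gen_mI p I Y hYI hYp hMd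
    intro x hx
    have h1 : x = C (eval p r)⁻¹ * (r * x) + C (eval p r)⁻¹ * ((C (eval p r) - r) * x) := by
      have h2 : C (eval p r)⁻¹ * C (eval p r) = (1 : MvPolynomial ι ℂ) := by
        rw [← C_mul, inv_mul_cancel₀ hr, C_1]
      linear_combination -x * h2
    rw [h1]
    refine Ideal.add_mem _ (Ideal.mem_sup_left (Ideal.mul_mem_left _ _ (hr' x hx)))
      (Ideal.mem_sup_right (Ideal.mul_mem_left _ _ ?_))
    rw [pow_two]
    refine Ideal.mul_mem_mul ?_ hx
    show C (eval p r) - r ∈ RingHom.ker (eval p)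
    rw [RingHom.mem_ker]
    simp
  intro N
  induction N with
  | zero => intro h _; rw [pow_zero, Ideal.one_eq_top]; exact Submodule.mem_top
  | succ N ih =>
    intro h hh
    have h1 : h ∈ C9.mI p ^ N := ih h fun m hm => hh m (by omega)
    obtain ⟨a, ha, b, hb, hab⟩ := Submodule.mem_sup.1 (pow_le hIm hle N h1)
    obtain ⟨H, hH, hH'⟩ := rep hYp N a ha
    have h2 : h - aeval Y H ∈ C9.mI p ^ (N + 1) := by
      have : h - aeval Y H = (a - aeval Y H) + b := by rw [← hab]; ring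
      rw [this]
      exact Ideal.add_mem _ hH' hb
    have h3 : H ∈ idealOfVars ι ℂ ^ (N + 1) := by
      rw [mem_pow_idealOfVars_iff']
      intro m hm
      have h4 := map_pow_le hφ (N + 1) _ h2 m hm
      rw [map_sub, map_sub, hh m hm, zero_sub, neg_eq_zero] at h4
      have h5 : (aeval φ (aeval Y H) : MvPowerSeries ι ℂ) = (H : MvPowerSeries ι ℂ) := by
        have h6 : ((aeval φ : MvPolynomial ι ℂ →ₐ[ℂ] MvPowerSeries ι ℂ).comp (aeval Y)) =
            MvPolynomial.coeToMvPowerSeries.algHom ℂ := by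
          apply MvPolynomial.algHom_ext
          intro i
          rw [AlgHom.comp_apply, aeval_X, hY i]
          simp
        have h7 := DFunLike.congr_fun h6 H
        rw [AlgHom.comp_apply] at h7
        rw [h7]
        simp
      rw [h5, MvPolynomial.coeff_coe] at h4
      exact h4
    have h4 : aeval Y H ∈ C9.mI p ^ (N + 1) := by
      have h5 := Ideal.pow_right_mono hIm (N + 1)
      rw [hI, ← Ideal.map_pow] at h5
      exact h5 (Ideal.mem_map_of_mem _ h3)
    have h5 : h = (h - aeval Y H) + aeval Y H := by ring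
    rw [h5]
    exact Ideal.add_mem _ h2 h4

end Pool.Agent.Mono.MG
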