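import Pool.Agent.Work.Monodromy.InterfaceM

/-!
# Phase M, block PRT: constructible partitions by noetherian induction (helper84)
-/

set_option autoImplicit false
set_option linter.unusedSectionVars false

namespace Pool.Agent.Mono.MG

open MvPolynomial

namespace PRTAux

variable {σ : Type} [Finite σ] {α : Type}

/-- `S` has a finite constructible partition on whose parts `φ` is constant -/
def Prt (φ : (σ → ℂ) → α) (S : Set (σ → ℂ)) : Prop :=
  ∃ (β : Type) (_ : Fintype β) (T : β → Set (σ → ℂ)) (a : β → α), (∀ j, Constructible (T j)) ∧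
    (∀ j, T j ⊆ S) ∧ (∀ p ∈ S, ∃! j, p ∈ T j) ∧ ∀ j, ∀ p ∈ T j, φ p = a j

theorem prt_empty (φ : (σ → ℂ) → α) : Prt φ ∅ :=
  ⟨Empty, inferInstance, fun _ => ∅, fun j => j.elim, fun j => j.elim, fun j => j.elim,
    fun p hp => absurd hp (Set.notMem_empty p), fun j => j.elim⟩

theorem prt_const (φ : (σ → ℂ) → α) {S : Set (σ → ℂ)} (hS : Constructible S) (a : α)
    (h : ∀ p ∈ S, φ p = a) : Prt φ S :=
  ⟨Unit, inferInstance, fun _ => S, fun _ => a, fun _ => hS, fun _ => subset_rfl,
    fun p hp => ⟨(), hp, fun _ _ => rfl⟩, fun _ p hp => h p hp⟩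

theorem prt_union (φ : (σ → ℂ) → α) {S T : Set (σ → ℂ)} (hd : Disjoint S T) (h1 : Prt φ S)
    (h2 : Prt φ T) : Prt φ (S ∪ T) := by
  obtain ⟨β, hβ, A, a, c1, s1, e1, v1⟩ := h1
  obtain ⟨γ, hγ, B, b, c2, s2, e2, v2⟩ := h2
  rw [Set.disjoint_left] at hd
  refine ⟨β ⊕ γ, inferInstance, Sum.elim A B, Sum.elim a b, ?_, ?_, ?_, ?_⟩
  · rintro (j | j)
    · exact c1 j
    · exact c2 j
  · rintro (j | j)
    · exact (s1 j).trans Set.subset_union_left
    · exact (s2 j).trans Set.subset_union_right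
  · rintro p (hp | hp)
    · obtain ⟨j, hj, hu⟩ := e1 p hp
      refine ⟨Sum.inl j, hj, ?_⟩
      rintro (i | i) hi
      · exact congrArg Sum.inl (hu i hi)
      · exact absurd (s2 i hi) (hd hp)
    · obtain ⟨j, hj, hu⟩ := e2 p hp
      refine ⟨Sum.inr j, hj, ?_⟩
      rintro (i | i) hi
      · exact absurd hp (hd (s1 i hi))
      · exact congrArg Sum.inr (hu i hi)
  · rintro (j | j) p hp
    · exact v1 j p hp
    · exact v2 j p hp

theorem prt_split (φ : (σ → ℂ) → α) (a : MvPolynomial σ ℂ) {S : Set (σ → ℂ)}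
    (h1 : Prt φ (S ∩ {q | eval q a = 0})) (h2 : Prt φ (S ∩ {q | eval q a = 0}ᶜ)) :
    Prt φ S := by
  have e : S = (S ∩ {q | eval q a = 0}) ∪ (S ∩ {q | eval q a = 0}ᶜ) := by
    rw [← Set.inter_union_distrib_left, Set.union_compl_self, Set.inter_univ]
  rw [e]
  refine prt_union φ ?_ h1 h2
  rw [Set.disjoint_left]
  exact fun p hp hp' => hp'.2 hp.2

theorem vanish_sup (J : Ideal (MvPolynomial σ ℂ)) (a : MvPolynomial σ ℂ) (q : σ → ℂ)
    (hJ : ∀ g ∈ J, eval q g = 0) (ha : eval q a = 0) :
    ∀ g ∈ J ⊔ Ideal.span {a}, eval q g = 0 := by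
  intro g hg
  have h : J ⊔ Ideal.span {a} ≤ RingHom.ker (eval q) := by
    refine sup_le (fun x hx => hJ x hx) ?_
    rw [Ideal.span_le]
    intro x hx
    rw [Set.mem_singleton_iff.1 hx]
    exact ha
  exact h hg

theorem lt_sup (J : Ideal (MvPolynomial σ ℂ)) (a : MvPolynomial σ ℂ) (ha : a ∉ J) :
    J < J ⊔ Ideal.span {a} := by
  refine lt_of_le_of_ne le_sup_left ?_
  intro e
  apply ha
  rw [e]
  exact Ideal.mem_sup_right (Ideal.mem_span_singleton_self a)

theorem main (φ : (σ → ℂ) → α)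
    (h : ∀ I : Ideal (MvPolynomial σ ℂ), I.IsPrime → ∃ s : MvPolynomial σ ℂ, s ∉ I ∧
      ∃ a : α, ∀ p : σ → ℂ, (∀ g ∈ I, eval p g = 0) → eval p s ≠ 0 → φ p = a) :
    ∀ J : Ideal (MvPolynomial σ ℂ), ∀ S : Set (σ → ℂ), Constructible S →
      (∀ q ∈ S, ∀ g ∈ J, eval q g = 0) → Prt φ S := by
  intro J
  induction J using IsNoetherian.induction with
  | hgt J ih =>
    intro S hS hv
    have step : ∀ a, a ∉ J → Prt φ (S ∩ {q | eval q a = 0}) := by
      intro a ha
      refine ih (J ⊔ Ideal.span {a}) (lt_sup J a ha) _ (hS.inter (Constructible.zero _)) ?_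
      rintro q ⟨hq, hqa⟩
      exact vanish_sup J a q (hv q hq) hqa
    by_cases hp : Ideal.IsPrime J
    · obtain ⟨s, hs, a, hgd⟩ := h J hp
      refine prt_split φ s (step s hs) ?_
      exact prt_const φ (hS.inter (Constructible.zero _).compl) a
        fun q hq => hgd q (hv q hq.1) hq.2
    · rw [Ideal.isPrime_iff] at hp
      by_cases ht : J = ⊤
      · have e : S = ∅ := by
          ext q
          simp only [Set.mem_empty_iff_false, iff_false]
          intro hq
          have := hv q hq 1 (by rw [ht]; trivial)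
          rw [map_one] at this
          exact one_ne_zero this
        rw [e]
        exact prt_empty φ
      · have : ∃ a b, a * b ∈ J ∧ a ∉ J ∧ b ∉ J := by
          by_contra hcon
          apply hp
          refine ⟨ht, ?_⟩
          intro a b hab
          by_contra h2
          rw [not_or] at h2
          exact hcon ⟨a, b, hab, h2.1, h2.2⟩
        obtain ⟨a, b, hab, ha, hb⟩ := this
        refine prt_split φ a (step a ha) ?_
        refine ih (J ⊔ Ideal.span {b}) (lt_sup J b hb) _
          (hS.inter (Constructible.zero _).compl) ?_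
        rintro q ⟨hq, hqa⟩
        refine vanish_sup J b q (hv q hq) ?_
        have := hv q hq _ hab
        rw [map_mul] at this
        rcases mul_eq_zero.1 this with h1 | h1
        · exact absurd h1 hqa
        · exact h1

end PRTAux

open PRTAux in
theorem stmt_PRT : Stmt_PRT := by
  intro σ _ α φ h
  have hu : Constructible (Set.univ : Set (σ → ℂ)) := by
    have h1 := Constructible.zero (0 : MvPolynomial σ ℂ)
    simpa only [map_zero, Set.ofPred_true] using h1
  obtain ⟨β, hβ, T, a, c1, -, e1, v1⟩ := main φ h ⊥ Set.univ hu fun q _ g hg => by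
    rw [Ideal.mem_bot] at hg
    rw [hg, map_zero]
  refine ⟨Fintype.card β, fun j => T ((Fintype.equivFin β).symm j),
    fun j => a ((Fintype.equivFin β).symm j), fun j => c1 _, fun p => ?_, fun j p hp => v1 _ p hp⟩
  obtain ⟨j, hj, hun⟩ := e1 p trivial
  refine ⟨Fintype.equivFin β j, ?_, fun i hi => ?_⟩
  · change p ∈ T ((Fintype.equivFin β).symm (Fintype.equivFin β j))
    rw [Equiv.symm_apply_apply]
    exact hj
  · rw [← hun _ hi, Equiv.apply_symm_apply]

end Pool.Agent.Mono.MG
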