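import Pool.Agent.Work.Monodromy.InterfaceM
import Pool.Agent.Work.Monodromy12.SUMK12

/-!
# Phase M, block SUMKM (helper84): the sum over `k`
-/

set_option autoImplicit false
set_option linter.unusedSectionVars false

namespace Pool.Agent.Mono.MG

open MvPolynomial NP

namespace SUMKMAux

open NP.SUMKAux

section

variable {ι κ : Type} [Fintype ι] [DecidableEq ι] [Fintype κ] [DecidableEq κ]

/-- the coefficient `l` of `Y_i` along a jet -/
noncomputable def co {K : ℕ} (Y : ι → MvPolynomial ι ℂ) (z : (ι × Fin (K + 1)) ⊕ Unit → ℂ)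
    (i : ι) (l : ℕ) : ℂ :=
  (aeval (jet fun q => z (Sum.inl q)) (Y i) : Polynomial ℂ).coeff l

open Classical in
/-- the order of `Y_i` along a jet -/
noncomputable def ord {K : ℕ} (Y : ι → MvPolynomial ι ℂ) (z : (ι × Fin (K + 1)) ⊕ Unit → ℂ)
    (i : ι) : Fin (K + 2) :=
  if h : ∃ m : ℕ, m < K + 1 ∧ co Y z i m ≠ 0 then
    ⟨Nat.find h, by
      have h1 := (Nat.find_spec h).1
      omega⟩
  else ⟨K + 1, by omega⟩

theorem ord_zero {K : ℕ} (Y : ι → MvPolynomial ι ℂ) (z : (ι × Fin (K + 1)) ⊕ Unit → ℂ) (i : ι)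
    (l : ℕ) (hl : l < ord Y z i) (hlK : l ≤ K) : co Y z i l = 0 := by
  classical
  by_contra hne
  have h : ∃ m : ℕ, m < K + 1 ∧ co Y z i m ≠ 0 := ⟨l, by omega, hne⟩
  unfold ord at hl
  rw [dif_pos h] at hl
  exact Nat.find_min h hl ⟨by omega, hne⟩

theorem ord_ne {K : ℕ} (Y : ι → MvPolynomial ι ℂ) (z : (ι × Fin (K + 1)) ⊕ Unit → ℂ) (i : ι)
    (l : ℕ) (hl : l = ord Y z i) (hlK : l ≤ K) : co Y z i l ≠ 0 := by
  classical
  unfold ord at hl
  by_cases h : ∃ m : ℕ, m < K + 1 ∧ co Y z i m ≠ 0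
  · rw [dif_pos h] at hl
    have h2 := (Nat.find_spec h).2
    have h3 : l = Nat.find h := hl
    rw [h3]
    exact h2
  · rw [dif_neg h] at hl
    change l = K + 1 at hl
    omega

theorem JtS_eq (Y : ι → MvPolynomial ι ℂ) (f : MvPolynomial ι ℂ) (S : Set (ι → ℂ)) (d K : ℕ)
    (b : ι → Fin (K + 2)) :
    {z | z ∈ JS f S d K ∧ ord Y z = b} = JtS Y f S d K (vec b) := by
  ext z
  constructor
  · rintro ⟨hz, rfl⟩
    exact ⟨hz, fun i => ⟨fun l hl hlK => ord_zero Y z i l hl hlK,
      fun hK => ord_ne Y z i _ rfl hK⟩⟩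
  · rintro ⟨hz, h⟩
    refine ⟨hz, ?_⟩
    funext i
    apply Fin.ext
    have hb := (b i).2
    have ho := (ord Y z i).2
    rcases Nat.lt_trichotomy (ord Y z i : ℕ) (b i) with h1 | h1 | h1
    · exfalso
      have h2 : (ord Y z i : ℕ) ≤ K := by omega
      exact ord_ne Y z i _ rfl h2 ((h i).1 _ h1 h2)
    · exact h1
    · exfalso
      have h2 : (b i : ℕ) ≤ K := by omega
      exact (h i).2 h2 (ord_zero Y z i _ h1 h2)

theorem cons_JS (f : MvPolynomial ι ℂ) {S : Set (ι → ℂ)} (hS : Constructible S) (d K : ℕ) :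
    Constructible (JS f S d K) :=
  Constructible.and (CLS0Aux.cons_jetSet f d K)
    (Constructible.comap (fun i : ι => (Sum.inl (i, (0 : Fin (K + 1))) :
      (ι × Fin (K + 1)) ⊕ Unit)) hS)

theorem cons_JtS (Y : ι → MvPolynomial ι ℂ) (f : MvPolynomial ι ℂ) {S : Set (ι → ℂ)}
    (hS : Constructible S) (d K : ℕ) (k : ι → ℕ) : Constructible (JtS Y f S d K k) := by
  refine Constructible.and (cons_JS f hS d K) (Constructible.all fun i =>
    Constructible.and ?_ ?_)
  · refine Constructible.all_lt (k i) fun l _ => Constructible.imp (Constructible.const _) ?_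
    have h := Constructible.zero (CLS0Aux.cJ K (Y i) l)
    simpa only [CLS0Aux.eval_cJ] using h
  · refine Constructible.imp (Constructible.const _) ?_
    have h := Constructible.ne (CLS0Aux.cJ K (Y i) (k i))
    simpa only [CLS0Aux.eval_cJ] using h

theorem val_JS (E : HodgeMeasure) (Y : ι → MvPolynomial ι ℂ) (f : MvPolynomial ι ℂ)
    {S : Set (ι → ℂ)} (hS : Constructible S) (d K : ℕ) :
    E.val (JS f S d K) = ∑ b : ι → Fin (K + 2), E.val (JtS Y f S d K (vec b)) := by
  rw [E.toMotivicMeasure.val_fibers (s := JS f S d K) (ord Y) (fun b => by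
    rw [JtS_eq]
    exact cons_JtS Y f hS d K (vec b))]
  exact Finset.sum_congr rfl fun b _ => by rw [JtS_eq]

theorem sp_tr (K : ℕ) (k : ι → ℕ) : sp (vec (tr K k)) = sp k := by
  ext i
  unfold sp
  rw [Finset.mem_filter, Finset.mem_filter]
  have h : vec (tr K k) i = min (k i) (K + 1) := rfl
  rw [h]
  constructor
  · rintro ⟨h1, h2⟩
    exact ⟨h1, by omega⟩
  · rintro ⟨h1, h2⟩
    exact ⟨h1, by omega⟩

/-- the bracket in `ctS` -/
noncomputable def br (E : HodgeMeasure) (Y : ι → MvPolynomial ι ℂ) (s : MvPolynomial ι ℂ)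
    (w : κ → ι → ℕ) (c : κ → MvPolynomial ι ℂ) (S : Set (ι → ℂ)) (d K : ℕ) (u : ℝ)
    (k : ι → ℕ) : ℝ :=
    (if mnk w k = K then Polynomial.aeval u (E.val (WS Y s w c S (sp k) (fc w k) d))
    else if mnk w k < K then
      Polynomial.aeval u (E.val (VS Y w c S (sp k) (fc w k))) * (u - 1) * u⁻¹ ^ (K - mnk w k)
    else 0)

theorem br_tr [Nonempty κ] (E : HodgeMeasure) (Y : ι → MvPolynomial ι ℂ)
    (s : MvPolynomial ι ℂ) (w : κ → ι → ℕ) (c : κ → MvPolynomial ι ℂ) (S : Set (ι → ℂ))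
    (d K : ℕ) (u : ℝ) (k : ι → ℕ) :
    br E Y s w c S d K u k = br E Y s w c S d K u (vec (tr K k)) := by
  rcases mnk_tr w K k with ⟨_, h1, h2⟩ | ⟨h1, h2⟩
  · unfold br
    rw [h1, h2, sp_tr]
  · unfold br
    rw [if_neg (by omega), if_neg (by omega), if_neg (by omega), if_neg (by omega)]

end

end SUMKMAux

open SUMKMAux NP.SUMKAux in
/-- the coefficients of the zeta function of `S` as sums over `k` -/
theorem stmt_SUMKM (hCLS0 : Stmt_CLS0M) (hCLS1 : Stmt_CLS1M) (hCLS2 : Stmt_CLS2M) :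
    Stmt_SUMKM := by
  intro ι κ _ _ _ _ _ E f S Y s w c d K u hS hT hd hu
  have hu0 : u ≠ 0 := by linarith
  have hu1 : u - 1 ≠ 0 := by linarith
  have hL : E.toMotivicMeasure.L = Polynomial.X := E.line
  -- the value of each part
  have hval : ∀ k : ι → ℕ, SUMKMAux.br E Y s w c S d K u k * ∏ i, Sf K u (k i) =
      Polynomial.aeval u (E.val (JtS Y f S d K k)) * u⁻¹ ^ (K * Fintype.card ι) := by
    intro k
    have hpr := prod_Sf K hu k
    have hB : (u - 1) ^ (Finset.univ.filter fun i => K < k i).card ≠ 0 := pow_ne_zero _ hu1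
    apply mul_right_cancel₀ hB
    rw [mul_assoc, hpr]
    unfold SUMKMAux.br
    rcases Nat.lt_trichotomy (mnk w k) K with h | h | h
    · rw [if_neg (by omega), if_pos h]
      have h1 := congrArg (Polynomial.aeval u) (hCLS1 ι κ f S Y s w c (Polynomial ℤ)
        E.toMotivicMeasure d K k hS hT hd h)
      rw [hL] at h1
      simp only [map_mul, map_pow, map_sub, map_one, Polynomial.aeval_X] at h1
      have h2 : u ^ (K - mnk w k) ≠ 0 := pow_ne_zero _ hu0
      have h3 : u⁻¹ ^ (K - mnk w k) * u ^ (K - mnk w k) = 1 := by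
        rw [← mul_pow, inv_mul_cancel₀ hu0, one_pow]
      apply mul_right_cancel₀ h2
      calc _ = (Polynomial.aeval u (E.val (VS Y w c S (sp k) (fc w k))) * (u - 1) *
            u ^ (∑ i, (K - k i))) * (u⁻¹ ^ (K - mnk w k) * u ^ (K - mnk w k)) *
              u⁻¹ ^ (K * Fintype.card ι) := by ring
        _ = _ := by rw [h3, mul_one, ← h1]; ring
    · rw [if_pos h]
      have h1 := congrArg (Polynomial.aeval u) (hCLS0 ι κ f S Y s w c (Polynomial ℤ)
        E.toMotivicMeasure d K k hS hT hd h)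
      rw [hL] at h1
      simp only [map_mul, map_pow, map_sub, map_one, Polynomial.aeval_X] at h1
      rw [← mul_assoc, ← h1]
      ring
    · rw [if_neg (by omega), if_neg (by omega), hCLS2 ι κ f S Y s w c d K k hT h,
        E.toMotivicMeasure.val_empty]
      simp
  have hsum : ∀ b : ι → Fin (K + 2), HasSum
      (fun k : ι → ℕ => (if tr K k = b then u⁻¹ ^ (∑ i, k i) else 0) *
        SUMKMAux.br E Y s w c S d K u (vec b))
      (Polynomial.aeval u (E.val (JtS Y f S d K (vec b))) * u⁻¹ ^ (K * Fintype.card ι)) := by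
    intro b
    rw [← hval, mul_comm (SUMKMAux.br E Y s w c S d K u (vec b))]
    exact (hasSum_tr K hu b).mul_right _
  have h1 := hasSum_sum (s := Finset.univ) (fun b _ => hsum b)
  rw [← Finset.sum_mul, ← map_sum, ← val_JS E Y f hS] at h1
  have h2 : (fun k : ι → ℕ => ∑ b : ι → Fin (K + 2),
      (if tr K k = b then u⁻¹ ^ (∑ i, k i) else 0) * SUMKMAux.br E Y s w c S d K u (vec b)) =
      ctS E Y s w c S d K u := by
    funext k
    rw [Finset.sum_eq_single (tr K k)]
    · rw [if_pos rfl, ← SUMKMAux.br_tr]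
      rfl
    · intro b _ hb
      rw [if_neg (Ne.symm hb), zero_mul]
    · intro h
      exact absurd (Finset.mem_univ _) h
  rw [h2] at h1
  exact h1

end Pool.Agent.Mono.MG
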